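import Pool.Agent.R498.MT.Fin1

set_option autoImplicit false
set_option linter.unusedSectionVars false

/-! The theorem of Maynard and Tao for almost prime values, in narrow progressions: assembly. -/

namespace Pool.Agent.R498.MT

open Finset Filter Polynomial
open Pool.Agent.Y677.RSZ (rt Sys rhoT per_mod ev_log V eng_all)
open Pool.Agent.TH423.SH (PS)
open Pool.Agent.W23.DC
open Pool.Agent.Y882
open Pool.Agent.Y882.PX
open Pool.Agent.Y882.KW

/-- the point of the progression for a given slot -/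
theorem pt_eq (W b r K ti a : ℕ) (ha : W * K + b = a) (hr : r ≤ a) :
    a - r + (W * ti + r) = W * (K + ti) + b := by
  rw [← ha] at hr ⊢
  have : W * (K + ti) = W * K + W * ti := by ring
  omega

/-- **Clusters of almost prime values in narrow progressions.** -/
theorem fin2 (P : ℤ[X]) (hP : P ≠ 0) (g : ℕ) (hg1 : 1 ≤ g) (hF : Sys g (fun n => P.eval n))
    (G : ℤ → ℤ) (hG : Sys g G)
    (hGF : ∀ p : ℕ, p.Prime → ∀ n : ℤ, (p : ℤ) ∣ G n → (p : ℤ) ∣ P.eval n)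
    (CG : ℕ) (hGs : ∀ n : ℕ, G (n : ℤ) ≠ 0 ∧ (G (n : ℤ)).natAbs ≤ CG * (n + 1) ^ 2)
    (hMer : ∀ ε₁ υ η : ℝ, 0 < ε₁ → υ ≤ 1 → 0 < η → ∃ Y0 : ℕ, ∀ Y : ℕ, Y0 ≤ Y →
      Mer (pr Y ε₁ υ) (tt Y) (fun p => (rt G p : ℝ) / p) ε₁ υ η)
    (KK q0 : ℕ)
    (hSq : ∀ q : ℕ, q.Prime → q0 ≤ q → ∀ N H : ℕ,
      ((((Icc 1 H).filter (fun j : ℕ => ((q ^ 2 : ℕ) : ℤ) ∣ G ((N + j : ℕ) : ℤ))).card : ℕ) : ℝ) ≤
        KK * (H * (1 / (q : ℝ) ^ 2) + 1)) (m : ℕ) :
    ∃ K₀ : ℕ, ∀ HH : Finset ℕ, K₀ ≤ HH.card → ∃ δ : ℝ, 0 < δ ∧ ∀ l : ℕ, 2 ≤ l →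
      ∃ B : ℕ, ∀ᶠ N : ℕ in atTop,
      ∃ H ⊆ HH, H.card = m ∧ ∃ n d : ℕ, N < n ∧
        ((n + (l - 1) * d : ℕ) : ℝ) ≤ N + (N : ℝ) ^ (3 / 4 : ℝ) ∧ 1 ≤ d ∧
        (d : ℝ) ≤ Real.log N ^ B ∧ ∀ j < l, ∀ h ∈ H,
          (G ((n + j * d + h : ℕ) : ℤ)).natAbs.primeFactorsList.length ≤ 3 ∧
          (∀ p : ℕ, p.Prime → (p : ℤ) ∣ G ((n + j * d + h : ℕ) : ℤ) →
            (N : ℝ) ^ (73 / 400 : ℝ) ≤ p) ∧
          ∀ p : ℕ, p.Prime → (p : ℤ) ∣ P.eval ((n + j * d + h : ℕ) : ℤ) → (N : ℝ) ^ δ ≤ p := by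
  classical
  set τ : ℝ := 73 / 100 with hτ
  set υ : ℝ := 24 / 25 * τ with hυ
  have hυ' : υ = 438 / 625 := by rw [hυ, hτ]; norm_num
  have hcond : ∫ x in (73 / 400 : ℝ)..υ, ((8 / 9 : ℝ) - (8 / 9) / υ * x) / (τ - x) / x <
      Real.log (τ / (73 / 400) - 1) / τ := by
    have h := cond_A τ (8 / 9) (by rw [hτ]; norm_num) (by norm_num) (by norm_num)
    have e : τ / 4 = 73 / 400 := by rw [hτ]; norm_num
    rw [e] at h
    exact h
  have hGs' : ∀ n : ℕ, G (n : ℤ) ≠ 0 ∧ (G (n : ℤ)).natAbs ≤ (n + 2) ^ (CG + 2) := by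
    intro n
    refine ⟨(hGs n).1, (hGs n).2.trans ?_⟩
    rw [pow_add]
    apply Nat.mul_le_mul
    · calc CG ≤ 2 ^ CG := Nat.lt_two_pow_self.le
        _ ≤ (n + 2) ^ CG := Nat.pow_le_pow_left (by omega) _
    · exact Nat.pow_le_pow_left (by omega) _
  obtain ⟨k, W, hW0, hWsq, hWp, hgW, ε₁, c, hε, hεζ, hc, hcore⟩ :=
    core (fun n => P.eval n) G g hF hG hGF (CG + 2) hGs' hMer m τ (73 / 400) υ (8 / 9)
      ((8 / 9) / υ) (149 / 200) (1 / 200) (by norm_num) (by rw [hτ]; norm_num)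
      (by rw [hτ]; norm_num) (by rw [hτ]; norm_num) (by rw [hυ']; norm_num)
      (by rw [hυ', hτ]; norm_num) (by norm_num) (by rw [hυ']; norm_num)
      (by rw [div_mul_cancel₀]; rw [hυ']; norm_num) hcond (by norm_num) (by norm_num)
      (by rw [hτ]; norm_num)
  have hW2 : 2 ≤ W := by
    have h1 : 2 ∣ W := hWp 2 Nat.prime_two (by
      have : 1 ≤ g * 2 ^ k := Nat.mul_pos hg1 (by positivity)
      omega)
    exact Nat.le_of_dvd hW0 h1
  refine ⟨W * 2 ^ k, ?_⟩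
  intro HH hHH
  obtain ⟨r, t, hrW, ht, hmem⟩ := shifts W (2 ^ k) hW0 HH hHH
  obtain ⟨b, hbW, hb⟩ := exb' hF W hW0 hWsq
  obtain ⟨Y₀, hcore⟩ := hcore t ht b hb
  obtain ⟨g', hS⟩ := PP_sys P hP g hF W b t hWp hb
  obtain ⟨KP, DP, hKD⟩ := Pool.Agent.W123.RU.Poly.eval_bound (PP P W t)
  obtain ⟨n₀, hn₀⟩ := Pool.Agent.Y677.RSZ.ne_zero_ev (PP P W t) (PP_ne P hP W t)
  set κ : ℝ := c / (2 * 2 ^ 2 ^ k) / W with hκ
  have hW0r : (0 : ℝ) < W := by exact_mod_cast hW0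
  have hκ0 : 0 < κ := by positivity
  refine ⟨ε₁, hε, fun l hl => ?_⟩
  obtain ⟨B, H₀, hB⟩ := eng_all l (g' + 4 * (DP + 1)) (ε₁ / 2) κ hl (by positivity) hκ0
  obtain ⟨NT, hNT⟩ : ∃ NT : ℕ, ∀ i, t i ≤ NT :=
    ⟨univ.sup t, fun i => Finset.le_sup (f := t) (mem_univ i)⟩
  refine ⟨B, ?_⟩
  have hnums := nums1 W r (n₀ + W) KP H₀ q0 CG Y₀ NT (2 * (g * 2 ^ k) + 1)
    (8 * (2 ^ k * KK * W) / c) (4 * (2 ^ k * KK) / c) (73 / 400) υ hW2 hrW (by norm_num)
    (by rw [hυ']; norm_num)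
  filter_upwards [hnums] with N hN
  obtain ⟨n1, n2, n3, n4, n5, n6, n7, n8, n9, n10, L, l1, l2, l3, l4, l5, l6⟩ := hN
  have hNr : (3 : ℝ) ≤ N := by exact_mod_cast n1
  have hN0 : (0 : ℝ) < N := by linarith
  have hN1 : (1 : ℝ) ≤ N := by linarith
  obtain ⟨M, hM⟩ : ∃ M : ℕ, M = (N + r) / W := ⟨_, rfl⟩
  obtain ⟨z, hz⟩ : ∃ z : ℕ, z + 1 = ⌈(N : ℝ) ^ ε₁⌉₊ := by
    have : 1 ≤ ⌈(N : ℝ) ^ ε₁⌉₊ := Nat.ceil_pos.2 (by positivity)
    exact ⟨⌈(N : ℝ) ^ ε₁⌉₊ - 1, by omega⟩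
  have hz1 : (z : ℝ) < (N : ℝ) ^ ε₁ := by
    have h1 := Nat.ceil_lt_add_one (show 0 ≤ (N : ℝ) ^ ε₁ by positivity)
    rw [← hz] at h1
    push_cast at h1
    linarith
  have hz2 : (N : ℝ) ^ ε₁ ≤ z + 1 := by
    have h1 := Nat.le_ceil ((N : ℝ) ^ ε₁)
    rw [← hz] at h1
    push_cast at h1
    exact h1
  obtain ⟨hgd, hV0, hV1⟩ := hcore N n2 M L z l2 (by rw [hM]; exact l5) hz1 hz2
  obtain ⟨Hs, A, hHs, hA1, hA2⟩ := many (fun n => P.eval n) G KK q0 W b r M L N k m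
    (2 * (g * 2 ^ k) + 1) ε₁ (73 / 400) υ (8 / 9) ((8 / 9) / υ) c
    (Vp (fun n => P.eval n) W b z t) hSq hW0 n1 n5 t hc hV0 hV1 hgd l2 n9 n10
  -- the progression
  have hbds : ∀ K ∈ Ioc M (M + L), N + r < W * K + b ∧ W * K + b ≤ N + r + W * L + b ∧
      W * K + b ≤ 3 * N := by
    intro K hK
    rw [mem_Ioc] at hK
    have h1 : N + r < W * (M + 1) := by
      rw [hM]
      exact Nat.lt_mul_div_succ (N + r) hW0
    have h2 : W * (M + 1) ≤ W * K := Nat.mul_le_mul_left _ (by omega)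
    have h3 : W * K ≤ W * (M + L) := Nat.mul_le_mul_left _ hK.2
    have h4 : W * M ≤ N + r := by rw [hM]; exact Nat.mul_div_le _ _
    have h5 : W * (M + L) = W * M + W * L := by ring
    refine ⟨by omega, by omega, by omega⟩
  have hWL : ((N : ℝ)) ^ (1 / 2 : ℝ) ≤ ((W * L : ℕ) : ℝ) := by
    refine l6.trans ?_
    have : L ≤ W * L := Nat.le_mul_of_pos_left _ hW0
    exact_mod_cast this
  have hWL1 : 1 ≤ W * L := by
    have h1 : (1 : ℝ) ≤ ((W * L : ℕ) : ℝ) := le_trans (Real.one_le_rpow hN1 (by norm_num)) hWL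
    exact_mod_cast h1
  have hWLr : (1 : ℝ) ≤ ((W * L : ℕ) : ℝ) := by exact_mod_cast hWL1
  have hWLN : ((W * L : ℕ) : ℝ) ≤ N := by exact_mod_cast l4
  obtain ⟨a, d, hd1, hd2, had⟩ := hB (fun n => (PP P W t).eval n) (W * M + b) (W * L)
    (A.image (fun K => W * K + b)) (Pool.Agent.Y677.RSZ.Sys.mono hS (by omega)) l3
    (by
      intro n hn
      rw [mem_Ioc] at hn
      have h4 : W * M ≤ N + r := by rw [hM]; exact Nat.mul_div_le _ _
      have h6 : N + r < W * (M + 1) := by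
        rw [hM]
        exact Nat.lt_mul_div_succ (N + r) hW0
      have h7 : W * (M + 1) = W * M + W := by ring
      have hn1 : n ≤ 3 * N := by omega
      have hn2 : N ≤ n + W := by omega
      refine ⟨?_, ?_⟩
      · exact hn₀ n (by omega)
      · have h8 := size_P (PP P W t) KP DP N (W * L) hKD (by omega) n4 hWL n (by
          refine le_trans ?_ n6
          have : n + 1 ≤ 3 * N + W * NT + 1 := by omega
          exact_mod_cast this)
        refine h8.trans ?_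
        exact pow_le_pow_right₀ (by exact_mod_cast hWL1) (by omega))
    (by
      intro x hx
      rw [mem_image] at hx
      obtain ⟨K, hK, rfl⟩ := hx
      have h1 := (hA2 K hK).1
      rw [mem_Ioc] at h1 ⊢
      have h2 : W * (M + 1) ≤ W * K := Nat.mul_le_mul_left _ (by omega)
      have h3 : W * K ≤ W * (M + L) := Nat.mul_le_mul_left _ h1.2
      have h5 : W * (M + L) = W * M + W * L := by ring
      have h7 : W * (M + 1) = W * M + W := by ring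
      constructor <;> omega)
    (by
      intro x hx p hp hpH hdvd
      rw [mem_image] at hx
      obtain ⟨K, hK, rfl⟩ := hx
      obtain ⟨i, hi⟩ := (PP_dvd P W b t p hp K).1 hdvd
      refine (hA2 K hK).2.1 p hp ?_ i hi
      refine hpH.trans_lt ?_
      calc ((W * L : ℕ) : ℝ) ^ (ε₁ / 2) ≤ (N : ℝ) ^ (ε₁ / 2) :=
            Real.rpow_le_rpow (by positivity) hWLN (by positivity)
        _ < (N : ℝ) ^ ε₁ := Real.rpow_lt_rpow_of_exponent_lt (by linarith) (by linarith))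
    (by
      rw [card_image_of_injective _ (fun K K' hKK => by
        have h1 : W * K + b = W * K' + b := hKK
        have h2 : W * K = W * K' := by omega
        exact Nat.eq_of_mul_eq_mul_left hW0 h2)]
      refine le_trans ?_ hA1
      have hzWL : z ≤ W * L := by
        have h1 : (z : ℝ) ≤ ((W * L : ℕ) : ℝ) := by
          refine hz1.le.trans (le_trans ?_ hWL)
          exact Real.rpow_le_rpow_of_exponent_le hN1 (by linarith)
        exact_mod_cast h1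
      have h1 := PP_V P g hF W b z (W * L) t hzWL
      calc κ * ((W * L : ℕ) * V (fun n => (PP P W t).eval n) 1 (W * L)) ≤
          κ * ((W * L : ℕ) * Vp (fun n => P.eval n) W b z t) := by gcongr
        _ = c / (2 * 2 ^ 2 ^ k) * (L * Vp (fun n => P.eval n) W b z t) := by
            rw [hκ]
            push_cast
            field_simp)
  have hpt : ∀ j < l, ∃ K ∈ A, W * K + b = a + j * d := by
    intro j hj
    have h1 := had j hj
    rw [mem_image] at h1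
    obtain ⟨K, hK, h2⟩ := h1
    exact ⟨K, hK, h2⟩
  obtain ⟨K0, hK0, hK0a⟩ := hpt 0 (by omega)
  rw [zero_mul, add_zero] at hK0a
  obtain ⟨K1, hK1, hK1a⟩ := hpt (l - 1) (by omega)
  have hb0 := hbds K0 (hA2 K0 hK0).1
  have hb1 := hbds K1 (hA2 K1 hK1).1
  rw [hK0a] at hb0
  rw [hK1a] at hb1
  refine ⟨Hs.image (fun i => W * t i + r), ?_, ?_, a - r, d, by omega, ?_, hd1, ?_, ?_⟩
  · intro h hh
    rw [mem_image] at hh
    obtain ⟨i, _, rfl⟩ := hh
    exact hmem i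
  · rw [card_image_of_injective _ (fun i j hij => by
      have h1 : W * t i + r = W * t j + r := hij
      have h2 : W * t i = W * t j := by omega
      exact ht (Nat.eq_of_mul_eq_mul_left hW0 h2))]
    exact hHs
  · have h1 : a - r + (l - 1) * d ≤ N + ⌊(N : ℝ) ^ (3 / 4 : ℝ)⌋₊ := by
      have h2 : W * (L + 1) = W * L + W := by ring
      omega
    have h2 : ((a - r + (l - 1) * d : ℕ) : ℝ) ≤ N + (⌊(N : ℝ) ^ (3 / 4 : ℝ)⌋₊ : ℝ) := by
      exact_mod_cast h1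
    have h3 : (⌊(N : ℝ) ^ (3 / 4 : ℝ)⌋₊ : ℝ) ≤ (N : ℝ) ^ (3 / 4 : ℝ) :=
      Nat.floor_le (by positivity)
    linarith
  · refine hd2.trans ?_
    apply pow_le_pow_left₀ (Real.log_nonneg hWLr)
    exact Real.log_le_log (by linarith) hWLN
  · intro j hj h hh
    rw [mem_image] at hh
    obtain ⟨i, hi, rfl⟩ := hh
    obtain ⟨K, hK, hKa⟩ := hpt j hj
    have e : a - r + j * d + (W * t i + r) = W * (K + t i) + b := by
      have h1 := pt_eq W b r K (t i) (a + j * d) hKa (by omega)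
      omega
    rw [e]
    obtain ⟨hK1', hK2', hK3'⟩ := hA2 K hK
    obtain ⟨hw, hsq⟩ := hK3' i hi
    have hbK := hbds K hK1'
    have hx : W * (K + t i) + b + 1 ≤ 4 * N := by
      have h1 : W * t i ≤ W * NT := Nat.mul_le_mul_left _ (hNT i)
      have h2 : W * (K + t i) = W * K + W * t i := by ring
      omega
    have hsize : (((G ((W * (K + t i) + b : ℕ) : ℤ)).natAbs : ℕ) : ℝ) ≤
        (N : ℝ) ^ ((201 : ℝ) / 100) := by
      have h1 := (hGs (W * (K + t i) + b)).2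
      have h2 : (((G ((W * (K + t i) + b : ℕ) : ℤ)).natAbs : ℕ) : ℝ) ≤
          CG * ((W * (K + t i) + b + 1 : ℕ) : ℝ) ^ 2 := by exact_mod_cast h1
      have h3 : ((W * (K + t i) + b + 1 : ℕ) : ℝ) ≤ 4 * N := by exact_mod_cast hx
      have h4 : ((W * (K + t i) + b + 1 : ℕ) : ℝ) ^ 2 ≤ (4 * N) ^ 2 :=
        pow_le_pow_left₀ (by positivity) h3 2
      calc (((G ((W * (K + t i) + b : ℕ) : ℤ)).natAbs : ℕ) : ℝ) ≤ CG * (4 * N) ^ 2 :=
            h2.trans (mul_le_mul_of_nonneg_left h4 (Nat.cast_nonneg _))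
        _ = (16 * CG) * (N : ℝ) ^ 2 := by ring
        _ ≤ (N : ℝ) ^ ((201 : ℝ) / 100 - 2) * (N : ℝ) ^ 2 := by gcongr
        _ = _ := by
            rw [← Real.rpow_natCast (N : ℝ) 2, ← Real.rpow_add hN0]
            congr 1
            push_cast
            ring
    have halm := almost N (by omega) (73 / 400) υ (8 / 9) (201 / 100) 3 (by rw [hυ']; norm_num)
      (by rw [hυ']; norm_num) (by rw [hυ']; norm_num) (by norm_num)
      (by rw [hυ']; norm_num) (G ((W * (K + t i) + b : ℕ) : ℤ)).natAbs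
      (Int.natAbs_ne_zero.2 (hGs _).1) hsize hw (fun q hq hqd => hsq q hq (Int.natCast_dvd.2 hqd))
    refine ⟨halm.1, fun p hp hpd => halm.2 p hp (Int.natCast_dvd.1 hpd), fun p hp hpd => ?_⟩
    by_contra hcon
    push Not at hcon
    exact hK2' p hp hcon i hpd

end Pool.Agent.R498.MT
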