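import Pool.Agent.Y852.RSZ.C1
import Pool.Agent.Y833.RSZ.CLS
import Pool.Agent.Y677.RSZ.Eng1
import Pool.Agent.R498.MT.Main

set_option autoImplicit false
set_option linter.unusedSectionVars false

/-! The number of the arguments in the classes. -/

namespace Pool.Agent.R498.MT

open Finset
open Pool.Agent.Y677.RSZ
open Pool.Agent.TH423.SH (PS)

section count
variable {S : Type} [Fintype S] [DecidableEq S]

/-- the modulus of the conditions -/
def DT (pp : S → ℕ) {m : ℕ} (T : S → Option (Fin m)) : ℕ := ∏ s, if T s = none then 1 else pp s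

/-- the modulus of one colour -/
def Dj (pp : S → ℕ) {m : ℕ} (T : S → Option (Fin m)) (j : Fin m) : ℕ :=
  ∏ s ∈ univ.filter (fun s => T s = some j), pp s

theorem col_prod {m : ℕ} {M : Type} [CommMonoid M] (T : S → Option (Fin m)) (f : S → M) :
    ∏ j, ∏ s ∈ univ.filter (fun s => T s = some j), f s = ∏ s, if T s = none then 1 else f s := by
  simp_rw [prod_filter]
  rw [prod_comm]
  refine prod_congr rfl fun s _ => ?_
  rcases h : T s with _ | j
  · simp
  · simp only [Option.some.injEq, reduceCtorEq, if_false]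
    rw [prod_ite_eq univ j]
    simp

theorem DT_eq (pp : S → ℕ) {m : ℕ} (T : S → Option (Fin m)) : ∏ j, Dj pp T j = DT pp T := by
  unfold Dj DT
  exact col_prod T pp

variable (pp : S → ℕ) (hpr : ∀ s, (pp s).Prime) (hinj : Function.Injective pp)

include hpr in
theorem DT_pos {m : ℕ} (T : S → Option (Fin m)) : 0 < DT pp T := by
  unfold DT
  apply prod_pos
  intro s _
  split_ifs
  · exact one_pos
  · exact (hpr s).pos

include hpr hinj in
theorem pf_Dj {m : ℕ} (T : S → Option (Fin m)) (j : Fin m) :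
    (Dj pp T j).primeFactors = (univ.filter (fun s => T s = some j)).image pp := by
  have e : Dj pp T j = ∏ p ∈ (univ.filter (fun s => T s = some j)).image pp, p := by
    unfold Dj
    rw [prod_image (fun a _ b _ h => hinj h)]
  rw [e]
  apply Nat.primeFactors_prod
  intro p hp
  rw [mem_image] at hp
  obtain ⟨s, _, rfl⟩ := hp
  exact hpr s

include hpr hinj in
theorem rs_Dj {m : ℕ} (T : S → Option (Fin m)) (r : ℕ → ℕ) :
    ∏ j, rs r (Dj pp T j) = ∏ s, if T s = none then 1 else r (pp s) := by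
  rw [← col_prod T (fun s => r (pp s))]
  refine prod_congr rfl fun j _ => ?_
  unfold rs
  rw [pf_Dj pp hpr hinj T j, prod_image (fun a _ b _ h => hinj h)]

include hpr hinj in
theorem sqf_Dj {m : ℕ} (T : S → Option (Fin m)) (j : Fin m) : Squarefree (Dj pp T j) := by
  unfold Dj
  apply Finset.squarefree_prod_of_pairwise_isCoprime
  · intro a _ b _ hab
    exact Nat.coprime_iff_isRelPrime.1 ((Nat.coprime_primes (hpr a) (hpr b)).2 (fun h => hab (hinj h)))
  · intro s _
    exact (hpr s).prime.squarefree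

include hpr hinj in
theorem cop_Dj {m : ℕ} (T : S → Option (Fin m)) (i j : Fin m) (hij : i ≠ j) :
    Nat.Coprime (Dj pp T i) (Dj pp T j) := by
  unfold Dj
  apply Nat.Coprime.prod_left
  intro s hs
  apply Nat.Coprime.prod_right
  intro s' hs'
  rw [mem_filter] at hs hs'
  apply (Nat.coprime_primes (hpr s) (hpr s')).2
  intro h
  have := hinj h
  subst this
  rw [hs.2] at hs'
  exact hij (Option.some.inj hs'.2)

include hpr hinj in
theorem Dj_dvd {m : ℕ} (T : S → Option (Fin m)) (j : Fin m) (x : ℤ) :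
    (Dj pp T j : ℤ) ∣ x ↔ ∀ s, T s = some j → (pp s : ℤ) ∣ x := by
  constructor
  · intro h s hs
    refine dvd_trans ?_ h
    rw [Int.natCast_dvd_natCast]
    unfold Dj
    exact dvd_prod_of_mem pp (by rw [mem_filter]; exact ⟨mem_univ _, hs⟩)
  · intro h
    unfold Dj
    push_cast
    apply Finset.prod_dvd_of_coprime
    · intro a _ b _ hab
      show IsCoprime (pp a : ℤ) (pp b : ℤ)
      rw [Nat.isCoprime_iff_coprime]
      exact (Nat.coprime_primes (hpr a) (hpr b)).2 (fun h => hab (hinj h))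
    · intro s hs
      rw [mem_filter] at hs
      exact h s hs.2

/-- the classes -/
def CT (G : ℤ → ℤ) (W b : ℕ) {m : ℕ} (t : Fin m → ℕ) (T : S → Option (Fin m)) : Finset ℕ :=
  (range (DT pp T)).filter (fun r : ℕ =>
    ∀ j, (Dj pp T j : ℤ) ∣ G ((W * (r + t j) + b : ℕ) : ℤ))

include hpr hinj in
theorem CT_card (G : ℤ → ℤ) (hG : ∀ p : ℕ, p.Prime → ∀ n : ℤ, (p : ℤ) ∣ G (n + p) - G n)
    (W b : ℕ) (hW : ∀ s, ¬ pp s ∣ W) {m : ℕ} (t : Fin m → ℕ) (T : S → Option (Fin m)) :
    (CT pp G W b t T).card = ∏ s, if T s = none then 1 else rt G (pp s) := by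
  rw [← rs_Dj pp hpr hinj T (rt G)]
  have h := Pool.Agent.Y833.RSZ.CLS G hG W b m (Dj pp T) t (fun i => ⟨sqf_Dj pp hpr hinj T i, by
    unfold Dj
    apply Nat.Coprime.prod_left
    intro s _
    exact ((hpr s).coprime_iff_not_dvd).2 (hW s)⟩) (fun i j hij => cop_Dj pp hpr hinj T i j hij)
  rw [← h]
  unfold CT
  rw [DT_eq]

include hpr hinj in
theorem CT_iff (G : ℤ → ℤ) (hG : ∀ p : ℕ, p.Prime → ∀ n : ℤ, (p : ℤ) ∣ G (n + p) - G n)
    (W b : ℕ) {m : ℕ} (t : Fin m → ℕ) (T : S → Option (Fin m)) (K : ℕ) :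
    K % DT pp T ∈ CT pp G W b t T ↔ ∀ s j, T s = some j → (pp s : ℤ) ∣ G ((W * (K + t j) + b : ℕ) : ℤ) := by
  unfold CT
  rw [mem_filter, mem_range]
  constructor
  · rintro ⟨_, h⟩ s j hs
    have h1 := (Dj_dvd pp hpr hinj T j _).1 (h j) s hs
    refine (per_mod hG (hpr s) _ _ ?_).1 h1
    have h2 : pp s ∣ DT pp T := by
      rw [← DT_eq]
      refine dvd_trans ?_ (dvd_prod_of_mem _ (mem_univ j))
      unfold Dj
      exact dvd_prod_of_mem pp (by rw [mem_filter]; exact ⟨mem_univ _, hs⟩)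
    have h3 : K % DT pp T ≡ K [MOD pp s] := (Nat.mod_modEq K (DT pp T)).of_dvd h2
    exact ((h3.add_right _).mul_left _).add_right _
  · intro h
    refine ⟨Nat.mod_lt _ (DT_pos pp hpr T), fun j => ?_⟩
    rw [Dj_dvd pp hpr hinj T j]
    intro s hs
    refine (per_mod hG (hpr s) _ _ ?_).1 (h s j hs)
    have h2 : pp s ∣ DT pp T := by
      rw [← DT_eq]
      refine dvd_trans ?_ (dvd_prod_of_mem _ (mem_univ j))
      unfold Dj
      exact dvd_prod_of_mem pp (by rw [mem_filter]; exact ⟨mem_univ _, hs⟩)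
    have h3 : K ≡ K % DT pp T [MOD pp s] := ((Nat.mod_modEq K (DT pp T)).of_dvd h2).symm
    exact ((h3.add_right _).mul_left _).add_right _

open Classical in
/-- the indicator of the presieved arguments -/
noncomputable def nuI (F : ℤ → ℤ) (W b z : ℕ) {m : ℕ} (t : Fin m → ℕ) (K : ℕ) : ℝ :=
  if ∀ p ∈ PS W z, ∀ i, ¬ (p : ℤ) ∣ F ((W * (K + t i) + b : ℕ) : ℤ) then 1 else 0

/-- the sieve product of the presieved arguments -/
noncomputable def Vp (F : ℤ → ℤ) (W b z : ℕ) {m : ℕ} (t : Fin m → ℕ) : ℝ :=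
  ∏ p ∈ PS W z, (1 - (rhoT F W b t p : ℝ) / p)

open Classical in
include hpr hinj in
theorem cnt_T (C b₀ W J z m b M L : ℕ) (F G : ℤ → ℤ) (t : Fin m → ℕ)
    (hG : ∀ p : ℕ, p.Prime → ∀ n : ℤ, (p : ℤ) ∣ G (n + p) - G n)
    (hW1 : 1 ≤ W) (hW : W ≤ z) (hz : ∀ s, z < pp s)
    (hC : ∀ (D a : ℕ), 1 ≤ D → (∀ p ∈ PS W z, ¬ p ∣ D) →
      |(((Ioc M (M + L)).filter (fun K => K % D = a % D ∧
      ∀ p ∈ PS W z, ∀ i, ¬ (p : ℤ) ∣ F ((W * (K + t i) + b : ℕ) : ℤ))).card : ℝ) -
      (L : ℝ) / D * ∏ p ∈ PS W z, (1 - (rhoT F W b t p : ℝ) / p)| ≤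
      (1 / 2 : ℝ) ^ b₀ * ((L : ℝ) / D * ∏ p ∈ PS W z, (1 - (rhoT F W b t p : ℝ) / p)) +
        ((2 : ℝ) ^ 2 ^ J) ^ (C * b₀))
    (ξ : ℕ → S → Option (Fin m))
    (hξ : ∀ K s j, nuI F W b z t K ≠ 0 →
      (ξ K s = some j ↔ (pp s : ℤ) ∣ G ((W * (K + t j) + b : ℕ) : ℤ)))
    (T : S → Option (Fin m)) :
    |∑ K ∈ Ioc M (M + L), nuI F W b z t K * (if Sub T (ξ K) then 1 else 0) -
      (L * Vp F W b z t) * ∏ s, rr (fun _ => (rt G (pp s) : ℝ) / pp s) (T s)| ≤
    ((1 / 2 : ℝ) ^ b₀ * (L * Vp F W b z t) + DT pp T * ((2 : ℝ) ^ 2 ^ J) ^ (C * b₀)) *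
      ∏ s, rr (fun _ => (rt G (pp s) : ℝ) / pp s) (T s) := by
  have hnW : ∀ s, ¬ pp s ∣ W := fun s h => by
    have := Nat.le_of_dvd hW1 h
    have := hz s
    omega
  set D := DT pp T with hD
  have hD0 : 0 < D := DT_pos pp hpr T
  have hDr : (0 : ℝ) < D := by exact_mod_cast hD0
  -- the count by classes
  have h1 : ∑ K ∈ Ioc M (M + L), nuI F W b z t K * (if Sub T (ξ K) then 1 else 0) =
      ∑ r ∈ CT pp G W b t T, (((Ioc M (M + L)).filter (fun K => K % D = r % D ∧
      ∀ p ∈ PS W z, ∀ i, ¬ (p : ℤ) ∣ F ((W * (K + t i) + b : ℕ) : ℤ))).card : ℝ) := by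
    have e1 : ∀ K ∈ Ioc M (M + L), nuI F W b z t K * (if Sub T (ξ K) then 1 else 0) =
        ∑ r ∈ CT pp G W b t T, if (K % D = r % D ∧
          ∀ p ∈ PS W z, ∀ i, ¬ (p : ℤ) ∣ F ((W * (K + t i) + b : ℕ) : ℤ)) then (1 : ℝ) else 0 := by
      intro K _
      by_cases hK : ∀ p ∈ PS W z, ∀ i, ¬ (p : ℤ) ∣ F ((W * (K + t i) + b : ℕ) : ℤ)
      · have hν : nuI F W b z t K = 1 := by unfold nuI; rw [if_pos hK]
        rw [hν, one_mul]
        have hsub : Sub T (ξ K) ↔ K % D ∈ CT pp G W b t T := by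
          rw [hD, CT_iff pp hpr hinj G hG W b t T K]
          constructor
          · intro h s j hs
            rcases h s with h2 | h2
            · rw [hs] at h2; simp at h2
            · rw [hs] at h2
              exact (hξ K s j (by rw [hν]; exact one_ne_zero)).1 h2.symm
          · intro h s
            rcases hs : T s with _ | j
            · exact Or.inl rfl
            · exact Or.inr ((hξ K s j (by rw [hν]; exact one_ne_zero)).2 (h s j hs)).symm
        have e2 : ∀ r ∈ CT pp G W b t T, (if (K % D = r % D ∧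
          ∀ p ∈ PS W z, ∀ i, ¬ (p : ℤ) ∣ F ((W * (K + t i) + b : ℕ) : ℤ)) then (1 : ℝ) else 0) =
            if r = K % D then 1 else 0 := by
          intro r hr
          have hr' : r % D = r := by
            unfold CT at hr
            rw [mem_filter, mem_range] at hr
            exact Nat.mod_eq_of_lt hr.1
          rw [hr']
          apply if_congr _ rfl rfl
          constructor
          · rintro ⟨h2, _⟩; exact h2.symm
          · intro h2; exact ⟨h2.symm, hK⟩
        rw [sum_congr rfl e2, sum_ite_eq']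
        exact if_congr hsub rfl rfl
      · have hν : nuI F W b z t K = 0 := by unfold nuI; rw [if_neg hK]
        rw [hν, zero_mul]
        symm
        apply sum_eq_zero
        intro r _
        rw [if_neg]
        rintro ⟨_, h⟩
        exact hK h
    rw [sum_congr rfl e1, sum_comm]
    refine sum_congr rfl fun r _ => ?_
    rw [← sum_filter]
    simp
  have hcard := CT_card pp hpr hinj G hG W b hnW t T
  have h2 : (((CT pp G W b t T).card : ℕ) : ℝ) =
      D * ∏ s, rr (fun _ => (rt G (pp s) : ℝ) / pp s) (T s) := by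
    rw [hcard, hD]
    unfold DT
    push_cast
    rw [← prod_mul_distrib]
    refine prod_congr rfl fun s _ => ?_
    rcases T s with _ | j
    · simp [rr]
    · have : (pp s : ℝ) ≠ 0 := by exact_mod_cast (hpr s).ne_zero
      simp only [reduceCtorEq, if_false, rr]
      field_simp
  set V := Vp F W b z t with hV
  have h3 : (L * V) * ∏ s, rr (fun _ => (rt G (pp s) : ℝ) / pp s) (T s) =
      ∑ r ∈ CT pp G W b t T, ((L : ℝ) / D * V) := by
    rw [sum_const, nsmul_eq_mul, h2]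
    field_simp
  rw [h1, h3, ← sum_sub_distrib]
  refine (abs_sum_le_sum_abs _ _).trans ?_
  have h4 : ∀ r ∈ CT pp G W b t T, |((((Ioc M (M + L)).filter (fun K => K % D = r % D ∧
      ∀ p ∈ PS W z, ∀ i, ¬ (p : ℤ) ∣ F ((W * (K + t i) + b : ℕ) : ℤ))).card : ℕ) : ℝ) -
      (L : ℝ) / D * V| ≤ (1 / 2 : ℝ) ^ b₀ * ((L : ℝ) / D * V) + ((2 : ℝ) ^ 2 ^ J) ^ (C * b₀) := by
    intro r _
    have h5 := hC D r hD0 (by
      intro p hp hpd
      have hpp : p.Prime ∧ p ≤ z := by
        unfold PS at hp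
        rw [mem_filter, mem_Icc] at hp
        exact ⟨hp.2.1, hp.1.2⟩
      have h6 : p ∣ DT pp T := hpd
      unfold DT at h6
      obtain ⟨s, _, hs⟩ := (hpp.1.prime.dvd_finsetProd_iff _).1 h6
      split_ifs at hs
      · exact hpp.1.one_lt.ne' (Nat.dvd_one.1 hs)
      · have h7 := (Nat.prime_dvd_prime_iff_eq hpp.1 (hpr s)).1 hs
        have := hz s
        omega)
    refine le_trans (le_of_eq ?_) h5
    congr!
  refine (sum_le_sum h4).trans ?_
  rw [sum_const, nsmul_eq_mul, h2]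
  apply le_of_eq
  field_simp

end count

end Pool.Agent.R498.MT
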