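import Pool.Agent.R498.MT.Real1

set_option autoImplicit false
set_option linter.unusedSectionVars false

/-! Weights and sizes. -/

namespace Pool.Agent.R498.MT

open Finset Filter
open Pool.Agent.Y677.RSZ (rt Sys rhoT per_mod)
open Pool.Agent.TH423.SH (PS)
open Pool.Agent.W23.DC
open Pool.Agent.Y882
open Pool.Agent.Y882.PX
open Pool.Agent.Y882.KW

theorem rt_zero {G : ℤ → ℤ} (hG : ∀ p : ℕ, p.Prime → ∀ n : ℤ, (p : ℤ) ∣ G (n + p) - G n)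
    (p : ℕ) (hp : p.Prime) (h0 : rt G p = 0) (n : ℕ) : ¬ (p : ℤ) ∣ G (n : ℤ) := by
  intro h
  have h1 : (p : ℤ) ∣ G ((n % p : ℕ) : ℤ) := (per_mod hG hp _ _ (Nat.mod_modEq n p)).2 h
  unfold rt at h0
  rw [card_eq_zero, filter_eq_empty_iff] at h0
  exact h0 (mem_range.2 (Nat.mod_lt n hp.pos)) h1

open Classical in
/-- the number of the sieving primes which divide a small number -/
theorem few_t (G : ℤ → ℤ) (Y : ℕ) (ε₁ υ : ℝ) (hY : 2 ≤ Y) (hε : 0 < ε₁) (x : ℤ) (hx : x ≠ 0)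
    (E : ℝ) (hxE : (x.natAbs : ℝ) ≤ (Y : ℝ) ^ E) :
    ((univ.filter (fun s : Pg G Y ε₁ υ => ((s : ℕ) : ℤ) ∣ x)).card : ℝ) ≤ E / ε₁ := by
  have hYr : (2 : ℝ) ≤ Y := by exact_mod_cast hY
  have hY0 : (0 : ℝ) < Y := by linarith
  have hY1 : (1 : ℝ) < Y := by linarith
  set A := univ.filter (fun s : Pg G Y ε₁ υ => ((s : ℕ) : ℤ) ∣ x) with hA
  have h1 : (∏ s ∈ A, (s : ℕ)) ∣ x.natAbs := by
    apply Finset.prod_dvd_of_isRelPrime
    · intro a _ b _ hab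
      exact Nat.coprime_iff_isRelPrime.1
        ((Nat.coprime_primes (Pg_mem G Y ε₁ υ hY a).1 (Pg_mem G Y ε₁ υ hY b).1).2
          (fun h => hab (Subtype.ext h)))
    · intro s hs
      rw [hA, mem_filter] at hs
      exact Int.natCast_dvd.1 hs.2
  have h2 := Nat.le_of_dvd (Int.natAbs_pos.2 hx) h1
  have h3 : ((Y : ℝ) ^ ε₁) ^ A.card ≤ (Y : ℝ) ^ E := by
    calc ((Y : ℝ) ^ ε₁) ^ A.card = ∏ _s ∈ A, (Y : ℝ) ^ ε₁ := by rw [prod_const]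
      _ ≤ ∏ s ∈ A, ((s : ℕ) : ℝ) := prod_le_prod (fun _ _ => by positivity)
          (fun s _ => (Pg_mem G Y ε₁ υ hY s).2.1)
      _ ≤ (x.natAbs : ℝ) := by exact_mod_cast h2
      _ ≤ _ := hxE
  rw [← Real.rpow_natCast, ← Real.rpow_mul hY0.le, Real.rpow_le_rpow_left_iff hY1] at h3
  rw [le_div_iff₀ hε]
  linarith

/-- the size of a set of sieving primes -/
theorem lz_le (G : ℤ → ℤ) (Y : ℕ) (ε₁ υ : ℝ) (hY : 2 ≤ Y) (T : Finset (Pg G Y ε₁ υ)) (τ : ℝ)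
    (h : ((∏ p ∈ T.map (Function.Embedding.subtype _), p : ℕ) : ℝ) ≤ (Y : ℝ) ^ τ) :
    lz (ls G Y ε₁ υ) T ≤ τ := by
  have hYr : (2 : ℝ) ≤ Y := by exact_mod_cast hY
  have hY0 : (0 : ℝ) < Y := by linarith
  have hlY : 0 < Real.log Y := Real.log_pos (by linarith)
  rw [prod_map] at h
  have hpos : (0 : ℝ) < ((∏ s ∈ T, (Function.Embedding.subtype _ s : ℕ) : ℕ) : ℝ) := by
    have : 0 < ∏ s ∈ T, (Function.Embedding.subtype _ s : ℕ) :=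
      prod_pos fun s _ => (Pg_mem G Y ε₁ υ hY s).1.pos
    exact_mod_cast this
  have h1 := Real.log_le_log hpos h
  rw [Real.log_rpow hY0] at h1
  push_cast at h1
  rw [Real.log_prod (fun s _ => by
    have := (Pg_mem G Y ε₁ υ hY s).1.ne_zero
    exact_mod_cast this)] at h1
  have h2 : lz (ls G Y ε₁ υ) T * Real.log Y = ∑ s ∈ T, Real.log ((s : ℕ) : ℝ) := by
    unfold lz ls
    rw [sum_mul]
    refine sum_congr rfl fun s _ => ?_
    unfold tt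
    field_simp
  have h3 : lz (ls G Y ε₁ υ) T * Real.log Y ≤ τ * Real.log Y := by
    rw [h2]
    exact h1
  exact le_of_mul_le_mul_right h3 hlY

open Classical in
/-- the weights of one slot -/
theorem slot_w (G : ℤ → ℤ) (hG : ∀ p : ℕ, p.Prime → ∀ n : ℤ, (p : ℤ) ∣ G (n + p) - G n)
    (Y : ℕ) (ε₁ υ : ℝ) (hY : 2 ≤ Y) (cL0 : Finset ℕ → ℝ) (n : ℕ) {m : ℕ} (i : Fin m)
    (ξ : Pg G Y ε₁ υ → Option (Fin m))
    (hξ : ∀ s, ξ s = some i ↔ ((s : ℕ) : ℤ) ∣ G (n : ℤ)) :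
    ∑ T : Finset (Pg G Y ε₁ υ), cL0 (T.map (Function.Embedding.subtype _)) *
      (if ∀ t ∈ T, ξ t = some i then 1 else 0) =
    VV (pr Y ε₁ υ) cL0 (fun p => if p ∣ (G (n : ℤ)).natAbs then 1 else 0) := by
  have hPP : Pg G Y ε₁ υ ⊆ pr Y ε₁ υ := filter_subset _ _
  rw [VV_restrict (pr Y ε₁ υ) (Pg G Y ε₁ υ) hPP cL0
    (fun p => if p ∣ (G (n : ℤ)).natAbs then 1 else 0) (fun p hp hp' => by
      rw [if_neg]
      intro h
      have h0 : rt G p = 0 := by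
        by_contra h1
        exact hp' (mem_filter.2 ⟨hp, h1⟩)
      have hpp : p.Prime := (pr_mem Y p ε₁ υ hY hp).1
      exact rt_zero hG p hpp h0 n (Int.natCast_dvd.2 h))]
  refine sum_congr rfl fun T _ => ?_
  congr 1
  rw [Finset.prod_ite_zero]
  simp only [prod_const_one]
  apply if_congr _ rfl rfl
  refine forall₂_congr fun s _ => ?_
  rw [hξ s, Int.natCast_dvd]

theorem WB_pos (Y : ℕ) (ε₁ ζ υ a b : ℝ) (N : ℕ) (hY : 2 ≤ Y)
    (hN : ∀ p : ℕ, p.Prime → (p : ℝ) < (Y : ℝ) ^ ε₁ → ¬ p ∣ N) (h : 0 < WB Y ε₁ ζ υ a b N) :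
    0 < WW Y ζ υ a b N := by
  classical
  have h1 : (∀ p ∈ pr Y ε₁ ζ, ¬ p ∣ N) ∧
      0 < 1 - ∑ q ∈ pr Y ζ υ, (a - b * tt Y q) * (if q ∣ N then (1 : ℝ) else 0) := by
    unfold WB at h
    split_ifs at h with h2
    · refine ⟨h2, ?_⟩
      rw [one_mul] at h
      convert h
    · simp at h
  have h3 : ∀ p ∈ PZ Y ζ, ¬ p ∣ N := by
    intro p hp hpN
    unfold PZ at hp
    rw [mem_filter] at hp
    by_cases h4 : tt Y p < ε₁
    · exact hN p hp.2.1 ((tt_lt Y p ε₁ hY hp.2.1.pos).1 h4) hpN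
    · apply h1.1 p _ hpN
      unfold pr
      rw [mem_filter]
      exact ⟨hp.1, hp.2.1, not_lt.1 h4, hp.2.2⟩
  unfold WW
  rw [if_pos h3, one_mul]
  convert h1.2

theorem WB_le_one (Y : ℕ) (ε₁ ζ υ a b : ℝ) (hb : 0 ≤ b) (hab : b * υ ≤ a) (N : ℕ) :
    WB Y ε₁ ζ υ a b N ≤ 1 := by
  have hS0 : 0 ≤ ∑ q ∈ pr Y ζ υ, (a - b * tt Y q) * (if q ∣ N then (1 : ℝ) else 0) := by
    apply sum_nonneg
    intro q hq
    unfold pr at hq
    rw [mem_filter] at hq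
    have h6 : b * tt Y q ≤ b * υ := mul_le_mul_of_nonneg_left hq.2.2.2.le hb
    apply mul_nonneg (by linarith)
    split_ifs <;> norm_num
  unfold WB
  split_ifs
  · rw [one_mul]
    convert sub_le_self (1 : ℝ) hS0
  · rw [zero_mul]
    norm_num

theorem WB_ne (Y : ℕ) (ε₁ ζ υ a b : ℝ) (N : ℕ) (h : WB Y ε₁ ζ υ a b N ≠ 0) (p : ℕ)
    (hp : p ∈ pr Y ε₁ υ) (hpN : p ∣ N) : ζ ≤ tt Y p := by
  classical
  by_contra hcon
  apply h
  unfold WB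
  rw [if_neg, zero_mul]
  intro h1
  refine h1 p ?_ hpN
  unfold pr at hp ⊢
  rw [mem_filter] at hp ⊢
  exact ⟨hp.1, hp.2.1, hp.2.2.1, not_le.1 hcon⟩

end Pool.Agent.R498.MT
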