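import Pool.Agent.R498.MT.Real2
import Pool.Agent.Y677.RSZ.Eng4

set_option autoImplicit false
set_option linter.unusedSectionVars false

/-! The theorem of Maynard and Tao for almost prime values: parameters and auxiliary bounds. -/

namespace Pool.Agent.R498.MT

open Finset Filter
open Pool.Agent.Y677.RSZ (rt Sys rhoT per_mod ev_log)
open Pool.Agent.TH423.SH (PS)
open Pool.Agent.W23.DC
open Pool.Agent.Y882
open Pool.Agent.Y882.PX
open Pool.Agent.Y882.KW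

open Classical in
/-- the arguments with more than `m` good slots -/
noncomputable def gd (F G : ℤ → ℤ) (Y : ℕ) (ε₁ ζ υ aw bw : ℝ) (W b : ℕ) {n : ℕ} (t : Fin n → ℕ)
    (m M L : ℕ) : Finset ℕ :=
  (Ioc M (M + L)).filter (fun K =>
    (∀ p : ℕ, p.Prime → (p : ℝ) < (Y : ℝ) ^ ε₁ → ∀ i,
      ¬ (p : ℤ) ∣ F ((W * (K + t i) + b : ℕ) : ℤ)) ∧
    m < (univ.filter (fun i =>
      0 < WW Y ζ υ aw bw (G ((W * (K + t i) + b : ℕ) : ℤ)).natAbs)).card)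

/-- the parameters of the presieve -/
theorem par (C₁ R : ℝ) (k C C' : ℕ) (hC : 0 ≤ C₁) (hR : 0 < R) (β κ : ℝ) (hβ : 0 < β) (hκ : 0 < κ) :
    ∃ (ε₁ : ℝ) (b₀ : ℕ), 0 < ε₁ ∧ ε₁ ≤ β ∧ ε₁ ≤ e0 k C₁ R ∧ C' ≤ b₀ ∧
      2 * (1 / 2 : ℝ) ^ b₀ ≤ ε₁ ^ (16 * (2 ^ k) ^ 2 + 1) ∧ 2 * ε₁ * (C * b₀) ≤ κ := by
  set A : ℕ := 16 * (2 ^ k) ^ 2 + 1 with hA
  have h0 := e0_pos k C₁ R hC hR
  have h1 : Tendsto (fun s : ℕ => (s : ℝ) * (1 / 2 : ℝ) ^ s) atTop (nhds 0) := by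
    have := tendsto_pow_const_mul_const_pow_of_abs_lt_one 1 (show |(1 / 2 : ℝ)| < 1 by
      rw [abs_of_pos (by norm_num)]; norm_num)
    simpa using this
  have h2 : Tendsto (fun s : ℕ => (1 / 2 : ℝ) ^ s) atTop (nhds 0) :=
    tendsto_pow_atTop_nhds_zero_of_lt_one (by norm_num) (by norm_num)
  have h3 : Tendsto (fun s : ℕ => 2 * C * (A * ((s : ℝ) * (1 / 2 : ℝ) ^ s) +
      (C' + 1) * (1 / 2 : ℝ) ^ s)) atTop (nhds (2 * C * (A * 0 + (C' + 1) * 0))) :=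
    ((h1.const_mul _).add (h2.const_mul _)).const_mul _
  rw [show 2 * (C : ℝ) * (A * 0 + (C' + 1) * 0) = 0 by ring] at h3
  obtain ⟨s, hs1, hs2, hs3⟩ := ((h3.eventually_le_const hκ).and
    ((h2.eventually_le_const hβ).and (h2.eventually_le_const h0))).exists
  refine ⟨(1 / 2 : ℝ) ^ s, s * A + C' + 1, by positivity, hs2, hs3, by omega, ?_, ?_⟩
  · have e1 : ((1 / 2 : ℝ) ^ s) ^ A = (1 / 2 : ℝ) ^ (s * A) := by rw [← pow_mul]
    rw [e1, pow_add, pow_add]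
    have h4 : (1 / 2 : ℝ) ^ C' ≤ 1 := pow_le_one₀ (by norm_num) (by norm_num)
    have h5 : 0 < (1 / 2 : ℝ) ^ (s * A) := by positivity
    nlinarith
  · push_cast
    refine le_trans (le_of_eq ?_) hs1
    ring

/-- the modulus -/
theorem exW (A g : ℕ) : ∃ W : ℕ, 0 < W ∧ Squarefree W ∧ (∀ p : ℕ, p.Prime → p ≤ A → p ∣ W) ∧
    g ≤ W := by
  refine ⟨primorial (A + 2 * g + 2), primorial_pos _, ?_, ?_, ?_⟩
  · unfold primorial
    exact Finset.squarefree_prod_of_pairwise_isCoprime (by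
      intro a ha b hb hab
      rw [mem_coe, mem_filter] at ha hb
      exact Nat.coprime_iff_isRelPrime.1 ((Nat.coprime_primes ha.2 hb.2).2 hab)) (by
      intro p hp
      rw [mem_filter] at hp
      exact hp.2.prime.squarefree)
  · intro p hp hpA
    exact hp.dvd_primorial_iff.2 (by omega)
  · rcases Nat.eq_zero_or_pos g with h0 | h0
    · omega
    · obtain ⟨p, hp, hp1, hp2⟩ := Nat.exists_prime_lt_and_le_two_mul g (by omega)
      exact hp1.le.trans (Nat.le_of_dvd (primorial_pos _) (hp.dvd_primorial_iff.2 (by omega)))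

/-- the size of the sieve product -/
theorem num1 (Y J A : ℕ) (ε₁ cV V : ℝ) (hY : 3 ≤ Y) (hε11 : ε₁ ≤ 1) (hcV : 0 < cV)
    (hJ2 : (2 : ℝ) ^ 2 ^ J ≤ (Y : ℝ) ^ (2 * ε₁)) (hV : cV * (1 / 2 ^ J) ^ A ≤ V)
    (e3 : 3 ^ A / cV ≤ Real.log Y) :
    cV / (3 * Real.log Y) ^ A ≤ V ∧ 1 ≤ Real.log Y ^ (A + 1) * V := by
  have hYr : (3 : ℝ) ≤ Y := by exact_mod_cast hY
  have hY0 : (0 : ℝ) < Y := by linarith
  have hlY : 0 < Real.log Y := Real.log_pos (by linarith)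
  have hJlog : (2 : ℝ) ^ J ≤ 3 * Real.log Y := by
    have h1 := Real.log_le_log (by positivity) hJ2
    rw [Real.log_pow, Real.log_rpow hY0] at h1
    push_cast at h1
    have h2 : 0.69 < Real.log 2 := by linarith [Real.log_two_gt_d9]
    have h3 : (0 : ℝ) < 2 ^ J := by positivity
    have h4 : 2 * ε₁ * Real.log Y ≤ 2 * 1 * Real.log Y := by gcongr
    nlinarith
  have hV2 : cV / (3 * Real.log Y) ^ A ≤ V := by
    refine le_trans ?_ hV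
    rw [one_div, inv_pow, ← div_eq_mul_inv]
    apply div_le_div_of_nonneg_left hcV.le (by positivity)
    exact pow_le_pow_left₀ (by positivity) hJlog _
  refine ⟨hV2, ?_⟩
  have h1 : cV / (3 * Real.log Y) ^ A * Real.log Y ^ (A + 1) = cV * Real.log Y / 3 ^ A := by
    rw [mul_pow, pow_succ]
    field_simp
  have h2 : 1 ≤ cV * Real.log Y / 3 ^ A := by
    rw [le_div_iff₀ (by positivity), one_mul]
    rw [div_le_iff₀ hcV] at e3
    linarith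
  have h3 : 0 ≤ Real.log Y ^ (A + 1) := by positivity
  have h4 := mul_le_mul_of_nonneg_right hV2 h3
  rw [h1] at h4
  linarith

/-- the error terms are small -/
theorem num2 (Y J A C b₀ : ℕ) (ε₁ cV V L θ B : ℝ) (hY : 3 ≤ Y) (hcV : 0 < cV)
    (hJ2 : (2 : ℝ) ^ 2 ^ J ≤ (Y : ℝ) ^ (2 * ε₁)) (hV : cV / (3 * Real.log Y) ^ A ≤ V)
    (hεb : 2 * ε₁ * (C * b₀) ≤ (θ - B) / 2) (hL : (Y : ℝ) ^ θ ≤ L)
    (e2 : 2 ^ b₀ * 3 ^ A / cV * Real.log Y ^ A ≤ (Y : ℝ) ^ ((θ - B) / 2)) :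
    (Y : ℝ) ^ B * ((2 : ℝ) ^ 2 ^ J) ^ (C * b₀) ≤ (1 / 2 : ℝ) ^ b₀ * (L * V) := by
  have hYr : (3 : ℝ) ≤ Y := by exact_mod_cast hY
  have hY0 : (0 : ℝ) < Y := by linarith
  have hY1r : (1 : ℝ) ≤ Y := by linarith
  have hlY : 0 < Real.log Y := Real.log_pos (by linarith)
  have h1 : ((2 : ℝ) ^ 2 ^ J) ^ (C * b₀) ≤ (Y : ℝ) ^ ((θ - B) / 2) := by
    calc ((2 : ℝ) ^ 2 ^ J) ^ (C * b₀) ≤ ((Y : ℝ) ^ (2 * ε₁)) ^ (C * b₀) :=
          pow_le_pow_left₀ (by positivity) hJ2 _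
      _ = (Y : ℝ) ^ (2 * ε₁ * (C * b₀)) := by
          rw [← Real.rpow_natCast, ← Real.rpow_mul hY0.le]
          push_cast
          ring_nf
      _ ≤ _ := Real.rpow_le_rpow_of_exponent_le hY1r hεb
  have hV0 : 0 ≤ cV / (3 * Real.log Y) ^ A := by positivity
  have hL0 : 0 ≤ L := le_trans (by positivity) hL
  have h2 : (1 / 2 : ℝ) ^ b₀ * ((Y : ℝ) ^ θ * (cV / (3 * Real.log Y) ^ A)) ≤
      (1 / 2 : ℝ) ^ b₀ * (L * V) := by gcongr
  refine le_trans ?_ h2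
  have h3 : (Y : ℝ) ^ θ = (Y : ℝ) ^ B * (Y : ℝ) ^ ((θ - B) / 2) * (Y : ℝ) ^ ((θ - B) / 2) := by
    rw [← Real.rpow_add hY0, ← Real.rpow_add hY0]
    congr 1
    ring
  have h4 : 1 ≤ (1 / 2 : ℝ) ^ b₀ * ((Y : ℝ) ^ ((θ - B) / 2) * (cV / (3 * Real.log Y) ^ A)) := by
    rw [mul_pow 3 (Real.log (Y : ℝ)), one_div, inv_pow, ← div_eq_inv_mul, le_div_iff₀ (by positivity),
      one_mul, mul_div_assoc', le_div_iff₀ (by positivity)]
    rw [div_mul_eq_mul_div, div_le_iff₀ hcV] at e2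
    linarith
  calc (Y : ℝ) ^ B * ((2 : ℝ) ^ 2 ^ J) ^ (C * b₀) ≤
      (Y : ℝ) ^ B * (Y : ℝ) ^ ((θ - B) / 2) * 1 := by
        rw [mul_one]
        gcongr
    _ ≤ (Y : ℝ) ^ B * (Y : ℝ) ^ ((θ - B) / 2) *
        ((1 / 2 : ℝ) ^ b₀ * ((Y : ℝ) ^ ((θ - B) / 2) * (cV / (3 * Real.log Y) ^ A))) := by gcongr
    _ = _ := by rw [h3]; ring

open Classical in
/-- the number of the coloured primes -/
theorem few_c (G : ℤ → ℤ) (D : ℕ) (hGs : ∀ n : ℕ, G (n : ℤ) ≠ 0 ∧ (G (n : ℤ)).natAbs ≤ (n + 2) ^ D)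
    (W b N k c' Y K : ℕ) (ε₁ υ : ℝ) (hε : 0 < ε₁) (t : Fin (2 ^ k) → ℕ) (hN : ∀ i, t i ≤ N)
    (hW : 0 < W)
    (hc' : ((2 ^ k : ℕ) : ℝ) * (2 * D / ε₁) ≤ c') (e4 : W * (N + 1) + b + 3 ≤ Y) (hK : K ≤ Y)
    (ξ : Pg G Y ε₁ υ → Option (Fin (2 ^ k)))
    (hξ : ∀ s j, ξ s = some j ↔ ((s : ℕ) : ℤ) ∣ G ((W * (K + t j) + b : ℕ) : ℤ)) :
    (univ.filter (fun s => ξ s ≠ none)).card ≤ c' := by
  have hY2' : 2 ≤ Y := by omega
  have h3 : univ.filter (fun s => ξ s ≠ none) ⊆ univ.biUnion (fun i : Fin (2 ^ k) =>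
      univ.filter (fun s : Pg G Y ε₁ υ => ((s : ℕ) : ℤ) ∣ G ((W * (K + t i) + b : ℕ) : ℤ))) := by
    intro s hs
    rw [mem_filter] at hs
    rw [mem_biUnion]
    rcases h4 : ξ s with _ | i
    · exact absurd h4 hs.2
    · exact ⟨i, mem_univ i, mem_filter.2 ⟨mem_univ s, (hξ s i).1 h4⟩⟩
  have h4 := (card_le_card h3).trans card_biUnion_le
  have h5 : ∀ i : Fin (2 ^ k), ((univ.filter (fun s : Pg G Y ε₁ υ =>
      ((s : ℕ) : ℤ) ∣ G ((W * (K + t i) + b : ℕ) : ℤ))).card : ℝ) ≤ 2 * D / ε₁ := by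
    intro i
    apply few_t G Y ε₁ υ hY2' hε _ (hGs _).1
    have h6 := (hGs (W * (K + t i) + b)).2
    have h7 : W * (K + t i) + b + 2 ≤ Y ^ 2 := by
      have h8 : W * (K + t i) ≤ W * (Y + N) := Nat.mul_le_mul_left _ (by
        have := hN i
        omega)
      have h11 : (W * (N + 1) + b + 3) * Y ≤ Y * Y := Nat.mul_le_mul_right _ e4
      have h12 : (W * (N + 1) + b + 3) * Y = W * N * Y + W * Y + b * Y + 3 * Y := by ring
      have h13 : W * (Y + N) = W * Y + W * N := by ring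
      have h14 : W * N ≤ W * N * Y := Nat.le_mul_of_pos_right _ (by omega)
      have h15 : b ≤ b * Y := Nat.le_mul_of_pos_right _ (by omega)
      rw [sq]
      omega
    have h8 : ((G ((W * (K + t i) + b : ℕ) : ℤ)).natAbs : ℝ) ≤ ((Y : ℝ) ^ 2) ^ D := by
      exact_mod_cast h6.trans (Nat.pow_le_pow_left h7 D)
    refine h8.trans (le_of_eq ?_)
    rw [← pow_mul, ← Real.rpow_natCast]
    push_cast
    rfl
  have h6 : (((univ.filter (fun s => ξ s ≠ none)).card : ℕ) : ℝ) ≤ c' := by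
    refine le_trans ?_ hc'
    calc (((univ.filter (fun s => ξ s ≠ none)).card : ℕ) : ℝ) ≤
        ∑ i : Fin (2 ^ k), ((univ.filter (fun s : Pg G Y ε₁ υ =>
          ((s : ℕ) : ℤ) ∣ G ((W * (K + t i) + b : ℕ) : ℤ))).card : ℝ) := by exact_mod_cast h4
      _ ≤ ∑ _i : Fin (2 ^ k), 2 * D / ε₁ := sum_le_sum fun i _ => h5 i
      _ = _ := by rw [sum_const, card_univ, Fintype.card_fin, nsmul_eq_mul]
  exact_mod_cast h6

open Classical in
/-- the contribution of one argument -/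
theorem pt_up (F G : ℤ → ℤ) (g : ℕ) (hF : Sys g F)
    (hGF : ∀ p : ℕ, p.Prime → ∀ n : ℤ, (p : ℤ) ∣ G n → (p : ℤ) ∣ F n)
    (Y : ℕ) (ε₁ ζ υ aw bw B Λ : ℝ) (W b z k m M L : ℕ) (t : Fin (2 ^ k) → ℕ) (hY : 2 ≤ Y)
    (hb : 0 ≤ bw) (hab : bw * υ ≤ aw) (hbW : ∀ p : ℕ, p.Prime → p ∣ W → ¬ (p : ℤ) ∣ F b)
    (hz2 : (Y : ℝ) ^ ε₁ ≤ z + 1) (K : ℕ) (hK : K ∈ Ioc M (M + L)) (hΛ0 : 0 ≤ Λ) (hΛ : Λ ≤ B) :
    nuI F W b z t K * (Λ * (∑ i, WB Y ε₁ ζ υ aw bw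
      (G ((W * (K + t i) + b : ℕ) : ℤ)).natAbs - m)) ≤
      if K ∈ gd F G Y ε₁ ζ υ aw bw W b t m M L then B * 2 ^ k else 0 := by
  have hB0 : 0 ≤ B := hΛ0.trans hΛ
  have hB2 : 0 ≤ B * 2 ^ k := by positivity
  by_cases hν : ∀ p ∈ PS W z, ∀ i, ¬ (p : ℤ) ∣ F ((W * (K + t i) + b : ℕ) : ℤ)
  swap
  · have : nuI F W b z t K = 0 := by unfold nuI; rw [if_neg hν]
    rw [this, zero_mul]
    split_ifs
    · exact hB2
    · exact le_rfl
  have hν1 : nuI F W b z t K = 1 := by unfold nuI; rw [if_pos hν]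
  rw [hν1, one_mul]
  have hw1 : ∀ i : Fin (2 ^ k), WB Y ε₁ ζ υ aw bw
      (G ((W * (K + t i) + b : ℕ) : ℤ)).natAbs ≤ 1 := fun i => WB_le_one Y ε₁ ζ υ aw bw hb hab _
  by_cases hs : ∑ i : Fin (2 ^ k), WB Y ε₁ ζ υ aw bw
      (G ((W * (K + t i) + b : ℕ) : ℤ)).natAbs - m ≤ 0
  · have h2 := mul_nonpos_of_nonneg_of_nonpos hΛ0 hs
    refine h2.trans ?_
    split_ifs
    · exact hB2
    · exact le_rfl
  push Not at hs
  have hsmall : ∀ p : ℕ, p.Prime → (p : ℝ) < (Y : ℝ) ^ ε₁ → ∀ i,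
      ¬ (p : ℤ) ∣ F ((W * (K + t i) + b : ℕ) : ℤ) := by
    intro p hp hpY i hdvd
    by_cases hpW : p ∣ W
    · apply hbW p hp hpW
      refine (per_mod hF.per hp (W * (K + t i) + b) b ?_).1 hdvd
      have : W * (K + t i) ≡ 0 [MOD p] := (Nat.modEq_zero_iff_dvd).2 (hpW.mul_right _)
      simpa using this.add_right b
    · have hpz : p ≤ z := by
        have : (p : ℝ) < z + 1 := hpY.trans_le hz2
        have : p < z + 1 := by exact_mod_cast this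
        omega
      refine hν p ?_ i hdvd
      unfold PS
      rw [mem_filter, mem_Icc]
      exact ⟨⟨hp.one_lt.le, hpz⟩, hp, hpW⟩
  have hmem : K ∈ gd F G Y ε₁ ζ υ aw bw W b t m M L := by
    unfold gd
    rw [mem_filter]
    refine ⟨hK, hsmall, ?_⟩
    have h3 : ∑ i : Fin (2 ^ k), WB Y ε₁ ζ υ aw bw
        (G ((W * (K + t i) + b : ℕ) : ℤ)).natAbs ≤ ((univ.filter (fun i =>
        0 < WW Y ζ υ aw bw (G ((W * (K + t i) + b : ℕ) : ℤ)).natAbs)).card : ℝ) := by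
      have h4 : (((univ.filter (fun i =>
        0 < WW Y ζ υ aw bw (G ((W * (K + t i) + b : ℕ) : ℤ)).natAbs)).card : ℕ) : ℝ) =
          ∑ i, if 0 < WW Y ζ υ aw bw (G ((W * (K + t i) + b : ℕ) : ℤ)).natAbs then (1 : ℝ)
            else 0 := by
        rw [← sum_filter]
        simp
      rw [h4]
      apply sum_le_sum
      intro i _
      split_ifs with h5
      · exact hw1 i
      · by_contra h6
        push Not at h6
        exact h5 (WB_pos Y ε₁ ζ υ aw bw _ hY (fun p hp hpY hpd =>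
          hsmall p hp hpY i (hGF p hp _ (Int.natCast_dvd.2 hpd))) h6)
    have h5 : (m : ℝ) < ((univ.filter (fun i =>
        0 < WW Y ζ υ aw bw (G ((W * (K + t i) + b : ℕ) : ℤ)).natAbs)).card : ℝ) := by linarith
    exact_mod_cast h5
  rw [if_pos hmem]
  have hs2 : ∑ i : Fin (2 ^ k), WB Y ε₁ ζ υ aw bw
      (G ((W * (K + t i) + b : ℕ) : ℤ)).natAbs - m ≤ 2 ^ k := by
    have h3 := sum_le_sum (s := (univ : Finset (Fin (2 ^ k)))) fun i _ => hw1 i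
    rw [sum_const, card_univ, Fintype.card_fin, nsmul_eq_mul, mul_one] at h3
    push_cast at h3
    have : (0 : ℝ) ≤ m := Nat.cast_nonneg m
    push_cast
    linarith
  exact mul_le_mul hΛ hs2 hs.le hB0

end Pool.Agent.R498.MT
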