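import Pool.Agent.R498.MT.Fin2
import Pool.Agent.Y882.MG.Quad2

set_option autoImplicit false
set_option linter.unusedSectionVars false

/-! Clusters of almost prime values of `n ^ 2 + a`. -/

namespace Pool.Agent.R498.MT

open Finset Filter Polynomial
open Pool.Agent.Y677.RSZ (rt Sys rhoT per_mod ev_log V eng_all)
open Pool.Agent.W23.DC
open Pool.Agent.Y882
open Pool.Agent.Y882.PX
open Pool.Agent.Y882.KW
open Pool.Agent.Y882.SI

theorem rt_ro (F : ℤ[X]) (p : ℕ) : rt (fun n => F.eval n) p = ro F 0 p := by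
  rw [ro_eq]
  unfold rt
  simp

theorem QF_ne (a : ℤ) : QF a ≠ 0 := by
  intro h
  have h0 := congrArg (fun Q : ℤ[X] => Q.eval 0) h
  have h1 := congrArg (fun Q : ℤ[X] => Q.eval 1) h
  simp only [QF_eval, eval_zero] at h0 h1
  omega

theorem QF_adm (a : ℤ) (p : ℕ) (hp : p.Prime) : ∃ n : ℤ, ¬ (p : ℤ) ∣ (QF a).eval n := by
  by_contra hcon
  push Not at hcon
  have h0 := hcon 0
  have h1 := hcon 1
  rw [QF_eval] at h0 h1
  have h2 := dvd_sub h1 h0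
  norm_num at h2
  exact hp.one_lt.ne' (Nat.dvd_one.1 (by exact_mod_cast h2))

theorem quad_all (a : ℤ) (ha : ¬ IsSquare (-a)) (P : ℤ[X]) (hP : P ≠ 0)
    (hPd : ∀ p : ℕ, p.Prime → ∃ n : ℤ, ¬ (p : ℤ) ∣ P.eval n)
    (hGP : ∀ p : ℕ, p.Prime → ∀ n : ℤ, (p : ℤ) ∣ n ^ 2 + a → (p : ℤ) ∣ P.eval n) (m : ℕ) :
    ∃ K₀ : ℕ, ∀ HH : Finset ℕ, K₀ ≤ HH.card → ∃ δ : ℝ, 0 < δ ∧ ∀ l : ℕ, 2 ≤ l →
      ∃ B : ℕ, ∀ᶠ N : ℕ in atTop,
      ∃ H ⊆ HH, H.card = m ∧ ∃ n d : ℕ, N < n ∧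
        ((n + (l - 1) * d : ℕ) : ℝ) ≤ N + (N : ℝ) ^ (3 / 4 : ℝ) ∧ 1 ≤ d ∧
        (d : ℝ) ≤ Real.log N ^ B ∧ ∀ j < l, ∀ h ∈ H,
          (((n + j * d + h : ℕ) : ℤ) ^ 2 + a).natAbs.primeFactorsList.length ≤ 3 ∧
          (∀ p : ℕ, p.Prime → (p : ℤ) ∣ ((n + j * d + h : ℕ) : ℤ) ^ 2 + a →
            (N : ℝ) ^ (73 / 400 : ℝ) ≤ p) ∧
          ∀ p : ℕ, p.Prime → (p : ℤ) ∣ P.eval ((n + j * d + h : ℕ) : ℤ) → (N : ℝ) ^ δ ≤ p := by
  classical
  obtain ⟨g₀, hg₀⟩ := Pool.Agent.Y677.RSZ.poly_all P hP hPd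
  obtain ⟨g₁, hg₁⟩ := Pool.Agent.Y677.RSZ.poly_all (QF a) (QF_ne a) (QF_adm a)
  have ha0 : a ≠ 0 := by
    rintro rfl
    exact ha ⟨0, by simp⟩
  have h := fin2 P hP (g₀ + g₁ + 1) (by omega) (Pool.Agent.Y677.RSZ.Sys.mono hg₀ (by omega))
    (fun n => (QF a).eval n) (Pool.Agent.Y677.RSZ.Sys.mono hg₁ (by omega))
    (fun p hp n hd => hGP p hp n (by rw [← QF_eval]; exact hd))
    (a.natAbs + 1) (fun n => by
      constructor
      · show (QF a).eval (n : ℤ) ≠ 0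
        rw [QF_eval]
        intro h0
        exact ha ⟨(n : ℤ), by linarith⟩
      · show ((QF a).eval (n : ℤ)).natAbs ≤ _
        rw [QF_eval]
        calc ((n : ℤ) ^ 2 + a).natAbs ≤ ((n : ℤ) ^ 2).natAbs + a.natAbs := Int.natAbs_add_le _ _
          _ = n ^ 2 + a.natAbs := by rw [Int.natAbs_pow, Int.natAbs_natCast]
          _ ≤ (a.natAbs + 1) * (n + 1) ^ 2 := by nlinarith [Nat.zero_le a.natAbs, Nat.zero_le n])
    (fun ε₁ υ η hε hυ hη => by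
      obtain ⟨Y0, hY0⟩ := mer_quad a ha ε₁ υ η hε hυ hη
      refine ⟨Y0, fun Y hY => ?_⟩
      have := hY0 Y hY
      simp_rw [rt_ro]
      exact this)
    2 (a.natAbs + 3)
    (fun q hq hqa N H => by
      have := Pool.Agent.Y882.MG.sq_countS a ha0 q hq (by omega) (by omega) N H
      exact this) m
  obtain ⟨K₀, hK₀⟩ := h
  refine ⟨K₀, fun HH hHH => ?_⟩
  obtain ⟨δ, hδ, hl⟩ := hK₀ HH hHH
  refine ⟨δ, hδ, fun l hl2 => ?_⟩
  obtain ⟨B, hN⟩ := hl l hl2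
  refine ⟨B, ?_⟩
  filter_upwards [hN] with N hN
  obtain ⟨H, hH, hHc, n, d, h1, h2, h3, h4, h5⟩ := hN
  refine ⟨H, hH, hHc, n, d, h1, h2, h3, h4, fun j hj h hh => ?_⟩
  have h6 := h5 j hj h hh
  simp only [QF_eval] at h6
  exact h6

/-- a number without small prime factors has few prime factors -/
theorem omega_le (N M : ℕ) (δ E : ℝ) (hN : 2 ≤ N) (hδ : 0 < δ) (hM : M ≠ 0)
    (h : ∀ p : ℕ, p.Prime → p ∣ M → (N : ℝ) ^ δ ≤ p) (hME : (M : ℝ) ≤ (N : ℝ) ^ E) :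
    (M.primeFactorsList.length : ℝ) ≤ E / δ := by
  have hNr : (2 : ℝ) ≤ N := by exact_mod_cast hN
  have hN0 : (0 : ℝ) < N := by linarith
  have hN1 : (1 : ℝ) < N := by linarith
  have key : ∀ Ls : List ℕ, (∀ p ∈ Ls, (N : ℝ) ^ δ ≤ p) →
      ((N : ℝ) ^ δ) ^ Ls.length ≤ ((Ls.prod : ℕ) : ℝ) := by
    intro Ls
    induction Ls with
    | nil => intro _; simp
    | cons a Ls ih =>
      intro h1
      have h2 := ih (fun p hp => h1 p (List.mem_cons_of_mem _ hp))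
      have h3 := h1 a List.mem_cons_self
      rw [List.length_cons, List.prod_cons, pow_succ, mul_comm]
      push_cast
      push_cast at h2
      exact mul_le_mul h3 h2 (by positivity) (Nat.cast_nonneg _)
  have h1 := key M.primeFactorsList (fun p hp =>
    h p (Nat.prime_of_mem_primeFactorsList hp) (Nat.dvd_of_mem_primeFactorsList hp))
  rw [Nat.prod_primeFactorsList hM] at h1
  have h2 := h1.trans hME
  rw [← Real.rpow_natCast, ← Real.rpow_mul hN0.le, Real.rpow_le_rpow_left_iff hN1] at h2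
  rw [le_div_iff₀ hδ]
  linarith

end Pool.Agent.R498.MT
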