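import Pool.Agent.R498.MT.Slot

set_option autoImplicit false
set_option linter.unusedSectionVars false

/-! Assembly of the two sums. -/

namespace Pool.Agent.R498.MT

open Finset

section asm
variable {S : Type} [Fintype S] [DecidableEq S]

/-- **The weighted count of the arguments with many good slots is large.** -/
theorem asm (k : ℕ) (C₁ R c₀ τ : ℝ) (hC : 0 ≤ C₁) (hR : 0 < R) (hc₀ : 0 < c₀) (m : ℕ)
    (hτ : τ ≤ 1)
    (hk : 3 * ((m : ℝ) + 1) * 1474560 ≤ c₀ * R * k) (ε₁ : ℝ) (hε : 0 < ε₁)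
    (hε1 : ε₁ ≤ e0 k C₁ R) (w : ℝ) (q μ l : S → ℝ) (hd : Dat q μ l ε₁ R w (om k C₁ ε₁))
    (cL : Finset S → ℝ) (hcL : ∀ T, |cL T| ≤ C₁) (hcT : ∀ T, cL T ≠ 0 → lz l T ≤ τ)
    {N : Finset ℕ} {ν : ℕ → ℝ} {ξ : ℕ → S → Option (Fin (2 ^ k))} {X V E : ℝ} (hX : 0 ≤ X)
    (hμV : V ≤ ∑ T, cL T * ∏ t ∈ T, 1 / q t) (hγμ : ∀ t, 1 / q t ≤ μ t) (hcV : c₀ * ε₁ ≤ V)
    (hE : 0 ≤ E) (hE1 : E ≤ ε₁ ^ (16 * (2 ^ k) ^ 2 + 1))
    (hC1 : Cnt N ν ξ (fun t _ => 1 / q t) X E (fun T => lt l T ≤ 2 * R + τ)) (hτ0 : 0 ≤ τ)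
    (hν : ∀ n ∈ N, 0 ≤ ν n) (wb : ℕ → Fin (2 ^ k) → ℝ)
    (hwb : ∀ n ∈ N, ν n ≠ 0 → ∀ i, ∑ T, cL T * (if ∀ t ∈ T, ξ n t = some i then 1 else 0) ≤ wb n i)
    (hw0 : ∀ n ∈ N, ν n ≠ 0 → ∀ i, wb n i ≠ 0 → ∀ t, ξ n t = some i → R < l t) :
    2 * (X * If μ l R k) ≤
      ∑ n ∈ N, ν n * (Lam none q μ (yf l R k) (ξ n) ^ 2 * (∑ i, wb n i - m)) := by
  have hl0 : ∀ t, 0 ≤ l t := fun t => hε.le.trans (hd.l1 t)
  have h1 := S1_fin k C₁ R hC hR ε₁ hε hε1 w q μ l hd hX hE hE1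
    (fun T hT => hC1 T (by
      have h1 : lt l T ≤ 2 * R := hT
      show lt l T ≤ 2 * R + τ
      linarith))
  have h2 : ∀ i : Fin (2 ^ k), 2 * ((m : ℝ) + 1) / 2 ^ k * (X * If μ l R k) ≤
      ∑ n ∈ N, ν n * (Lam none q μ (yf l R k) (ξ n) ^ 2 * wb n i) := by
    intro i
    have h3 := S2_fin k C₁ R c₀ τ hC hR hc₀ m hτ hk ε₁ hε hε1 w q μ l hd i (fun t => 1 / q t)
      (fun t => by have := hd.q2 t; positivity) hγμ cL hcL hcT (N := N) (ν := ν) (ξ := ξ) (X := X)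
      (X₀ := X) (V := V) (E := E) hX le_rfl hμV (by nlinarith) hE hE1
      (fun T hT => by
        have e : ∀ t, rr (rd (some i) (q t) (1 / q t)) (T t) =
            rr (fun _ : Fin (2 ^ k) => 1 / q t) (T t) := by
          intro t
          rcases T t with _ | j
          · rfl
          · simp [rr, rd]
        have := hC1 T hT
        simp_rw [e]
        exact this)
    refine h3.trans (sum_le_sum fun n hn => ?_)
    by_cases hn0 : ν n = 0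
    · rw [hn0]; simp
    apply mul_le_mul_of_nonneg_left _ (hν n hn)
    by_cases hw : wb n i = 0
    · rw [hw, mul_zero]
      have h4 := hwb n hn hn0 i
      rw [hw] at h4
      exact mul_nonpos_of_nonneg_of_nonpos (sq_nonneg _) h4
    · rw [Lam_slot q μ l R (yf l R k) (fun σ hσ => (yf_facts l hl0 R hR k σ).2.2 hσ) hl0 i (ξ n)
        (hw0 n hn hn0 i hw)]
      exact mul_le_mul_of_nonneg_left (hwb n hn hn0 i) (sq_nonneg _)
  have h3 := sum_le_sum (s := (univ : Finset (Fin (2 ^ k)))) fun i _ => h2 i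
  rw [sum_const, card_univ, Fintype.card_fin, nsmul_eq_mul] at h3
  have h4 : ∑ i : Fin (2 ^ k), ∑ n ∈ N, ν n * (Lam none q μ (yf l R k) (ξ n) ^ 2 * wb n i) =
      ∑ n ∈ N, ν n * (Lam none q μ (yf l R k) (ξ n) ^ 2 * ∑ i, wb n i) := by
    rw [sum_comm]
    refine sum_congr rfl fun n _ => ?_
    rw [mul_sum, mul_sum]
  rw [h4] at h3
  have h5 : ((2 ^ k : ℕ) : ℝ) * (2 * ((m : ℝ) + 1) / 2 ^ k * (X * If μ l R k)) =
      2 * ((m : ℝ) + 1) * (X * If μ l R k) := by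
    push_cast
    have : (2 : ℝ) ^ k ≠ 0 := by positivity
    field_simp
  rw [h5] at h3
  have h6 : ∑ n ∈ N, ν n * (Lam none q μ (yf l R k) (ξ n) ^ 2 * (∑ i, wb n i - m)) =
      ∑ n ∈ N, ν n * (Lam none q μ (yf l R k) (ξ n) ^ 2 * ∑ i, wb n i) -
        m * ∑ n ∈ N, ν n * Lam none q μ (yf l R k) (ξ n) ^ 2 := by
    rw [mul_sum, ← sum_sub_distrib]
    refine sum_congr rfl fun n _ => ?_
    ring
  rw [h6]
  have h7 := mul_le_mul_of_nonneg_left h1 (Nat.cast_nonneg (α := ℝ) m)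
  linarith

/-- the weight of the arguments with few prime factors -/
theorem Lam_fin (k : ℕ) (C₁ R : ℝ) (hR : 0 < R) (ε₁ : ℝ) (hε : 0 < ε₁) (w : ℝ) (hεw : ε₁ ≤ w)
    (q μ l : S → ℝ) (ω : ℝ) (hd : Dat q μ l ε₁ R w ω) (x : S → Option (Fin (2 ^ k))) (c : ℕ)
    (hx : (univ.filter (fun t => x t ≠ none)).card ≤ c) :
    Lam none q μ (yf l R k) x ^ 2 ≤ (Ab k ε₁ * 2 ^ c) ^ 2 := by
  have hl0 : ∀ t, 0 ≤ l t := fun t => hε.le.trans (hd.l1 t)
  have hmq : ∀ t, μ t * (q t - 1) ≤ 1 := by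
    intro t
    rcases hd.mq t with h | h
    · rw [h]; norm_num
    · exact h.le
  have h1 := Lam_bd (J := Fin (2 ^ k)) none q μ hd.q2 hd.m0 hmq (yf l R k) (fun σ => by
      have := yf_facts l hl0 R hR k σ
      rw [abs_of_nonneg this.1]
      exact this.2.1) x
  have h2 : ∏ t, (1 + (Fintype.card (Fin (2 ^ k)) : ℝ) * μ t) ≤ Ab k ε₁ := by
    refine le_trans ?_ (AA_Ab hd hε hεw k)
    unfold AA
    apply prod_le_prod
    · intro t _
      have := hd.m0 t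
      positivity
    · intro t _
      have h3 := hd.m0 t
      have h4 : (1 : ℝ) ≤ (Fintype.card (Fin (2 ^ k)) : ℝ) := by
        rw [Fintype.card_fin]
        exact_mod_cast Nat.one_le_two_pow
      have h5 : (Fintype.card (Fin (2 ^ k)) : ℝ) * μ t ≤
          8 * (Fintype.card (Fin (2 ^ k)) : ℝ) ^ 2 * μ t := by
        apply mul_le_mul_of_nonneg_right _ h3
        nlinarith
      linarith
  have h3 : (2 : ℝ) ^ (univ.filter (fun t => x t ≠ none)).card ≤ 2 ^ c :=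
    pow_le_pow_right₀ (by norm_num) hx
  have h4 : |Lam none q μ (yf l R k) x| ≤ Ab k ε₁ * 2 ^ c := by
    refine h1.trans ?_
    have h5 : 0 ≤ ∏ t, (1 + (Fintype.card (Fin (2 ^ k)) : ℝ) * μ t) :=
      prod_nonneg fun t _ => by have := hd.m0 t; positivity
    exact mul_le_mul h2 h3 (by positivity) (h5.trans h2)
  rw [← sq_abs]
  exact pow_le_pow_left₀ (abs_nonneg _) h4 2

end asm

end Pool.Agent.R498.MT
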