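import Pool.Agent.R498.MT.Core0

set_option autoImplicit false
set_option linter.unusedSectionVars false

/-! The theorem of Maynard and Tao for almost prime values: the core. -/

namespace Pool.Agent.R498.MT

open Finset Filter
open Pool.Agent.Y677.RSZ (rt Sys rhoT per_mod ev_log)
open Pool.Agent.TH423.SH (PS)
open Pool.Agent.W23.DC
open Pool.Agent.Y882
open Pool.Agent.Y882.PX
open Pool.Agent.Y882.KW

open Classical in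
/-- the two sums at one place -/
theorem core1 (F G : ℤ → ℤ) (g : ℕ) (hF : Sys g F) (hG : Sys g G)
    (hGF : ∀ p : ℕ, p.Prime → ∀ n : ℤ, (p : ℤ) ∣ G n → (p : ℤ) ∣ F n)
    (D : ℕ) (hGs : ∀ n : ℕ, G (n : ℤ) ≠ 0 ∧ (G (n : ℤ)).natAbs ≤ (n + 2) ^ D)
    (m k W c' N b₀ Y b M L z : ℕ) (τ ζ υ aw bw R f0 ε₁ : ℝ) (hτ0 : 0 ≤ τ) (hτ : τ ≤ 1)
    (hυ : ε₁ ≤ υ) (ha : 0 ≤ aw) (hb : 0 ≤ bw) (hab : bw * υ ≤ aw)
    (hR : 0 < R) (hRζ : R < ζ) (hf0 : 0 < f0) (hW : 0 < W)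
    (hk : 3 * ((m : ℝ) + 1) * 1474560 ≤ f0 * R * k) (hε : 0 < ε₁)
    (hεe : ε₁ ≤ e0 k (1 + aw) R) (hbE : 2 * (1 / 2 : ℝ) ^ b₀ ≤ ε₁ ^ (16 * (2 ^ k) ^ 2 + 1))
    (hc' : ((2 ^ k : ℕ) : ℝ) * (2 * D / ε₁) ≤ c') (t : Fin (2 ^ k) → ℕ) (hN : ∀ i, t i ≤ N)
    (e4 : W * (N + 1) + b + 3 ≤ Y) (hMY : M + L ≤ Y)
    (hbW : ∀ p : ℕ, p.Prime → p ∣ W → ¬ (p : ℤ) ∣ F b) (hz2 : (Y : ℝ) ^ ε₁ ≤ z + 1)
    (cL0 : Finset ℕ → ℝ) (hc1 : ∀ T, |cL0 T| ≤ 1 + aw)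
    (hc2 : ∀ T ⊆ pr Y ε₁ υ, cL0 T ≠ 0 → ((∏ p ∈ T, p : ℕ) : ℝ) ≤ (Y : ℝ) ^ τ)
    (hc3 : ∀ N : ℕ, VV (pr Y ε₁ υ) cL0 (fun p => if p ∣ N then 1 else 0) ≤ WB Y ε₁ ζ υ aw bw N)
    (hc4 : ε₁ * f0 ≤ VV (pr Y ε₁ υ) cL0 (fun p => (rt G p : ℝ) / p))
    (hd : Dat (qs G Y ε₁ υ) (mus G Y ε₁ υ) (ls G Y ε₁ υ) ε₁ R υ (om k (1 + aw) ε₁))
    (hU : ∀ (K : ℕ) (s : Pg G Y ε₁ υ) i j, ((s : ℕ) : ℤ) ∣ G ((W * (K + t i) + b : ℕ) : ℤ) →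
      ((s : ℕ) : ℤ) ∣ G ((W * (K + t j) + b : ℕ) : ℤ) → i = j)
    (hV0 : 0 < Vp F W b z t)
    (hcnt : Cnt (Ioc M (M + L)) (nuI F W b z t) (xi G W b t (fun s : Pg G Y ε₁ υ => (s : ℕ)))
      (fun s _ => 1 / qs G Y ε₁ υ s) (L * Vp F W b z t) (2 * (1 / 2 : ℝ) ^ b₀)
      (fun T => lt (ls G Y ε₁ υ) T ≤ 2 * R + τ)) :
    2 / (2 ^ k * (Ab k ε₁ * 2 ^ c') ^ 2) * (L * Vp F W b z t) ≤
      ((gd F G Y ε₁ ζ υ aw bw W b t m M L).card : ℝ) := by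
  have hY2' : 2 ≤ Y := by omega
  have hξ : ∀ K (s : Pg G Y ε₁ υ) j,
      xi G W b t (fun s : Pg G Y ε₁ υ => (s : ℕ)) K s = some j ↔
        ((s : ℕ) : ℤ) ∣ G ((W * (K + t j) + b : ℕ) : ℤ) :=
    fun K s j => xi_iff G W b t _ K s (hU K s) j
  have hX : 0 ≤ (L : ℝ) * Vp F W b z t := by positivity
  have hasm := asm k (1 + aw) R f0 τ (by linarith) hR hf0 m hτ hk ε₁ hε hεe υ
    (qs G Y ε₁ υ) (mus G Y ε₁ υ) (ls G Y ε₁ υ) hd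
    (fun T => cL0 (T.map (Function.Embedding.subtype _))) (fun T => hc1 _)
    (fun T hT => lz_le G Y ε₁ υ hY2' T τ (hc2 _ (by
      intro p hp
      rw [Finset.mem_map] at hp
      obtain ⟨s, _, rfl⟩ := hp
      exact (mem_filter.1 s.2).1) hT))
    (N := Ioc M (M + L)) (ν := nuI F W b z t)
    (ξ := xi G W b t (fun s : Pg G Y ε₁ υ => (s : ℕ))) (X := L * Vp F W b z t) (V := ε₁ * f0)
    (E := 2 * (1 / 2 : ℝ) ^ b₀) hX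
    (by
      refine hc4.trans (le_of_eq ?_)
      rw [VV_restrict (pr Y ε₁ υ) (Pg G Y ε₁ υ) (filter_subset _ _) cL0
        (fun p => (rt G p : ℝ) / p) (fun p hp hp' => by
          have h0 : rt G p = 0 := by
            by_contra h1
            exact hp' (mem_filter.2 ⟨hp, h1⟩)
          rw [h0]
          simp)]
      refine sum_congr rfl fun T _ => ?_
      congr 1
      refine prod_congr rfl fun s _ => ?_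
      unfold qs
      rw [one_div, inv_div])
    (fun s => by
      have h1 := hd.q2 s
      unfold mus
      apply one_div_le_one_div_of_le (by linarith)
      linarith)
    (by rw [mul_comm]) (by positivity) hbE hcnt hτ0
    (fun K _ => by unfold nuI; split_ifs <;> norm_num)
    (fun K i => WB Y ε₁ ζ υ aw bw (G ((W * (K + t i) + b : ℕ) : ℤ)).natAbs)
    (fun K _ _ i => by
      have h1 := slot_w G hG.per Y ε₁ υ hY2' cL0 (W * (K + t i) + b) i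
        (xi G W b t (fun s : Pg G Y ε₁ υ => (s : ℕ)) K) (fun s => hξ K s i)
      have h2 := hc3 (G ((W * (K + t i) + b : ℕ) : ℤ)).natAbs
      refine le_trans (le_of_eq ?_) h2
      refine Eq.trans ?_ h1
      refine sum_congr rfl fun T _ => ?_
      congr)
    (fun K _ _ i hw s hs => by
      have h1 := (hξ K s i).1 hs
      have h2 := WB_ne Y ε₁ ζ υ aw bw _ hw (s : ℕ) ((mem_filter.1 s.2).1) (Int.natCast_dvd.1 h1)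
      show R < tt Y (s : ℕ)
      linarith)
  have hIf : 1 ≤ If (mus G Y ε₁ υ) (ls G Y ε₁ υ) R k :=
    one_le_pow₀ (I2_one hd hε hR k)
  have hB0 : 0 < (Ab k ε₁ * 2 ^ c') ^ 2 := by
    have := Ab_one k ε₁ hε (hεe.trans (e0_le k (1 + aw) R).2)
    positivity
  have hup := sum_le_sum (s := Ioc M (M + L)) fun K hK =>
    pt_up F G g hF hGF Y ε₁ ζ υ aw bw ((Ab k ε₁ * 2 ^ c') ^ 2)
      (Lam none (qs G Y ε₁ υ) (mus G Y ε₁ υ) (yf (ls G Y ε₁ υ) R k)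
        (xi G W b t (fun s : Pg G Y ε₁ υ => (s : ℕ)) K) ^ 2) W b z k m M L t hY2' hb hab hbW hz2 K
        hK (sq_nonneg _)
      (Lam_fin k (1 + aw) R hR ε₁ hε υ hυ (qs G Y ε₁ υ) (mus G Y ε₁ υ)
        (ls G Y ε₁ υ) _ hd _ c' (few_c G D hGs W b N k c' Y K ε₁ υ hε t hN hW hc' e4 (by
          rw [mem_Ioc] at hK
          omega) _ (fun s j => hξ K s j)))
  have hsum : ∑ K ∈ Ioc M (M + L), (if K ∈ gd F G Y ε₁ ζ υ aw bw W b t m M L then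
      (Ab k ε₁ * 2 ^ c') ^ 2 * 2 ^ k else 0) =
      (gd F G Y ε₁ ζ υ aw bw W b t m M L).card * ((Ab k ε₁ * 2 ^ c') ^ 2 * 2 ^ k) := by
    rw [← sum_filter, sum_const, nsmul_eq_mul]
    congr 2
    congr 1
    ext K
    rw [mem_filter]
    constructor
    · exact fun h => h.2
    · intro h
      refine ⟨?_, h⟩
      unfold gd at h
      exact (mem_filter.1 h).1
  rw [hsum] at hup
  have h1 := hasm.trans hup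
  have h2 : 2 * (L * Vp F W b z t) ≤
      2 * (L * Vp F W b z t * If (mus G Y ε₁ υ) (ls G Y ε₁ υ) R k) := by nlinarith
  rw [div_mul_eq_mul_div, div_le_iff₀ (by positivity)]
  calc 2 * (L * Vp F W b z t) ≤ (gd F G Y ε₁ ζ υ aw bw W b t m M L).card *
        ((Ab k ε₁ * 2 ^ c') ^ 2 * 2 ^ k) := h2.trans h1
    _ = _ := by ring

/-- **The core.** -/
theorem core (F G : ℤ → ℤ) (g : ℕ) (hF : Sys g F) (hG : Sys g G)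
    (hGF : ∀ p : ℕ, p.Prime → ∀ n : ℤ, (p : ℤ) ∣ G n → (p : ℤ) ∣ F n)
    (D : ℕ) (hGs : ∀ n : ℕ, G (n : ℤ) ≠ 0 ∧ (G (n : ℤ)).natAbs ≤ (n + 2) ^ D)
    (hMer : ∀ ε₁ υ η : ℝ, 0 < ε₁ → υ ≤ 1 → 0 < η → ∃ Y0 : ℕ, ∀ Y : ℕ, Y0 ≤ Y →
      Mer (pr Y ε₁ υ) (tt Y) (fun p => (rt G p : ℝ) / p) ε₁ υ η)
    (m : ℕ) (τ ζ υ aw bw θ R : ℝ) (hζ : 0 < ζ) (h2 : 2 * ζ < τ) (h4 : τ ≤ 4 * ζ) (hτ : τ ≤ 1)
    (hζυ : ζ ≤ υ) (hυτ : υ < τ) (ha : 0 ≤ aw) (hb : 0 ≤ bw) (hab : bw * υ ≤ aw)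
    (hJ0 : ∫ x in ζ..υ, (aw - bw * x) / (τ - x) / x < Real.log (τ / ζ - 1) / τ)
    (hR : 0 < R) (hRζ : R < ζ) (hRτ : 2 * R + τ < θ) :
    ∃ k W : ℕ, 0 < W ∧ Squarefree W ∧ (∀ p : ℕ, p.Prime → p ≤ g * 2 ^ k + 1 → p ∣ W) ∧
      g ≤ W ∧ ∃ ε₁ c : ℝ, 0 < ε₁ ∧ ε₁ ≤ ζ ∧ 0 < c ∧
      ∀ (t : Fin (2 ^ k) → ℕ), Function.Injective t → ∀ b : ℕ,
        (∀ p : ℕ, p.Prime → p ∣ W → ¬ (p : ℤ) ∣ F b) →
      ∃ Y₀ : ℕ, ∀ Y : ℕ, Y₀ ≤ Y → ∀ M L z : ℕ, (Y : ℝ) ^ θ ≤ L → M + L ≤ Y →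
        (z : ℝ) < (Y : ℝ) ^ ε₁ → (Y : ℝ) ^ ε₁ ≤ z + 1 →
        c * (L * Vp F W b z t) ≤ ((gd F G Y ε₁ ζ υ aw bw W b t m M L).card : ℝ) ∧
        0 < Vp F W b z t ∧ 1 ≤ Real.log Y ^ (2 * (g * 2 ^ k) + 1) * Vp F W b z t := by
  have hυ1 : υ ≤ 1 := by linarith
  obtain ⟨f0, F0, hf0, hF0, HL⟩ := lsw4 τ ζ υ aw bw hζ h2 h4 hτ hζυ hυτ ha hb hab hJ0
  obtain ⟨C, hC1, hC⟩ := c1z
  -- the number of the slots
  obtain ⟨k, hk⟩ : ∃ k : ℕ, 3 * ((m : ℝ) + 1) * 1474560 ≤ f0 * R * k := by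
    obtain ⟨k, hk⟩ := exists_nat_ge (3 * ((m : ℝ) + 1) * 1474560 / (f0 * R))
    refine ⟨k, ?_⟩
    rw [div_le_iff₀ (by positivity)] at hk
    linarith
  obtain ⟨W, hWpos, hWsq, hWp, hgW⟩ := exW (C * (g * 2 ^ k + 1) + (g * 2 ^ k + 1)) g
  -- the presieve
  obtain ⟨ε₁, b₀, hε, hε1, hεe, hb₀, hbE, hεb⟩ := par (1 + aw) R k C (C * (g * 2 ^ k + 1))
    (by linarith) hR (min ζ (τ - υ)) ((θ - (2 * R + τ)) / 2) (lt_min hζ (by linarith))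
    (by linarith)
  have hεζ : ε₁ ≤ ζ := hε1.trans (min_le_left _ _)
  have hετ : ε₁ ≤ τ - υ := hε1.trans (min_le_right _ _)
  obtain ⟨η, hη, HL⟩ := HL ε₁ hε hεζ hετ
  obtain ⟨cV, hcV, hVlow⟩ := Vp_low g (2 ^ k)
  have hε11 : ε₁ ≤ 1 := hεe.trans (e0_le k (1 + aw) R).2
  have hAb := Ab_one k ε₁ hε hε11
  have hom := om_bd k (1 + aw) ε₁ (by linarith) hε hε11
  obtain ⟨c', hc'⟩ : ∃ c' : ℕ, ((2 ^ k : ℕ) : ℝ) * (2 * D / ε₁) ≤ c' := exists_nat_ge _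
  refine ⟨k, W, hWpos, hWsq, fun p hp hpk => hWp p hp (by omega), hgW, ε₁,
    2 / (2 ^ k * (Ab k ε₁ * 2 ^ c') ^ 2), hε, hεζ, by positivity, ?_⟩
  intro t ht b hbW
  obtain ⟨N, hN⟩ : ∃ N : ℕ, ∀ i, t i ≤ N :=
    ⟨univ.sup t, fun i => Finset.le_sup (f := t) (mem_univ i)⟩
  obtain ⟨Y1, hY1⟩ := hMer ε₁ υ η hε hυ1 hη
  obtain ⟨Y2, hY2⟩ := dat_of g G (fun p hp => (hG.root p hp).1) ε₁ υ R (om k (1 + aw) ε₁) hε
    (by linarith) hυ1 hom.1 (hMer ε₁ υ (1 / 40) hε hυ1 (by norm_num))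
  obtain ⟨Y3, hY3⟩ := exJ ε₁ hε
  have ev1 : ∀ᶠ Y : ℕ in atTop, ((W * N) ^ g + W + 2 : ℝ) ≤ (Y : ℝ) ^ ε₁ :=
    ((tendsto_rpow_atTop hε).comp tendsto_natCast_atTop_atTop).eventually_ge_atTop _
  have ev2 := ev_log (2 * (g * 2 ^ k)) (2 ^ b₀ * 3 ^ (2 * (g * 2 ^ k)) / cV)
    ((θ - (2 * R + τ)) / 2) (by linarith)
  have ev3 : ∀ᶠ Y : ℕ in atTop, 3 ^ (2 * (g * 2 ^ k)) / cV ≤ Real.log (Y : ℝ) :=
    (Real.tendsto_log_atTop.comp tendsto_natCast_atTop_atTop).eventually_ge_atTop _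
  obtain ⟨Y4, hY4⟩ := eventually_atTop.1 (ev1.and (ev2.and (ev3.and (eventually_ge_atTop
    (W * (N + 1) + b + 3)))))
  refine ⟨max (max Y1 Y2) (max Y3 Y4), ?_⟩
  intro Y hY M L z hLY hMLY hz1 hz2
  have hM := hY1 Y (((le_max_left _ _).trans (le_max_left _ _)).trans hY)
  have hd := hY2 Y (((le_max_right _ _).trans (le_max_left _ _)).trans hY)
  obtain ⟨J, hJ1, hJ2⟩ := hY3 Y (((le_max_left _ _).trans (le_max_right _ _)).trans hY)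
  obtain ⟨e1, e2, e3, e4⟩ := hY4 Y (((le_max_right _ _).trans (le_max_right _ _)).trans hY)
  have hY3' : 3 ≤ Y := by omega
  have hY2' : 2 ≤ Y := by omega
  -- the sieving limit
  have hzJ : z < 2 ^ 2 ^ J := by
    have : (z : ℝ) < 2 ^ 2 ^ J := hz1.trans_le hJ1
    exact_mod_cast this
  have hWN0 : (0 : ℝ) ≤ (W * N) ^ g := by positivity
  have hWz : W ≤ z := by
    have h2 : (W : ℝ) ≤ z := by linarith
    exact_mod_cast h2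
  have hV := hVlow F hF W b J z t (fun p hp hpk => hWp p hp (by omega)) hzJ
  have hV0 : 0 < Vp F W b z t := lt_of_lt_of_le (by positivity) hV
  obtain ⟨hV2, hV3⟩ := num1 Y J (2 * (g * 2 ^ k)) ε₁ cV (Vp F W b z t) hY3' hε11 hcV hJ2 hV e3
  have hD := num2 Y J (2 * (g * 2 ^ k)) C b₀ ε₁ cV (Vp F W b z t) L θ (2 * R + τ) hY3' hcV hJ2 hV2
    hεb hLY e2
  have hU : ∀ (K : ℕ) (s : Pg G Y ε₁ υ) i j, ((s : ℕ) : ℤ) ∣ G ((W * (K + t i) + b : ℕ) : ℤ) →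
      ((s : ℕ) : ℤ) ∣ G ((W * (K + t j) + b : ℕ) : ℤ) → i = j := by
    intro K s i j h1 h2
    obtain ⟨h3, h4, -⟩ := Pg_mem G Y ε₁ υ hY2' s
    refine uniq hG W b hWpos hgW t ht N hN (s : ℕ) h3 ?_ K i j h1 h2
    have h5 : ((W * N : ℕ) : ℝ) ^ g < (s : ℕ) := by
      push_cast
      have : (0 : ℝ) ≤ W := Nat.cast_nonneg W
      linarith
    exact_mod_cast h5
  have hcnt := cnt_of C b₀ W J z (2 ^ k) b M L F G t Y hY2' ε₁ υ (2 * R + τ) hG.per hWpos hWz hz1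
    (fun D a hD1 hD2 s hs => hC g (2 ^ k) b₀ W hb₀ hWpos (fun p hp hpk => hWp p hp (by omega)) F hF
      t b J z D a M L hzJ.le hD1 hD2 s hs) hU hD
  obtain ⟨cU, cL0, hc1, hc2, hc3, hc4⟩ := HL Y hY2'
  obtain ⟨hc4, -⟩ := hc4 (fun p => (rt G p : ℝ) / p) (fun p _ => by positivity) hM
  exact ⟨core1 F G g hF hG hGF D hGs m k W c' N b₀ Y b M L z τ ζ υ aw bw R f0 ε₁ (by linarith) hτ
    (hεζ.trans hζυ) ha hb hab hR hRζ hf0 hWpos hk hε hεe hbE hc' t hN e4 hMLY hbW hz2 cL0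
    (fun T => (hc1 T).2) (fun T hT h => hc2 T hT (Or.inr h)) (fun N => (hc3 N).1) hc4 hd hU hV0
    hcnt, hV0, hV3⟩

end Pool.Agent.R498.MT
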