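import Pool.Agent.R498.MT.Param

set_option autoImplicit false
set_option linter.unusedSectionVars false

/-! The two estimates with the chosen parameters. -/

namespace Pool.Agent.R498.MT

open Finset

section param
variable {S : Type} [Fintype S] [DecidableEq S]

/-- the hypotheses on the sieving primes -/
structure Dat (q μ l : S → ℝ) (ε₁ R w ω : ℝ) : Prop where
  q2 : ∀ t, 2 ≤ q t
  m0 : ∀ t, 0 ≤ μ t
  m1 : ∀ t, μ t ≤ 1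
  mq : ∀ t, μ t = 0 ∨ μ t * (q t - 1) = 1
  l1 : ∀ t, ε₁ ≤ l t
  lw : ∀ t, l t < w
  Rw : R ≤ w
  w1 : w ≤ 1
  mer : MerS l μ ε₁ w (1 / 20)
  sq : ∑ t, μ t ^ 2 ≤ ω
  sm : ∀ a : Finset S, lz l a ≤ 1 → ∑ t ∈ a, μ t ≤ ω

/-- the weight function of one coordinate -/
noncomputable def Gf (l : S → ℝ) (R : ℝ) (k : ℕ) (a : Finset S) : ℝ := gp k (u0 R k) (lz l a)

/-- the weights -/
noncomputable def yf (l : S → ℝ) (R : ℝ) (k : ℕ) : (S → Option (Fin (2 ^ k))) → ℝ :=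
  yy l (Gf l R k) R

/-- the norm -/
noncomputable def If (μ l : S → ℝ) (R : ℝ) (k : ℕ) : ℝ :=
  (∑ a, ms μ a * Gf l R k a ^ 2) ^ (2 ^ k)

theorem u0_pos (R : ℝ) (hR : 0 < R) (k : ℕ) : 0 < u0 R k := by
  unfold u0; positivity

theorem u0_eq (R : ℝ) (k : ℕ) : 2 ^ k * u0 R k = R / (96 * ((k : ℝ) + 1)) := by
  unfold u0
  have h1 : (0 : ℝ) < 2 ^ k := by positivity
  have h2 : (0 : ℝ) < (k : ℝ) + 1 := by positivity
  field_simp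

theorem u0_le (R : ℝ) (hR : 0 < R) (k : ℕ) : 2 ^ k * u0 R k ≤ R / 2 := by
  rw [u0_eq]
  apply div_le_div_of_nonneg_left hR.le (by norm_num)
  have : (0 : ℝ) ≤ k := Nat.cast_nonneg _
  linarith

theorem Gf_facts (l : S → ℝ) (hl : ∀ t, 0 ≤ l t) (R : ℝ) (hR : 0 < R) (k : ℕ) :
    (∀ a, 0 ≤ Gf l R k a) ∧ (∀ a, Gf l R k a ≤ 1) ∧ (∀ a b, a ⊆ b → Gf l R k b ≤ Gf l R k a) ∧
    Gf l R k ∅ = 1 ∧ (∀ a, Gf l R k a ≠ 0 → lz l a ≤ 2 ^ k * u0 R k) := by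
  refine ⟨fun a => (gp_bd _ _ _).1, fun a => (gp_bd _ _ _).2, ?_, ?_, ?_⟩
  · intro a b hab
    apply gp_anti
    exact sum_le_sum_of_subset_of_nonneg hab fun t _ _ => hl t
  · show gp k (u0 R k) (lz l ∅) = 1
    have : lz l ∅ = 0 := by simp [lz]
    rw [this]
    exact gp_zero k _ (u0_pos R hR k)
  · intro a ha
    exact (gp_supp k _ _ (u0_pos R hR k).le ha).le

theorem yf_facts (l : S → ℝ) (hl : ∀ t, 0 ≤ l t) (R : ℝ) (hR : 0 < R) (k : ℕ)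
    (σ : S → Option (Fin (2 ^ k))) :
    0 ≤ yf l R k σ ∧ yf l R k σ ≤ 1 ∧ (yf l R k σ ≠ 0 → lt l σ ≤ R) := by
  obtain ⟨h1, h2, -, -, -⟩ := Gf_facts l hl R hR k
  refine ⟨yy_nonneg l _ h1 R σ, ?_, ?_⟩
  · refine (yy_le l _ h1 R σ).trans ?_
    exact prod_le_one (fun j _ => h1 _) (fun j _ => h2 _)
  · intro h
    unfold yf yy at h
    split_ifs at h with h'
    · exact h'
    · exact absurd rfl h

theorem AA_Ab {q μ l : S → ℝ} {ε₁ R w ω : ℝ} (hd : Dat q μ l ε₁ R w ω) (hε : 0 < ε₁)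
    (hεw : ε₁ ≤ w) (k : ℕ) : AA (Fin (2 ^ k)) μ ≤ Ab k ε₁ := by
  have h := AA_le (2 ^ k) l μ hd.m0 ε₁ w (1 / 20) hε hεw hd.w1 hd.l1 hd.lw le_rfl hd.mer
  unfold AA Ab
  rw [Fintype.card_fin]
  exact h

theorem I2_one {q μ l : S → ℝ} {ε₁ R w ω : ℝ} (hd : Dat q μ l ε₁ R w ω) (hε : 0 < ε₁)
    (hR : 0 < R) (k : ℕ) : 1 ≤ ∑ a, ms μ a * Gf l R k a ^ 2 := by
  obtain ⟨h1, h2, h3, h4, h5⟩ := Gf_facts l (fun t => hε.le.trans (hd.l1 t)) R hR k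
  have h6 : ms μ ∅ * Gf l R k ∅ ^ 2 = 1 := by rw [h4]; simp [ms]
  rw [← h6]
  exact single_le_sum (f := fun a => ms μ a * Gf l R k a ^ 2)
    (fun a _ => mul_nonneg (prod_nonneg fun t _ => hd.m0 t) (sq_nonneg _)) (mem_univ ∅)

theorem e0_le (k : ℕ) (C₁ R : ℝ) : e0 k C₁ R ≤ u0 R k / 4 ∧ e0 k C₁ R ≤ 1 :=
  ⟨(min_le_left _ _).trans (min_le_left _ _), (min_le_left _ _).trans (min_le_right _ _)⟩

theorem e0_pos (k : ℕ) (C₁ R : ℝ) (hC : 0 ≤ C₁) (hR : 0 < R) : 0 < e0 k C₁ R := by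
  unfold e0
  have h1 := u0_pos R hR k
  have h2 := Real.exp_pos (16 * ((2 ^ k : ℕ) : ℝ) ^ 2)
  refine lt_min (lt_min (by linarith) one_pos) ?_
  positivity

/-- **The first sum.** -/
theorem S1_fin (k : ℕ) (C₁ R : ℝ) (hC : 0 ≤ C₁) (hR : 0 < R) (ε₁ : ℝ) (hε : 0 < ε₁)
    (hε1 : ε₁ ≤ e0 k C₁ R) (w : ℝ) (q μ l : S → ℝ) (hd : Dat q μ l ε₁ R w (om k C₁ ε₁))
    {N : Finset ℕ} {ν : ℕ → ℝ} {ξ : ℕ → S → Option (Fin (2 ^ k))} {X E : ℝ} (hX : 0 ≤ X)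
    (hE : 0 ≤ E) (hE1 : E ≤ ε₁ ^ (16 * (2 ^ k) ^ 2 + 1))
    (hC1 : Cnt N ν ξ (fun t _ => 1 / q t) X E (fun T => lt l T ≤ 2 * R)) :
    ∑ n ∈ N, ν n * Lam none q μ (yf l R k) (ξ n) ^ 2 ≤ 2 * X * If μ l R k := by
  have hl0 : ∀ t, 0 ≤ l t := fun t => hε.le.trans (hd.l1 t)
  have hε11 : ε₁ ≤ 1 := hε1.trans (e0_le k C₁ R).2
  have hu0 := u0_pos R hR k
  have hεw : ε₁ ≤ w := by
    have h1 := (e0_le k C₁ R).1
    have h2 := u0_le R hR k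
    have h3 : (1 : ℝ) ≤ 2 ^ k := one_le_pow₀ (by norm_num)
    have h4 := hd.Rw
    nlinarith
  have hmq : ∀ t, μ t * (q t - 1) ≤ 1 := by
    intro t
    rcases hd.mq t with h | h
    · rw [h]; norm_num
    · exact h.le
  haveI : Nonempty (Fin (2 ^ k)) := ⟨⟨0, by positivity⟩⟩
  have h1 := one_target (J := Fin (2 ^ k)) (N := N) (ν := ν) (ξ := ξ) (X := X) (E := E)
    (Good := fun T => lt l T ≤ 2 * R) none q (fun _ => 0) μ hd.q2 (fun _ => le_rfl) hd.m0 hd.m1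
    hmq (yf l R k) (fun σ => by
      have := yf_facts l hl0 R hR k σ
      rw [abs_of_nonneg this.1]
      exact this.2.1) hX hE ∅ (fun t ht => absurd ht (notMem_empty t))
    (by
      intro T hT
      have := hC1 T hT
      have e : ∀ t, rr (rd none (q t) 0) (T t) = rr (fun _ : Fin (2 ^ k) => 1 / q t) (T t) := by
        intro t
        rcases T t with _ | j <;> simp [rr, rd]
      simp_rw [e]
      exact this)
    (by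
      intro σ τ hσ hτ U hU
      have h2 := good_of none q l hl0 ∅ σ τ U hU
      have h3 := (yf_facts l hl0 R hR k σ).2.2 hσ
      have h4 := (yf_facts l hl0 R hR k τ).2.2 hτ
      have h5 : lz l ∅ = 0 := by simp [lz]
      show lt l U ≤ 2 * R
      linarith)
  simp only [notMem_empty, false_imp_iff, implies_true, if_true, mul_one, prod_empty, sum_empty,
    mul_zero, add_zero] at h1
  obtain ⟨g1, g2, g3, g4, g5⟩ := Gf_facts l hl0 R hR k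
  have h2 := S1_main (J := Fin (2 ^ k)) q μ l hd.q2 hd.m0 hmq (Gf l R k) g1 R
  rw [Fintype.card_fin] at h1 h2
  have hI1 : 1 ≤ If μ l R k := one_le_pow₀ (I2_one hd hε hR k)
  obtain ⟨o1, o2, o3, o4, o5⟩ := om_bd k C₁ ε₁ hC hε hε11
  have hA1 := Ab_one k ε₁ hε hε11
  have hAA := AA_Ab hd hε hεw k
  have hEb := Ab_E k C₁ R ε₁ E hC hε hε1 hE1
  -- the error
  have hK0 : (0 : ℝ) ≤ ((2 ^ k : ℕ) : ℝ) ^ 2 := sq_nonneg _
  have herr : AA (Fin (2 ^ k)) μ * (E + (Real.exp (((2 ^ k : ℕ) : ℝ) ^ 2 * ∑ t, μ t ^ 2) - 1)) ≤ 1 := by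
    have p0 : (1 : ℝ) ≤ 2 ^ k := one_le_pow₀ (by norm_num)
    have p1 : Real.exp (((2 ^ k : ℕ) : ℝ) ^ 2 * ∑ t, μ t ^ 2) ≤
        Real.exp (6 * ((2 ^ k : ℕ) : ℝ) ^ 2 * om k C₁ ε₁) := by
      apply Real.exp_le_exp.2
      have := mul_le_mul_of_nonneg_left hd.sq hK0
      nlinarith
    have p2 : 0 ≤ Real.exp (6 * ((2 ^ k : ℕ) : ℝ) ^ 2 * om k C₁ ε₁) - 1 := by
      have := Real.one_le_exp (show 0 ≤ 6 * ((2 ^ k : ℕ) : ℝ) ^ 2 * om k C₁ ε₁ by positivity)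
      linarith
    have p3 : Ab k ε₁ ≤ (1 + C₁) * Ab k ε₁ ^ 2 := by nlinarith
    have p4 : (0 : ℝ) ≤ E + (Real.exp (6 * ((2 ^ k : ℕ) : ℝ) ^ 2 * om k C₁ ε₁) - 1) := by linarith
    calc AA (Fin (2 ^ k)) μ * (E + (Real.exp (((2 ^ k : ℕ) : ℝ) ^ 2 * ∑ t, μ t ^ 2) - 1)) ≤
        Ab k ε₁ * (E + (Real.exp (6 * ((2 ^ k : ℕ) : ℝ) ^ 2 * om k C₁ ε₁) - 1)) := by
          apply mul_le_mul hAA (by linarith) _ (by linarith)
          have : 0 ≤ Real.exp (((2 ^ k : ℕ) : ℝ) ^ 2 * ∑ t, μ t ^ 2) - 1 := by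
            have := Real.one_le_exp (show 0 ≤ ((2 ^ k : ℕ) : ℝ) ^ 2 * ∑ t, μ t ^ 2 from
              mul_nonneg hK0 (sum_nonneg fun t _ => sq_nonneg _))
            linarith
          linarith
      _ ≤ ((1 + C₁) * Ab k ε₁ ^ 2) *
          (E + (Real.exp (6 * ((2 ^ k : ℕ) : ℝ) ^ 2 * om k C₁ ε₁) - 1)) :=
          mul_le_mul_of_nonneg_right p3 p4
      _ ≤ 1 / (4 * 2 ^ k) + 1 / (8 * 2 ^ k) := by rw [mul_add]; linarith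
      _ ≤ 1 := by
          have q1 : (1 : ℝ) / (4 * 2 ^ k) ≤ 1 / 4 := by
            apply one_div_le_one_div_of_le (by norm_num); linarith
          have q2 : (1 : ℝ) / (8 * 2 ^ k) ≤ 1 / 8 := by
            apply one_div_le_one_div_of_le (by norm_num); linarith
          linarith
  rw [abs_le] at h1
  have h5 := h1.2
  have h6 : X * ∑ σ, ∑ τ, cw μ (yf l R k) σ * cw μ (yf l R k) τ *
      ∏ t, VM none (q t) (σ t) (τ t) ≤ X * If μ l R k := mul_le_mul_of_nonneg_left h2 hX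
  have h7 := mul_le_mul_of_nonneg_left herr hX
  have h8 : X * 1 ≤ X * If μ l R k := mul_le_mul_of_nonneg_left hI1 hX
  linarith

/-- the main term -/
noncomputable def Mt (k : ℕ) (i : Option (Fin (2 ^ k))) (q μ l : S → ℝ) (R : ℝ) : ℝ :=
  ∑ σ, ∑ τ, cw μ (yf l R k) σ * cw μ (yf l R k) τ * ∏ t, VM i (q t) (σ t) (τ t)

/-- the sums over one coordinate -/
theorem sums_one (k : ℕ) (C₁ R : ℝ) (hC : 0 ≤ C₁) (hR : 0 < R) (ε₁ : ℝ) (hε : 0 < ε₁)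
    (hε1 : ε₁ ≤ e0 k C₁ R) (w : ℝ) (q μ l : S → ℝ) (hd : Dat q μ l ε₁ R w (om k C₁ ε₁)) :
    ((k : ℝ) / 2 + 1) * (u0 R k / ε₁ / 10) ≤ (∑ a, ms μ a * Gf l R k a) ∧
    (∑ a, ms μ a * Gf l R k a ^ 2) ≤ 12 / 5 * (u0 R k / ε₁) ∧
    (∑ a, lz l a * (ms μ a * Gf l R k a ^ 2)) ≤ 6 / 5 * ((k : ℝ) + 1) * (u0 R k ^ 2 / ε₁) ∧
    u0 R k / ε₁ / 10 ≤ (∑ a, ms μ a * Gf l R k a ^ 2) ∧
    1 ≤ ∑ a, ms μ a * Gf l R k a := by
  have hl0 : ∀ t, 0 ≤ l t := fun t => hε.le.trans (hd.l1 t)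
  have hε11 : ε₁ ≤ 1 := hε1.trans (e0_le k C₁ R).2
  have hu0 := u0_pos R hR k
  have h4u : 4 * ε₁ ≤ u0 R k := by have := (e0_le k C₁ R).1; linarith
  have hp1 : (1 : ℝ) ≤ 2 ^ k := one_le_pow₀ (by norm_num)
  have hUR := u0_le R hR k
  have hUw : 2 ^ k * u0 R k ≤ w := by linarith [hd.Rw]
  have huw : u0 R k ≤ w := by nlinarith
  obtain ⟨o1, o2, o3, o4, o5⟩ := om_bd k C₁ ε₁ hC hε hε11
  obtain ⟨g1, g2, g3, g4, g5⟩ := Gf_facts l hl0 R hR k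
  refine ⟨sum_H l μ hd.m0 ε₁ w (1 / 20) hε hd.l1 le_rfl hd.mer (hd.sq.trans o2) k (u0 R k) h4u hUw,
    sum_I2 l μ hd.m0 ε₁ w (1 / 20) hε hd.l1 le_rfl hd.mer k (u0 R k) (by linarith) hUw,
    sum_IE l μ hd.m0 ε₁ w (1 / 20) hε hd.l1 le_rfl hd.mer k (u0 R k) (by linarith) hUw,
    sum_I2_lower l μ hd.m0 ε₁ w (1 / 20) hε hd.l1 le_rfl hd.mer (hd.sq.trans o2) k (u0 R k) h4u
      huw, ?_⟩
  have h6 : ms μ ∅ * Gf l R k ∅ = 1 := by rw [g4]; simp [ms]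
  rw [← h6]
  exact single_le_sum (f := fun a => ms μ a * Gf l R k a)
    (fun a _ => mul_nonneg (prod_nonneg fun t _ => hd.m0 t) (g1 a)) (mem_univ ∅)

/-- the product over all primes -/
theorem A1_bd (k : ℕ) (C₁ R : ℝ) (hC : 0 ≤ C₁) (hR : 0 < R) (ε₁ : ℝ) (hε : 0 < ε₁)
    (hε1 : ε₁ ≤ e0 k C₁ R) (w : ℝ) (q μ l : S → ℝ) (hd : Dat q μ l ε₁ R w (om k C₁ ε₁)) :
    ∏ t, (1 + μ t) ≤ Ab k ε₁ := by
  have hu0 := u0_pos R hR k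
  have hεw : ε₁ ≤ w := by
    have h1 := (e0_le k C₁ R).1
    have h2 := u0_le R hR k
    have h3 : (1 : ℝ) ≤ 2 ^ k := one_le_pow₀ (by norm_num)
    have h4 := hd.Rw
    nlinarith
  have hAA := AA_Ab hd hε hεw k
  have hK1 : (1 : ℝ) ≤ ((2 ^ k : ℕ) : ℝ) := by exact_mod_cast Nat.one_le_two_pow
  refine le_trans ?_ hAA
  unfold AA
  rw [Fintype.card_fin]
  apply prod_le_prod
  · intro t _; linarith [hd.m0 t]
  · intro t _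
    have h2 := hd.m0 t
    have h3 : (1 : ℝ) ≤ ((2 ^ k : ℕ) : ℝ) ^ 2 := one_le_pow₀ hK1
    nlinarith

theorem half_bd (k : ℕ) (R ε₁ I2 IE x : ℝ) (hR : 0 < R) (hε : 0 < ε₁) (hI2 : 1 ≤ I2)
    (hIE : IE ≤ 6 / 5 * ((k : ℝ) + 1) * (u0 R k ^ 2 / ε₁)) (hI2l : u0 R k / ε₁ / 10 ≤ I2)
    (hx : x ≤ 1 / 96) :
    (1 : ℝ) / 2 ≤ (1 - x) - ((2 ^ k : ℕ) : ℝ) * IE / ((R - 2 ^ k * u0 R k) * I2) := by
  have hu0 := u0_pos R hR k
  have hUR := u0_le R hR k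
  have b2 : IE ≤ 12 * ((k : ℝ) + 1) * u0 R k * I2 := by
    have c1 : 12 * ((k : ℝ) + 1) * u0 R k * (u0 R k / ε₁ / 10) ≤
        12 * ((k : ℝ) + 1) * u0 R k * I2 :=
      mul_le_mul_of_nonneg_left hI2l (by positivity)
    refine hIE.trans (le_trans (le_of_eq ?_) c1)
    field_simp
    ring
  have b3 : ((2 ^ k : ℕ) : ℝ) * IE / ((R - 2 ^ k * u0 R k) * I2) ≤ 1 / 4 := by
    have c2 : 0 < (R - 2 ^ k * u0 R k) * I2 := mul_pos (by linarith) (by linarith)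
    rw [div_le_iff₀ c2]
    have c3 : ((2 ^ k : ℕ) : ℝ) * IE ≤ 2 ^ k * (12 * ((k : ℝ) + 1) * u0 R k * I2) := by
      push_cast
      exact mul_le_mul_of_nonneg_left b2 (by positivity)
    refine c3.trans ?_
    have c4 : 2 ^ k * (12 * ((k : ℝ) + 1) * u0 R k * I2) =
        12 * ((k : ℝ) + 1) * (2 ^ k * u0 R k) * I2 := by ring
    rw [c4, u0_eq]
    have c5 : 12 * ((k : ℝ) + 1) * (R / (96 * ((k : ℝ) + 1))) = R / 8 := by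
      have : (0 : ℝ) < (k : ℝ) + 1 := by positivity
      field_simp
      ring
    rw [c5, ← mul_assoc]
    apply mul_le_mul_of_nonneg_right _ (by linarith)
    rw [u0_eq] at hUR
    linarith
  linarith

theorem Mt_lower (k : ℕ) (C₁ R : ℝ) (hC : 0 ≤ C₁) (hR : 0 < R) (ε₁ : ℝ) (hε : 0 < ε₁)
    (hε1 : ε₁ ≤ e0 k C₁ R) (w : ℝ) (q μ l : S → ℝ) (hd : Dat q μ l ε₁ R w (om k C₁ ε₁))
    (i : Fin (2 ^ k)) :
    (∑ a, ms μ a * Gf l R k a) ^ 2 / (8 * ∑ a, ms μ a * Gf l R k a ^ 2) * If μ l R k ≤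
      Mt k (some i) q μ l R := by
  have hl0 : ∀ t, 0 ≤ l t := fun t => hε.le.trans (hd.l1 t)
  have hε11 : ε₁ ≤ 1 := hε1.trans (e0_le k C₁ R).2
  have hR1 : R ≤ 1 := hd.Rw.trans hd.w1
  have hUR := u0_le R hR k
  have hI21 : 1 ≤ ∑ a, ms μ a * Gf l R k a ^ 2 := I2_one hd hε hR k
  obtain ⟨hHl, hI2u, hIEu, hI2l, hH1⟩ := sums_one k C₁ R hC hR ε₁ hε hε1 w q μ l hd
  obtain ⟨o1, o2, o3, o4, o5⟩ := om_bd k C₁ ε₁ hC hε hε11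
  obtain ⟨g1, g2, g3, g4, g5⟩ := Gf_facts l hl0 R hR k
  have hA1A := A1_bd k C₁ R hC hR ε₁ hε hε1 w q μ l hd
  have hωA : om k C₁ ε₁ * ∏ t, (1 + μ t) ≤ 1 / 2 := (mul_le_mul_of_nonneg_left hA1A o1.le).trans o4
  haveI : Nonempty (Fin (2 ^ k)) := ⟨⟨0, by positivity⟩⟩
  have h2 := S2_main i q μ l hd.q2 hd.m0 hd.mq hl0 (Gf l R k) g1 g3 g4 R (2 ^ k * u0 R k)
    (by linarith) g5 (om k C₁ ε₁) (by
      intro s hs
      have e1 : ∑ t, (if s t = none then 0 else μ t) =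
          ∑ t ∈ univ.filter (fun t => s t ≠ none), μ t := by
        rw [sum_filter]
        refine sum_congr rfl fun t _ => ?_
        by_cases h : s t = none <;> simp [h]
      have e2 : lz l (univ.filter (fun t => s t ≠ none)) = lt l s := by
        unfold lz lt
        rw [sum_filter]
        refine sum_congr rfl fun t _ => ?_
        by_cases h : s t = none <;> simp [h]
      rw [e1]
      exact hd.sm _ (by rw [e2]; linarith)) (by linarith)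
  rw [Fintype.card_fin] at h2
  refine le_trans ?_ h2
  have a4 := half_bd k R ε₁ (∑ a, ms μ a * Gf l R k a ^ 2)
    (∑ a, lz l a * (ms μ a * Gf l R k a ^ 2)) (((2 ^ k : ℕ) : ℝ) ^ 2 * ∑ t, μ t ^ 2) hR hε hI21
    hIEu hI2l ((mul_le_mul_of_nonneg_left hd.sq (sq_nonneg _)).trans o3)
  have e3 : If μ l R k = (∑ a, ms μ a * Gf l R k a ^ 2) ^ (2 ^ k) := rfl
  rw [e3]
  generalize (∑ a, ms μ a * Gf l R k a ^ 2) = I2 at *
  generalize (∑ a, ms μ a * Gf l R k a) = H at *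
  generalize (∏ t, (1 + μ t)) = A1 at *
  have a1 : 0 < I2 := by linarith
  have a2 : 0 ≤ I2 ^ (2 ^ k) / I2 := by positivity
  have a3 : H ^ 2 / 4 ≤ (H - om k C₁ ε₁ * A1) ^ 2 := by
    have : H / 2 ≤ H - om k C₁ ε₁ * A1 := by linarith
    nlinarith
  calc H ^ 2 / (8 * I2) * I2 ^ 2 ^ k = H ^ 2 / 4 * (1 / 2) * (I2 ^ 2 ^ k / I2) := by
        field_simp
        norm_num
    _ ≤ _ := by
        apply mul_le_mul_of_nonneg_right _ a2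
        apply mul_le_mul a3 a4 (by norm_num) (sq_nonneg _)

/-- the main inequality -/
theorem main_num (k m : ℕ) (R c₀ ε₁ X X₀ V M I H I2 : ℝ) (hR : 0 < R) (hc₀ : 0 < c₀)
    (hk : 3 * ((m : ℝ) + 1) * 1474560 ≤ c₀ * R * k) (hε : 0 < ε₁) (hI : 1 ≤ I) (hI2 : 1 ≤ I2)
    (hX₀ : 0 ≤ X₀) (hcV : c₀ * ε₁ * X₀ ≤ X * V)
    (hHl : ((k : ℝ) / 2 + 1) * (u0 R k / ε₁ / 10) ≤ H)
    (hI2u : I2 ≤ 12 / 5 * (u0 R k / ε₁)) (hM : H ^ 2 / (8 * I2) * I ≤ M) :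
    3 * ((m : ℝ) + 1) / 2 ^ k * (X₀ * I) ≤ X * V * M := by
  have hu0 := u0_pos R hR k
  have hp0 : (0 : ℝ) < 2 ^ k := by positivity
  have hk0 : (0 : ℝ) ≤ k := Nat.cast_nonneg _
  have hue : 0 < u0 R k / ε₁ := by positivity
  have d2 : (k : ℝ) ^ 2 / 7680 * (u0 R k / ε₁) ≤ H ^ 2 / (8 * I2) := by
    rw [le_div_iff₀ (by linarith)]
    have d3 : (k : ℝ) / 2 * (u0 R k / ε₁ / 10) ≤ H := by
      refine le_trans ?_ hHl
      apply mul_le_mul_of_nonneg_right _ (by positivity)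
      linarith
    have d4 : ((k : ℝ) / 2 * (u0 R k / ε₁ / 10)) ^ 2 ≤ H ^ 2 :=
      pow_le_pow_left₀ (by positivity) d3 2
    have d5 : (k : ℝ) ^ 2 / 7680 * (u0 R k / ε₁) * (8 * I2) ≤
        (k : ℝ) ^ 2 / 7680 * (u0 R k / ε₁) * (8 * (12 / 5 * (u0 R k / ε₁))) := by
      apply mul_le_mul_of_nonneg_left _ (by positivity)
      linarith
    refine d5.trans (le_trans (le_of_eq ?_) d4)
    ring
  have d6 : 3 * ((m : ℝ) + 1) / 2 ^ k ≤ c₀ * ε₁ * ((k : ℝ) ^ 2 / 7680 * (u0 R k / ε₁)) := by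
    have e1 : c₀ * ε₁ * ((k : ℝ) ^ 2 / 7680 * (u0 R k / ε₁)) =
        c₀ * (k : ℝ) ^ 2 * u0 R k / 7680 := by
      field_simp
    rw [e1]
    unfold u0
    have e2 : c₀ * (k : ℝ) ^ 2 * (R / (96 * 2 ^ k * ((k : ℝ) + 1))) / 7680 =
        (c₀ * R * ((k : ℝ) ^ 2 / ((k : ℝ) + 1)) / 737280) / 2 ^ k := by
      have : (0 : ℝ) < (k : ℝ) + 1 := by positivity
      field_simp
      ring
    rw [e2]
    apply div_le_div_of_nonneg_right _ hp0.le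
    have hk1 : (1 : ℝ) ≤ k := by
      by_contra hcon
      push Not at hcon
      have : k = 0 := by
        have : k < 1 := by exact_mod_cast hcon
        omega
      rw [this] at hk
      have hm0 : (0 : ℝ) ≤ m := Nat.cast_nonneg _
      norm_num at hk
      linarith
    have e3 : (k : ℝ) / 2 ≤ (k : ℝ) ^ 2 / ((k : ℝ) + 1) := by
      rw [le_div_iff₀ (by linarith)]
      nlinarith
    have e4 : c₀ * R * ((k : ℝ) / 2) ≤ c₀ * R * ((k : ℝ) ^ 2 / ((k : ℝ) + 1)) :=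
      mul_le_mul_of_nonneg_left e3 (by positivity)
    linarith
  have hXI : 0 ≤ X₀ * I := by positivity
  calc 3 * ((m : ℝ) + 1) / 2 ^ k * (X₀ * I) ≤
      (c₀ * ε₁ * ((k : ℝ) ^ 2 / 7680 * (u0 R k / ε₁))) * (X₀ * I) :=
        mul_le_mul_of_nonneg_right d6 hXI
    _ = (c₀ * ε₁ * X₀) * ((k : ℝ) ^ 2 / 7680 * (u0 R k / ε₁) * I) := by ring
    _ ≤ (X * V) * ((k : ℝ) ^ 2 / 7680 * (u0 R k / ε₁) * I) :=
        mul_le_mul_of_nonneg_right hcV (by positivity)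
    _ ≤ (X * V) * M := by
        apply mul_le_mul_of_nonneg_left _ (le_trans (by positivity) hcV)
        refine le_trans ?_ hM
        exact mul_le_mul_of_nonneg_right d2 (by linarith)

/-- one set of targets -/
theorem one_T (k : ℕ) (C₁ R τ : ℝ) (hC : 0 ≤ C₁) (hR : 0 < R)
    (hτ : τ ≤ 1) (ε₁ : ℝ) (hε : 0 < ε₁)
    (hε1 : ε₁ ≤ e0 k C₁ R) (w : ℝ) (q μ l : S → ℝ) (hd : Dat q μ l ε₁ R w (om k C₁ ε₁))
    (i : Fin (2 ^ k)) (γ : S → ℝ) (hγ : ∀ t, 0 ≤ γ t)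
    (cL : Finset S → ℝ) (hcL : ∀ T, |cL T| ≤ C₁) (hcT : ∀ T, cL T ≠ 0 → lz l T ≤ τ)
    {N : Finset ℕ} {ν : ℕ → ℝ} {ξ : ℕ → S → Option (Fin (2 ^ k))} {X E : ℝ} (hX : 0 ≤ X)
    (hE : 0 ≤ E)
    (hC1 : Cnt N ν ξ (fun t => rd (some i) (q t) (γ t)) X E (fun T => lt l T ≤ 2 * R + τ))
    (T : Finset S) :
    X * (cL T * ∏ t ∈ T, γ t) * Mt k (some i) q μ l R - X * (C₁ * ∏ t ∈ T, γ t) *
      (Ab k ε₁ * (E + (Real.exp (6 * ((2 ^ k : ℕ) : ℝ) ^ 2 * om k C₁ ε₁) - 1))) ≤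
    cL T * (∑ n ∈ N, ν n * (Lam (some i) q μ (yf l R k) (ξ n) ^ 2 *
      (if ∀ t ∈ T, ξ n t = some i then 1 else 0))) := by
  have hl0 : ∀ t, 0 ≤ l t := fun t => hε.le.trans (hd.l1 t)
  have hε11 : ε₁ ≤ 1 := hε1.trans (e0_le k C₁ R).2
  have hu0 := u0_pos R hR k
  have hUR := u0_le R hR k
  have hp1 : (1 : ℝ) ≤ 2 ^ k := one_le_pow₀ (by norm_num)
  have hεw : ε₁ ≤ w := by
    have h1 := (e0_le k C₁ R).1
    have h4 := hd.Rw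
    nlinarith
  have hmq : ∀ t, μ t * (q t - 1) ≤ 1 := by
    intro t
    rcases hd.mq t with h | h
    · rw [h]; norm_num
    · exact h.le
  haveI : Nonempty (Fin (2 ^ k)) := ⟨⟨0, by positivity⟩⟩
  obtain ⟨o1, o2, o3, o4, o5⟩ := om_bd k C₁ ε₁ hC hε hε11
  have hA1 := Ab_one k ε₁ hε hε11
  have hAA := AA_Ab hd hε hεw k
  have hg0 : 0 ≤ ∏ t ∈ T, γ t := prod_nonneg fun t _ => hγ t
  have p2 : 0 ≤ Real.exp (6 * ((2 ^ k : ℕ) : ℝ) ^ 2 * om k C₁ ε₁) - 1 := by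
    have := Real.one_le_exp (show 0 ≤ 6 * ((2 ^ k : ℕ) : ℝ) ^ 2 * om k C₁ ε₁ by positivity)
    linarith
  by_cases hT0 : cL T = 0
  · rw [hT0]
    have : 0 ≤ X * (C₁ * ∏ t ∈ T, γ t) *
      (Ab k ε₁ * (E + (Real.exp (6 * ((2 ^ k : ℕ) : ℝ) ^ 2 * om k C₁ ε₁) - 1))) := by positivity
    linarith
  have hTτ := hcT T hT0
  have h2 := one_target (J := Fin (2 ^ k)) (N := N) (ν := ν) (ξ := ξ) (X := X) (E := E)
    (Good := fun T => lt l T ≤ 2 * R + τ) (some i) q γ μ hd.q2 hγ hd.m0 hd.m1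
    hmq (yf l R k) (fun σ => by
      have := yf_facts l hl0 R hR k σ
      rw [abs_of_nonneg this.1]
      exact this.2.1) hX hE T (fun t _ => by simp) hC1
    (by
      intro σ τ' hσ hτ' U hU
      have h2 := good_of (some i) q l hl0 T σ τ' U hU
      have h3 := (yf_facts l hl0 R hR k σ).2.2 hσ
      have h4 := (yf_facts l hl0 R hR k τ').2.2 hτ'
      show lt l U ≤ 2 * R + τ
      linarith)
  rw [Fintype.card_fin] at h2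
  have hsm := hd.sm T (by linarith)
  have hexp : Real.exp (((2 ^ k : ℕ) : ℝ) ^ 2 * ∑ t, μ t ^ 2 +
      5 * ((2 ^ k : ℕ) : ℝ) ^ 2 * ∑ t ∈ T, μ t) ≤
      Real.exp (6 * ((2 ^ k : ℕ) : ℝ) ^ 2 * om k C₁ ε₁) := by
    apply Real.exp_le_exp.2
    have b1 := mul_le_mul_of_nonneg_left hd.sq (sq_nonneg (((2 ^ k : ℕ) : ℝ)))
    have b2 := mul_le_mul_of_nonneg_left hsm (sq_nonneg (((2 ^ k : ℕ) : ℝ)))
    linarith
  have herr : AA (Fin (2 ^ k)) μ * (E + (Real.exp (((2 ^ k : ℕ) : ℝ) ^ 2 * ∑ t, μ t ^ 2 +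
      5 * ((2 ^ k : ℕ) : ℝ) ^ 2 * ∑ t ∈ T, μ t) - 1)) ≤
      Ab k ε₁ * (E + (Real.exp (6 * ((2 ^ k : ℕ) : ℝ) ^ 2 * om k C₁ ε₁) - 1)) := by
    apply mul_le_mul hAA (by linarith) _ (by linarith)
    have : 0 ≤ Real.exp (((2 ^ k : ℕ) : ℝ) ^ 2 * ∑ t, μ t ^ 2 +
      5 * ((2 ^ k : ℕ) : ℝ) ^ 2 * ∑ t ∈ T, μ t) - 1 := by
      have := Real.one_le_exp (show 0 ≤ ((2 ^ k : ℕ) : ℝ) ^ 2 * ∑ t, μ t ^ 2 +
        5 * ((2 ^ k : ℕ) : ℝ) ^ 2 * ∑ t ∈ T, μ t from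
        add_nonneg (mul_nonneg (sq_nonneg _) (sum_nonneg fun t _ => sq_nonneg _))
          (mul_nonneg (by positivity) (sum_nonneg fun t _ => hd.m0 t)))
      linarith
    linarith
  have h3 : |(∑ n ∈ N, ν n * (Lam (some i) q μ (yf l R k) (ξ n) ^ 2 *
      (if ∀ t ∈ T, ξ n t = some i then 1 else 0))) - X * (∏ t ∈ T, γ t) * Mt k (some i) q μ l R| ≤
      X * (∏ t ∈ T, γ t) *
      (Ab k ε₁ * (E + (Real.exp (6 * ((2 ^ k : ℕ) : ℝ) ^ 2 * om k C₁ ε₁) - 1))) :=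
    h2.trans (mul_le_mul_of_nonneg_left herr (mul_nonneg hX hg0))
  generalize (∑ n ∈ N, ν n * (Lam (some i) q μ (yf l R k) (ξ n) ^ 2 *
      (if ∀ t ∈ T, ξ n t = some i then 1 else 0))) = ST at *
  have h4 : |cL T * (ST - X * (∏ t ∈ T, γ t) * Mt k (some i) q μ l R)| ≤
      C₁ * (X * (∏ t ∈ T, γ t) *
      (Ab k ε₁ * (E + (Real.exp (6 * ((2 ^ k : ℕ) : ℝ) ^ 2 * om k C₁ ε₁) - 1)))) := by
    rw [abs_mul]
    exact mul_le_mul (hcL T) h3 (abs_nonneg _) hC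
  have h5 := (abs_le.1 h4).1
  have h6 : cL T * (ST - X * (∏ t ∈ T, γ t) * Mt k (some i) q μ l R) =
      cL T * ST - X * (cL T * ∏ t ∈ T, γ t) * Mt k (some i) q μ l R := by ring
  rw [h6] at h5
  have h7 : C₁ * (X * (∏ t ∈ T, γ t) *
      (Ab k ε₁ * (E + (Real.exp (6 * ((2 ^ k : ℕ) : ℝ) ^ 2 * om k C₁ ε₁) - 1)))) =
      X * (C₁ * ∏ t ∈ T, γ t) *
      (Ab k ε₁ * (E + (Real.exp (6 * ((2 ^ k : ℕ) : ℝ) ^ 2 * om k C₁ ε₁) - 1))) := by ring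
  rw [h7] at h5
  linarith

theorem err_num (k : ℕ) (C₁ X X₀ I Γ A E ee : ℝ) (hC : 0 ≤ C₁) (hX : 0 ≤ X) (hXX : X ≤ X₀)
    (hI : 1 ≤ I) (hE : 0 ≤ E) (hee : 0 ≤ ee) (hA : 1 ≤ A) (hΓ0 : 0 ≤ Γ) (hΓ : Γ ≤ A)
    (h1 : (1 + C₁) * A ^ 2 * E ≤ 1 / (4 * 2 ^ k))
    (h2 : (1 + C₁) * A ^ 2 * ee ≤ 1 / (8 * 2 ^ k)) :
    X * (C₁ * Γ) * (A * (E + ee)) ≤ 1 / 2 ^ k * (X₀ * I) := by
  have q1 : C₁ * Γ ≤ (1 + C₁) * A := by nlinarith
  have q2 : 0 ≤ A * (E + ee) := mul_nonneg (by linarith) (by linarith)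
  have r0 : (0 : ℝ) < 1 / 2 ^ k := by positivity
  have r2 : (1 : ℝ) / (4 * 2 ^ k) + 1 / (8 * 2 ^ k) = 3 / 8 * (1 / 2 ^ k) := by
    field_simp
    norm_num
  calc X * (C₁ * Γ) * (A * (E + ee)) ≤ X * ((1 + C₁) * A) * (A * (E + ee)) := by
        apply mul_le_mul_of_nonneg_right _ q2
        exact mul_le_mul_of_nonneg_left q1 hX
    _ = X * ((1 + C₁) * A ^ 2 * E + (1 + C₁) * A ^ 2 * ee) := by ring
    _ ≤ X * (1 / (4 * 2 ^ k) + 1 / (8 * 2 ^ k)) := by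
        apply mul_le_mul_of_nonneg_left _ hX
        linarith
    _ ≤ X * (1 / 2 ^ k) := by
        apply mul_le_mul_of_nonneg_left _ hX
        rw [r2]
        linarith
    _ ≤ 1 / 2 ^ k * (X₀ * I) := by
        have r1 : X ≤ X₀ * I := by nlinarith
        nlinarith

theorem fin_num (k m : ℕ) (Y : ℝ) (hY : 0 ≤ Y) : 2 * ((m : ℝ) + 1) / 2 ^ k * Y + 1 / 2 ^ k * Y ≤
    3 * ((m : ℝ) + 1) / 2 ^ k * Y := by
  have hp0 : (0 : ℝ) < 2 ^ k := by positivity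
  rw [← add_mul]
  apply mul_le_mul_of_nonneg_right _ hY
  rw [← add_div]
  apply div_le_div_of_nonneg_right _ hp0.le
  have hm0 : (0 : ℝ) ≤ m := Nat.cast_nonneg _
  linarith

/-- **The second sum.** -/
theorem S2_fin (k : ℕ) (C₁ R c₀ τ : ℝ) (hC : 0 ≤ C₁) (hR : 0 < R) (hc₀ : 0 < c₀) (m : ℕ)
    (hτ : τ ≤ 1)
    (hk : 3 * ((m : ℝ) + 1) * 1474560 ≤ c₀ * R * k) (ε₁ : ℝ) (hε : 0 < ε₁)
    (hε1 : ε₁ ≤ e0 k C₁ R) (w : ℝ) (q μ l : S → ℝ) (hd : Dat q μ l ε₁ R w (om k C₁ ε₁))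
    (i : Fin (2 ^ k)) (γ : S → ℝ) (hγ : ∀ t, 0 ≤ γ t) (hγμ : ∀ t, γ t ≤ μ t)
    (cL : Finset S → ℝ) (hcL : ∀ T, |cL T| ≤ C₁) (hcT : ∀ T, cL T ≠ 0 → lz l T ≤ τ)
    {N : Finset ℕ} {ν : ℕ → ℝ} {ξ : ℕ → S → Option (Fin (2 ^ k))} {X X₀ V E : ℝ} (hX : 0 ≤ X)
    (hXX : X ≤ X₀) (hV : V ≤ ∑ T, cL T * ∏ t ∈ T, γ t) (hcV : c₀ * ε₁ * X₀ ≤ X * V)
    (hE : 0 ≤ E) (hE1 : E ≤ ε₁ ^ (16 * (2 ^ k) ^ 2 + 1))
    (hC1 : Cnt N ν ξ (fun t => rd (some i) (q t) (γ t)) X E (fun T => lt l T ≤ 2 * R + τ)) :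
    2 * ((m : ℝ) + 1) / 2 ^ k * (X₀ * If μ l R k) ≤
      ∑ n ∈ N, ν n * (Lam (some i) q μ (yf l R k) (ξ n) ^ 2 *
        ∑ T, cL T * (if ∀ t ∈ T, ξ n t = some i then 1 else 0)) := by
  classical
  have hε11 : ε₁ ≤ 1 := hε1.trans (e0_le k C₁ R).2
  have hp0 : (0 : ℝ) < 2 ^ k := by positivity
  obtain ⟨o1, o2, o3, o4, o5⟩ := om_bd k C₁ ε₁ hC hε hε11
  have hA1 := Ab_one k ε₁ hε hε11
  have hEb := Ab_E k C₁ R ε₁ E hC hε hε1 hE1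
  have hX₀ : 0 ≤ X₀ := hX.trans hXX
  have hI21 : 1 ≤ ∑ a, ms μ a * Gf l R k a ^ 2 := I2_one hd hε hR k
  have hI1 : 1 ≤ If μ l R k := one_le_pow₀ hI21
  obtain ⟨hHl, hI2u, -, -, -⟩ := sums_one k C₁ R hC hR ε₁ hε hε1 w q μ l hd
  have hA1A := A1_bd k C₁ R hC hR ε₁ hε hε1 w q μ l hd
  have hMl := Mt_lower k C₁ R hC hR ε₁ hε hε1 w q μ l hd i
  have hM0 : 0 ≤ Mt k (some i) q μ l R := by
    refine le_trans ?_ hMl
    have : 0 ≤ ∑ a, ms μ a * Gf l R k a ^ 2 := by linarith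
    have h2 : 0 ≤ If μ l R k := by linarith
    exact mul_nonneg (div_nonneg (sq_nonneg _) (by linarith)) h2
  have hmain := main_num k m R c₀ ε₁ X X₀ V (Mt k (some i) q μ l R) (If μ l R k) _ _ hR hc₀ hk hε
    hI1 hI21 hX₀ hcV hHl hI2u hMl
  have hone := one_T k C₁ R τ hC hR hτ ε₁ hε hε1 w q μ l hd i γ hγ cL hcL hcT hX hE hC1
  -- the sum over the targets
  have hsum : ∑ n ∈ N, ν n * (Lam (some i) q μ (yf l R k) (ξ n) ^ 2 *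
        ∑ T, cL T * (if ∀ t ∈ T, ξ n t = some i then 1 else 0)) =
      ∑ T, cL T * (∑ n ∈ N, ν n * (Lam (some i) q μ (yf l R k) (ξ n) ^ 2 *
      (if ∀ t ∈ T, ξ n t = some i then 1 else 0))) := by
    simp_rw [mul_sum]
    rw [sum_comm]
    refine sum_congr rfl fun T _ => sum_congr rfl fun n _ => ?_
    ring
  rw [hsum]
  have h2 := sum_le_sum (s := univ) fun T _ => (hone T)
  have h3 : ∑ T : Finset S, (X * (cL T * ∏ t ∈ T, γ t) * Mt k (some i) q μ l R -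
        X * (C₁ * ∏ t ∈ T, γ t) *
        (Ab k ε₁ * (E + (Real.exp (6 * ((2 ^ k : ℕ) : ℝ) ^ 2 * om k C₁ ε₁) - 1)))) =
      X * (∑ T, cL T * ∏ t ∈ T, γ t) * Mt k (some i) q μ l R - X * (C₁ * ∏ t, (1 + γ t)) *
        (Ab k ε₁ * (E + (Real.exp (6 * ((2 ^ k : ℕ) : ℝ) ^ 2 * om k C₁ ε₁) - 1))) := by
    rw [sum_sub_distrib, ← sum_mul, ← mul_sum, ← sum_mul, ← mul_sum, ← mul_sum, prod_one_add,
      ← powerset_univ]
  rw [h3] at h2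
  refine le_trans ?_ h2
  have hΓ : ∏ t, (1 + γ t) ≤ Ab k ε₁ := by
    refine le_trans ?_ hA1A
    apply prod_le_prod
    · intro t _; linarith [hγ t]
    · intro t _; linarith [hγμ t]
  have hΓ0 : 0 ≤ ∏ t, (1 + γ t) := prod_nonneg fun t _ => by linarith [hγ t]
  have hVM : X * V * Mt k (some i) q μ l R ≤
      X * (∑ T, cL T * ∏ t ∈ T, γ t) * Mt k (some i) q μ l R := by
    apply mul_le_mul_of_nonneg_right _ hM0
    exact mul_le_mul_of_nonneg_left hV hX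
  have p2 : 0 ≤ Real.exp (6 * ((2 ^ k : ℕ) : ℝ) ^ 2 * om k C₁ ε₁) - 1 := by
    have := Real.one_le_exp (show 0 ≤ 6 * ((2 ^ k : ℕ) : ℝ) ^ 2 * om k C₁ ε₁ by positivity)
    linarith
  generalize (∏ t, (1 + γ t)) = Γ at *
  generalize (∑ T, cL T * ∏ t ∈ T, γ t) = Vs at *
  generalize If μ l R k = I at *
  generalize Mt k (some i) q μ l R = M at *
  generalize Real.exp (6 * ((2 ^ k : ℕ) : ℝ) ^ 2 * om k C₁ ε₁) - 1 = ee at *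
  have herr2 := err_num k C₁ X X₀ I Γ (Ab k ε₁) E ee hC hX hXX hI1 hE p2 hA1 hΓ0 hΓ hEb o5
  have hfin := fin_num k m (X₀ * I) (mul_nonneg hX₀ (by linarith))
  linarith

end param

end Pool.Agent.R498.MT
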