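import Pool.Agent.R498.MT.Count
import Pool.Agent.R498.MT.Param2
import Pool.Agent.Y882.MG.EngS

set_option autoImplicit false
set_option linter.unusedSectionVars false

/-! The sieving primes. -/

namespace Pool.Agent.R498.MT

open Finset Filter
open Pool.Agent.Y677.RSZ (rt)
open Pool.Agent.W23.DC
open Pool.Agent.Y882
open Pool.Agent.Y882.PX

/-- the sieving primes -/
noncomputable def Pg (G : ℤ → ℤ) (Y : ℕ) (ε₁ υ : ℝ) : Finset ℕ :=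
  (pr Y ε₁ υ).filter (fun p => rt G p ≠ 0)

/-- sizes -/
noncomputable def ls (G : ℤ → ℤ) (Y : ℕ) (ε₁ υ : ℝ) (t : Pg G Y ε₁ υ) : ℝ := tt Y t

/-- inverse densities -/
noncomputable def qs (G : ℤ → ℤ) (Y : ℕ) (ε₁ υ : ℝ) (t : Pg G Y ε₁ υ) : ℝ :=
  ((t : ℕ) : ℝ) / rt G (t : ℕ)

/-- the densities of the weights -/
noncomputable def mus (G : ℤ → ℤ) (Y : ℕ) (ε₁ υ : ℝ) (t : Pg G Y ε₁ υ) : ℝ :=
  1 / (qs G Y ε₁ υ t - 1)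

theorem Pg_mem (G : ℤ → ℤ) (Y : ℕ) (ε₁ υ : ℝ) (hY : 2 ≤ Y) (t : Pg G Y ε₁ υ) :
    (t : ℕ).Prime ∧ (Y : ℝ) ^ ε₁ ≤ (t : ℕ) ∧ ε₁ ≤ tt Y t ∧ tt Y t < υ ∧ rt G (t : ℕ) ≠ 0 := by
  have h1 := t.2
  unfold Pg at h1
  rw [mem_filter] at h1
  obtain ⟨h2, h3⟩ := h1
  obtain ⟨a1, a2, a3⟩ := pr_mem Y t ε₁ υ hY h2
  unfold pr at h2
  rw [mem_filter] at h2
  exact ⟨a1, a2, h2.2.2.1, h2.2.2.2, h3⟩

theorem sum_Pg (G : ℤ → ℤ) (Y : ℕ) (ε₁ υ : ℝ) (f : ℕ → ℝ) :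
    ∑ t : Pg G Y ε₁ υ, f (t : ℕ) = ∑ p ∈ Pg G Y ε₁ υ, f p := by
  rw [Finset.sum_coe_sort (Pg G Y ε₁ υ) f]

theorem key_t (g : ℕ) (G : ℤ → ℤ) (hg : ∀ p : ℕ, p.Prime → rt G p ≤ g) (ε₁ υ : ℝ) (Y : ℕ)
    (hY : 2 ≤ Y) (hR : (2 * g + 2 : ℝ) ≤ (Y : ℝ) ^ ε₁) (t : Pg G Y ε₁ υ) :
    2 ≤ qs G Y ε₁ υ t ∧ 0 ≤ mus G Y ε₁ υ t ∧
      mus G Y ε₁ υ t ≤ 2 * g / (t : ℕ) ∧
      0 ≤ mus G Y ε₁ υ t - (rt G (t : ℕ) : ℝ) / (t : ℕ) ∧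
      mus G Y ε₁ υ t - (rt G (t : ℕ) : ℝ) / (t : ℕ) ≤ 2 * g ^ 2 * (1 / ((t : ℕ) : ℝ) ^ 2) := by
  obtain ⟨h1, h2, -, -, h5⟩ := Pg_mem G Y ε₁ υ hY t
  have hg0 : (0 : ℝ) ≤ g := Nat.cast_nonneg g
  obtain ⟨p, hp⟩ : ∃ p : ℕ, p = (t : ℕ) := ⟨_, rfl⟩
  have hq0 : qs G Y ε₁ υ t = (p : ℝ) / rt G p := by unfold qs; rw [← hp]
  have hm0 : mus G Y ε₁ υ t = 1 / ((p : ℝ) / rt G p - 1) := by unfold mus; rw [hq0]
  rw [← hp] at h1 h2 h5 ⊢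
  have hρ := hg p h1
  have hρr : (rt G p : ℝ) ≤ g := by exact_mod_cast hρ
  have hρ0 : (0 : ℝ) < rt G p := by exact_mod_cast Nat.pos_of_ne_zero h5
  have hp2 : (2 * g + 2 : ℝ) ≤ p := hR.trans h2
  have hp0 : (0 : ℝ) < p := by linarith
  have hd : (p : ℝ) / 2 ≤ p - rt G p := by linarith
  have hd0 : (0 : ℝ) < p - rt G p := by linarith
  have hμ : mus G Y ε₁ υ t = rt G p / (p - rt G p) := by
    rw [hm0]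
    have : (p : ℝ) - rt G p ≠ 0 := by linarith
    field_simp
  refine ⟨?_, ?_, ?_, ?_, ?_⟩
  · rw [hq0, le_div_iff₀ hρ0]
    linarith
  · rw [hμ]; positivity
  · rw [hμ, div_le_div_iff₀ hd0 hp0]
    nlinarith
  · rw [hμ, sub_nonneg]
    apply div_le_div_of_nonneg_left hρ0.le hd0
    linarith
  · rw [hμ]
    have e : (rt G p : ℝ) / (p - rt G p) - rt G p / p = rt G p ^ 2 / (p * (p - rt G p)) := by
      rw [div_sub_div _ _ hd0.ne' hp0.ne']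
      congr 1
      · ring
      · ring
    rw [e, mul_one_div, div_le_div_iff₀ (by positivity) (by positivity)]
    have h6 : (rt G p : ℝ) ^ 2 ≤ g ^ 2 := pow_le_pow_left₀ hρ0.le hρr 2
    have h7 : (p : ℝ) ^ 2 ≤ 2 * (p * (p - rt G p)) := by nlinarith
    calc (rt G p : ℝ) ^ 2 * (p : ℝ) ^ 2 ≤ g ^ 2 * (2 * (p * (p - rt G p))) := by gcongr
      _ = _ := by ring

theorem tail_t (G : ℤ → ℤ) (ε₁ υ : ℝ) (Y : ℕ) (hY : 2 ≤ Y) (hR : (2 : ℝ) ≤ (Y : ℝ) ^ ε₁)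
    (s : Finset (Pg G Y ε₁ υ)) : ∑ t ∈ s, 1 / ((t : ℕ) : ℝ) ^ 2 ≤ 2 / (Y : ℝ) ^ ε₁ := by
  calc ∑ t ∈ s, 1 / ((t : ℕ) : ℝ) ^ 2 ≤ ∑ t : Pg G Y ε₁ υ, 1 / ((t : ℕ) : ℝ) ^ 2 :=
        sum_le_sum_of_subset_of_nonneg (subset_univ _) (fun _ _ _ => by positivity)
    _ = ∑ p ∈ Pg G Y ε₁ υ, 1 / (p : ℝ) ^ 2 := sum_Pg G Y ε₁ υ (fun p => 1 / (p : ℝ) ^ 2)
    _ ≤ 2 / (Y : ℝ) ^ ε₁ := by
        apply Pool.Agent.Y882.MG.tail_sq _ _ hR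
        intro p hp
        exact (Pg_mem G Y ε₁ υ hY ⟨p, hp⟩).2.1

theorem mer_t (g : ℕ) (G : ℤ → ℤ) (hg : ∀ p : ℕ, p.Prime → rt G p ≤ g) (ε₁ υ : ℝ) (Y : ℕ)
    (hY : 2 ≤ Y) (hR : (2 * g + 2 : ℝ) ≤ (Y : ℝ) ^ ε₁) (hR2 : (320 * g ^ 2 : ℝ) ≤ (Y : ℝ) ^ ε₁)
    (hM : Mer (pr Y ε₁ υ) (tt Y) (fun p => (rt G p : ℝ) / p) ε₁ υ (1 / 40)) :
    MerS (ls G Y ε₁ υ) (mus G Y ε₁ υ) ε₁ υ (1 / 20) := by
  classical
  intro a b ha hab hb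
  have hg0 : (0 : ℝ) ≤ g := Nat.cast_nonneg g
  have h1 := hM a b ha hab hb
  have hR00 : 0 < (Y : ℝ) ^ ε₁ := by linarith
  have h2 : ∑ p ∈ (pr Y ε₁ υ).filter (fun p => a ≤ tt Y p ∧ tt Y p < b), (rt G p : ℝ) / p =
      ∑ t ∈ univ.filter (fun t : Pg G Y ε₁ υ => a ≤ ls G Y ε₁ υ t ∧ ls G Y ε₁ υ t < b),
        (rt G (t : ℕ) : ℝ) / (t : ℕ) := by
    rw [sum_filter, sum_filter]
    have h3 := sum_Pg G Y ε₁ υ (fun p => if a ≤ tt Y p ∧ tt Y p < b then (rt G p : ℝ) / p else 0)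
    unfold ls
    rw [h3]
    symm
    unfold Pg
    apply sum_subset (filter_subset _ _)
    intro p hp hp'
    have : rt G p = 0 := by
      by_contra h
      exact hp' (mem_filter.2 ⟨hp, h⟩)
    rw [this]
    simp
  rw [h2] at h1
  have h4 : ∑ t ∈ univ.filter (fun t : Pg G Y ε₁ υ => a ≤ ls G Y ε₁ υ t ∧ ls G Y ε₁ υ t < b),
      (mus G Y ε₁ υ t - (rt G (t : ℕ) : ℝ) / (t : ℕ)) ≤ 1 / 40 := by
    calc _ ≤ ∑ t ∈ univ.filter (fun t : Pg G Y ε₁ υ => a ≤ ls G Y ε₁ υ t ∧ ls G Y ε₁ υ t < b),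
          2 * (g : ℝ) ^ 2 * (1 / ((t : ℕ) : ℝ) ^ 2) :=
          sum_le_sum fun t _ => (key_t g G hg ε₁ υ Y hY hR t).2.2.2.2
      _ ≤ 2 * (g : ℝ) ^ 2 * (2 / (Y : ℝ) ^ ε₁) := by
          rw [← mul_sum]
          exact mul_le_mul_of_nonneg_left (tail_t G ε₁ υ Y hY (by linarith) _) (by positivity)
      _ ≤ 1 / 40 := by
          rw [mul_div_assoc', div_le_div_iff₀ hR00 (by norm_num)]
          linarith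
  have h5 : 0 ≤ ∑ t ∈ univ.filter (fun t : Pg G Y ε₁ υ => a ≤ ls G Y ε₁ υ t ∧ ls G Y ε₁ υ t < b),
      (mus G Y ε₁ υ t - (rt G (t : ℕ) : ℝ) / (t : ℕ)) :=
    sum_nonneg fun t _ => (key_t g G hg ε₁ υ Y hY hR t).2.2.2.1
  rw [sum_sub_distrib] at h4 h5
  rw [abs_le] at h1 ⊢
  constructor <;> linarith [h1.1, h1.2]

theorem sq_t (g : ℕ) (G : ℤ → ℤ) (hg : ∀ p : ℕ, p.Prime → rt G p ≤ g) (ε₁ υ ω : ℝ) (Y : ℕ)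
    (hY : 2 ≤ Y) (hω : 0 < ω) (hR : (2 * g + 2 : ℝ) ≤ (Y : ℝ) ^ ε₁)
    (hR2 : (8 * g ^ 2 / ω : ℝ) ≤ (Y : ℝ) ^ ε₁) : ∑ t, mus G Y ε₁ υ t ^ 2 ≤ ω := by
  have hg0 : (0 : ℝ) ≤ g := Nat.cast_nonneg g
  have hR00 : 0 < (Y : ℝ) ^ ε₁ := by linarith
  calc ∑ t, mus G Y ε₁ υ t ^ 2 ≤ ∑ t : Pg G Y ε₁ υ, 4 * (g : ℝ) ^ 2 * (1 / ((t : ℕ) : ℝ) ^ 2) := by
        apply sum_le_sum
        intro t _
        have h1 := (key_t g G hg ε₁ υ Y hY hR t).2.2.1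
        have h2 := pow_le_pow_left₀ (key_t g G hg ε₁ υ Y hY hR t).2.1 h1 2
        refine h2.trans (le_of_eq ?_)
        rw [div_pow]
        ring
    _ ≤ 4 * (g : ℝ) ^ 2 * (2 / (Y : ℝ) ^ ε₁) := by
        rw [← mul_sum]
        apply mul_le_mul_of_nonneg_left _ (by positivity)
        exact tail_t G ε₁ υ Y hY (by linarith) univ
    _ ≤ ω := by
        rw [mul_div_assoc', div_le_iff₀ hR00]
        rw [div_le_iff₀ hω] at hR2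
        linarith

theorem sm_t (g : ℕ) (G : ℤ → ℤ) (hg : ∀ p : ℕ, p.Prime → rt G p ≤ g) (ε₁ υ ω : ℝ) (Y : ℕ)
    (hε : 0 < ε₁)
    (hY : 2 ≤ Y) (hω : 0 < ω) (hR : (2 * g + 2 : ℝ) ≤ (Y : ℝ) ^ ε₁)
    (hR2 : (2 * g / (ε₁ * ω) : ℝ) ≤ (Y : ℝ) ^ ε₁) (a : Finset (Pg G Y ε₁ υ))
    (ha : lz (ls G Y ε₁ υ) a ≤ 1) : ∑ t ∈ a, mus G Y ε₁ υ t ≤ ω := by
  have hg0 : (0 : ℝ) ≤ g := Nat.cast_nonneg g
  have hR00 : 0 < (Y : ℝ) ^ ε₁ := by linarith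
  have h1 : (a.card : ℝ) * ε₁ ≤ 1 := by
    refine le_trans ?_ ha
    unfold lz
    rw [← nsmul_eq_mul]
    exact card_nsmul_le_sum a _ ε₁ (fun t _ => (Pg_mem G Y ε₁ υ hY t).2.2.1)
  calc ∑ t ∈ a, mus G Y ε₁ υ t ≤ ∑ _t ∈ a, 2 * (g : ℝ) / (Y : ℝ) ^ ε₁ := by
        apply sum_le_sum
        intro t _
        refine (key_t g G hg ε₁ υ Y hY hR t).2.2.1.trans ?_
        apply div_le_div_of_nonneg_left (by positivity) hR00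
        exact (Pg_mem G Y ε₁ υ hY t).2.1
    _ = a.card * (2 * (g : ℝ) / (Y : ℝ) ^ ε₁) := by rw [sum_const, nsmul_eq_mul]
    _ ≤ ω := by
        rw [div_le_iff₀ (by positivity)] at hR2
        rw [mul_div_assoc', div_le_iff₀ hR00]
        have h2 : (a.card : ℝ) * (2 * g) * ε₁ ≤ 2 * g := by
          calc (a.card : ℝ) * (2 * g) * ε₁ = (a.card * ε₁) * (2 * g) := by ring
            _ ≤ 1 * (2 * g) := mul_le_mul_of_nonneg_right h1 (by positivity)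
            _ = _ := by ring
        have h3 : (a.card : ℝ) * (2 * g) * ε₁ ≤ (ω * (Y : ℝ) ^ ε₁) * ε₁ := by
          refine h2.trans (hR2.trans (le_of_eq ?_))
          ring
        exact le_of_mul_le_mul_right h3 hε

theorem dat_of (g : ℕ) (G : ℤ → ℤ) (hg : ∀ p : ℕ, p.Prime → rt G p ≤ g) (ε₁ υ R ω : ℝ)
    (hε : 0 < ε₁) (hR : R ≤ υ) (hυ : υ ≤ 1) (hω : 0 < ω)
    (hM : ∃ Y0 : ℕ, ∀ Y : ℕ, Y0 ≤ Y →
      Mer (pr Y ε₁ υ) (tt Y) (fun p => (rt G p : ℝ) / p) ε₁ υ (1 / 40)) :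
    ∃ Y0 : ℕ, ∀ Y : ℕ, Y0 ≤ Y →
      Dat (qs G Y ε₁ υ) (mus G Y ε₁ υ) (ls G Y ε₁ υ) ε₁ R υ ω := by
  obtain ⟨Y1, hM⟩ := hM
  have ev1 : ∀ᶠ Y : ℕ in atTop, (2 * g + 2 : ℝ) + 320 * g ^ 2 + 8 * g ^ 2 / ω + 2 * g / (ε₁ * ω) ≤
      (Y : ℝ) ^ ε₁ :=
    ((tendsto_rpow_atTop hε).comp tendsto_natCast_atTop_atTop).eventually_ge_atTop _
  obtain ⟨Y2, hY2⟩ := eventually_atTop.1 (ev1.and (eventually_ge_atTop 2))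
  refine ⟨max Y1 Y2, fun Y hY => ?_⟩
  obtain ⟨e1, e2⟩ := hY2 Y ((le_max_right _ _).trans hY)
  have hM := hM Y ((le_max_left _ _).trans hY)
  have hg0 : (0 : ℝ) ≤ g := Nat.cast_nonneg g
  have p1 : (0 : ℝ) ≤ 320 * g ^ 2 := by positivity
  have p2 : (0 : ℝ) ≤ 8 * g ^ 2 / ω := by positivity
  have p3 : (0 : ℝ) ≤ 2 * g / (ε₁ * ω) := by positivity
  have hR1 : (2 * g + 2 : ℝ) ≤ (Y : ℝ) ^ ε₁ := by linarith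
  have key := key_t g G hg ε₁ υ Y e2 hR1
  exact {
    q2 := fun t => (key t).1
    m0 := fun t => (key t).2.1
    m1 := fun t => by
      have h1 := (key t).1
      unfold mus
      rw [div_le_one (by linarith)]
      linarith
    mq := fun t => by
      right
      have h1 := (key t).1
      unfold mus
      rw [one_div, inv_mul_cancel₀]
      linarith
    l1 := fun t => (Pg_mem G Y ε₁ υ e2 t).2.2.1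
    lw := fun t => (Pg_mem G Y ε₁ υ e2 t).2.2.2.1
    Rw := hR
    w1 := hυ
    mer := mer_t g G hg ε₁ υ Y e2 hR1 (by linarith) hM
    sq := sq_t g G hg ε₁ υ ω Y e2 hω hR1 (by linarith)
    sm := fun a ha => sm_t g G hg ε₁ υ ω Y hε e2 hω hR1 (by linarith) a ha }

end Pool.Agent.R498.MT
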