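import Pool.Agent.R498.MT.Main2

set_option autoImplicit false
set_option linter.unusedSectionVars false

/-! The errors. -/

namespace Pool.Agent.R498.MT

open Finset

section err
variable {S J : Type} [Fintype S] [DecidableEq S] [Fintype J] [DecidableEq J]

theorem qf_diff (μ : S → ℝ) (y : (S → Option J) → ℝ) (hy : ∀ σ, |y σ| ≤ 1)
    (U V W : S → Option J → Option J → ℝ) (hW : ∀ t a b, |U t a b - V t a b| ≤ W t a b)
    (hα : ∀ t, 1 ≤ ∑ a, ∑ b, |cf (μ t) a| * |cf (μ t) b| * |V t a b|)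
    (w : S → ℝ) (hw : ∀ t, ∑ a, ∑ b, |cf (μ t) a| * |cf (μ t) b| * W t a b ≤ w t)
    (A : ℝ) (hA : ∏ t, ∑ a, ∑ b, |cf (μ t) a| * |cf (μ t) b| * |V t a b| ≤ A) :
    |∑ σ, ∑ τ, cw μ y σ * cw μ y τ * ∏ t, U t (σ t) (τ t) -
      ∑ σ, ∑ τ, cw μ y σ * cw μ y τ * ∏ t, V t (σ t) (τ t)| ≤
    A * (Real.exp (∑ t, w t) - 1) := by
  have hW0 : ∀ t a b, 0 ≤ W t a b := fun t a b => (abs_nonneg _).trans (hW t a b)
  have h1 : ∀ σ τ : S → Option J, |cw μ y σ * cw μ y τ * ∏ t, U t (σ t) (τ t) -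
      cw μ y σ * cw μ y τ * ∏ t, V t (σ t) (τ t)| ≤
      ∏ t, (|cf (μ t) (σ t)| * |cf (μ t) (τ t)| * (|V t (σ t) (τ t)| + W t (σ t) (τ t))) -
      ∏ t, (|cf (μ t) (σ t)| * |cf (μ t) (τ t)| * |V t (σ t) (τ t)|) := by
    intro σ τ
    rw [← mul_sub, abs_mul]
    have h2 : |cw μ y σ * cw μ y τ| ≤ ∏ t, (|cf (μ t) (σ t)| * |cf (μ t) (τ t)|) := by
      unfold cw
      rw [abs_mul, abs_mul, abs_mul, abs_prod, abs_prod, prod_mul_distrib]
      have p1 : 0 ≤ ∏ t, |cf (μ t) (σ t)| := prod_nonneg fun _ _ => abs_nonneg _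
      have p2 : 0 ≤ ∏ t, |cf (μ t) (τ t)| := prod_nonneg fun _ _ => abs_nonneg _
      have p3 := hy σ
      have p4 := hy τ
      calc (∏ t, |cf (μ t) (σ t)|) * |y σ| * ((∏ t, |cf (μ t) (τ t)|) * |y τ|) ≤
          (∏ t, |cf (μ t) (σ t)|) * 1 * ((∏ t, |cf (μ t) (τ t)|) * 1) := by
            gcongr
        _ = _ := by ring
    have h3 := prod_sub_le univ (fun t => U t (σ t) (τ t)) (fun t => V t (σ t) (τ t))
      (fun t => W t (σ t) (τ t)) (fun t _ => hW t _ _)
    calc _ ≤ (∏ t, (|cf (μ t) (σ t)| * |cf (μ t) (τ t)|)) *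
          (∏ t, (|V t (σ t) (τ t)| + W t (σ t) (τ t)) - ∏ t, |V t (σ t) (τ t)|) :=
          mul_le_mul h2 h3 (abs_nonneg _)
            (prod_nonneg fun _ _ => mul_nonneg (abs_nonneg _) (abs_nonneg _))
      _ = _ := by
          rw [mul_sub, ← prod_mul_distrib, ← prod_mul_distrib]
  have h4 : |∑ σ, ∑ τ, cw μ y σ * cw μ y τ * ∏ t, U t (σ t) (τ t) -
      ∑ σ, ∑ τ, cw μ y σ * cw μ y τ * ∏ t, V t (σ t) (τ t)| ≤
      ∏ t, (∑ a, ∑ b, |cf (μ t) a| * |cf (μ t) b| * (|V t a b| + W t a b)) -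
      ∏ t, (∑ a, ∑ b, |cf (μ t) a| * |cf (μ t) b| * |V t a b|) := by
    rw [← sum_prod2 (fun t a b => |cf (μ t) a| * |cf (μ t) b| * (|V t a b| + W t a b)),
      ← sum_prod2 (fun t a b => |cf (μ t) a| * |cf (μ t) b| * |V t a b|),
      ← sum_sub_distrib, ← sum_sub_distrib]
    refine (abs_sum_le_sum_abs _ _).trans (sum_le_sum fun σ _ => ?_)
    rw [← sum_sub_distrib, ← sum_sub_distrib]
    exact (abs_sum_le_sum_abs _ _).trans (sum_le_sum fun τ _ => h1 σ τ)
  refine h4.trans ?_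
  have h5 : ∀ t, ∑ a, ∑ b, |cf (μ t) a| * |cf (μ t) b| * (|V t a b| + W t a b) =
      (∑ a, ∑ b, |cf (μ t) a| * |cf (μ t) b| * |V t a b|) +
      ∑ a, ∑ b, |cf (μ t) a| * |cf (μ t) b| * W t a b := by
    intro t
    simp_rw [mul_add, sum_add_distrib]
  rw [prod_congr rfl (fun t _ => h5 t)]
  have hw0 : ∀ t, 0 ≤ ∑ a, ∑ b, |cf (μ t) a| * |cf (μ t) b| * W t a b := fun t =>
    sum_nonneg fun a _ => sum_nonneg fun b _ =>
      mul_nonneg (mul_nonneg (abs_nonneg _) (abs_nonneg _)) (hW0 t a b)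
  have h6 := prod_add_sub_le univ (fun t => ∑ a, ∑ b, |cf (μ t) a| * |cf (μ t) b| * |V t a b|)
    (fun t => ∑ a, ∑ b, |cf (μ t) a| * |cf (μ t) b| * W t a b) (fun t _ => hα t) (fun t _ => hw0 t)
  refine h6.trans ?_
  have h7 : Real.exp (∑ t, ∑ a, ∑ b, |cf (μ t) a| * |cf (μ t) b| * W t a b) - 1 ≤
      Real.exp (∑ t, w t) - 1 := by
    have := Real.exp_le_exp.2 (sum_le_sum (s := univ) fun t _ => hw t)
    linarith
  have h8 : 0 ≤ Real.exp (∑ t, ∑ a, ∑ b, |cf (μ t) a| * |cf (μ t) b| * W t a b) - 1 := by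
    have := Real.one_le_exp (sum_nonneg (s := univ) fun t _ => hw0 t)
    linarith
  exact mul_le_mul hA h7 h8 (le_trans (prod_nonneg fun t _ => by linarith [hα t]) hA)

theorem HH_VM_none (i : Option J) (q : ℝ) (hq : 2 ≤ q) (a b : Option J) :
    |HH i q false a b - VM i q a b| ≤ (match a, b with
      | some _, some _ => 1
      | _, _ => 0) := by
  rcases a with _ | j
  · rcases b with _ | k
    · simp [HH, GG, VM]
    · by_cases hk : i = some k <;> simp [HH, GG, VM, hk]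
  · rcases b with _ | k
    · by_cases hj : i = some j <;> simp [HH, GG, VM, hj]
    · simp only [HH, GG, VM, Bool.false_eq_true, if_false]
      by_cases hj : i = some j
      · by_cases hk : i = some k
        · simp only [if_pos hj, if_pos hk, sub_self, abs_zero]; norm_num
        · simp only [if_pos hj, if_neg hk, sub_self, abs_zero]; norm_num
      · by_cases hk : i = some k
        · have hjk : j ≠ k := by rintro rfl; exact hj hk
          simp only [if_neg hj, if_pos hk, if_neg hjk, sub_self, abs_zero]; norm_num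
        · by_cases hjk : j = k
          · simp only [if_neg hj, if_neg hk, if_pos hjk, sub_self, abs_zero]; norm_num
          · simp only [if_neg hj, if_neg hk, if_neg hjk]; norm_num

theorem HH_VM_tgt (i : J) (q : ℝ) (hq : 2 ≤ q) (a b : Option J) :
    |HH (some i) q true a b - VM (some i) q a b| ≤ (match a, b with
      | none, none => 0
      | some j, some k => (if j = k then q else 0) + 1
      | _, _ => 1) := by
  rcases a with _ | j
  · rcases b with _ | k
    · simp [HH, sg, VM]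
    · simp only [HH, sg, VM, if_true]
      split_ifs <;> norm_num
  · rcases b with _ | k
    · simp only [HH, sg, VM, if_true]
      split_ifs <;> norm_num
    · simp only [HH, sg, VM, if_true, Option.some.injEq]
      by_cases hij : i = j
      · by_cases hik : i = k
        · have hjk : j = k := hij.symm.trans hik
          simp only [if_pos hij, if_pos hik, if_pos hjk]
          norm_num
          linarith
        · have hjk : ¬ j = k := fun h => hik (hij.trans h)
          simp only [if_pos hij, if_neg hik, if_neg hjk]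
          norm_num
      · by_cases hjk : j = k
        · simp only [if_neg hij, if_pos hjk]
          rw [abs_le]
          constructor <;> linarith
        · simp only [if_neg hij, if_neg hjk]
          norm_num

theorem VM_abs (i : Option J) (q : ℝ) (hq : 2 ≤ q) (a b : Option J) :
    |VM i q a b| ≤ (match a, b with
      | some j, some k => (if j = k then q - 1 else 0) + 1
      | _, _ => 1) := by
  rcases a with _ | j
  · rcases b with _ | k
    · simp [VM]
    · simp only [VM]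
      split_ifs <;> norm_num
  · rcases b with _ | k
    · simp only [VM]
      split_ifs <;> norm_num
    · simp only [VM]
      split_ifs
      · norm_num
        linarith
      · norm_num
      · norm_num
        linarith
      · norm_num
      · rw [abs_of_nonneg (by linarith)]
        linarith
      · norm_num

/-- the constant of the errors -/
noncomputable def AA (J : Type) [Fintype J] (μ : S → ℝ) : ℝ :=
  ∏ t, (1 + 8 * (Fintype.card J : ℝ) ^ 2 * μ t)

theorem alpha_bd [Nonempty J] (i : Option J) (q μ : ℝ) (hq : 2 ≤ q) (hμ : 0 ≤ μ) (hμ1 : μ ≤ 1)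
    (hμq : μ * (q - 1) ≤ 1) :
    1 ≤ ∑ a, ∑ b, |cf μ a| * |cf μ b| * |VM i q a b| ∧
    ∑ a, ∑ b, |cf μ a| * |cf μ b| * |VM i q a b| ≤ 1 + 8 * (Fintype.card J : ℝ) ^ 2 * μ := by
  have hK : (1 : ℝ) ≤ Fintype.card J := by exact_mod_cast Fintype.card_pos
  constructor
  · have h1 : |cf μ (none : Option J)| * |cf μ (none : Option J)| * |VM i q none none| = 1 := by
      simp [cf, VM]
    rw [← h1]
    refine le_trans ?_ (single_le_sum (f := fun a => ∑ b, |cf μ a| * |cf μ b| * |VM i q a b|)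
      (fun a _ => sum_nonneg fun b _ =>
        mul_nonneg (mul_nonneg (abs_nonneg _) (abs_nonneg _)) (abs_nonneg _)) (mem_univ none))
    exact single_le_sum (f := fun b => |cf μ (none : Option J)| * |cf μ b| * |VM i q none b|)
      (fun b _ => mul_nonneg (mul_nonneg (abs_nonneg _) (abs_nonneg _)) (abs_nonneg _))
      (mem_univ none)
  · refine (cf_sum_le μ hμ (fun a b => |VM i q a b|) 1 1 (q - 1) 1 (VM_abs i q hq none none)
      (fun k => VM_abs i q hq none (some k)) (fun j => VM_abs i q hq (some j) none)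
      (fun j k => VM_abs i q hq (some j) (some k))).trans ?_
    set K : ℝ := (Fintype.card J : ℝ)
    have h1 : μ ^ 2 * (K * (q - 1)) ≤ K * μ := by
      have : μ ^ 2 * (K * (q - 1)) = K * μ * (μ * (q - 1)) := by ring
      rw [this]
      have h2 : 0 ≤ K * μ := by positivity
      nlinarith
    have h3 : μ ^ 2 * (K ^ 2 * 1) ≤ K ^ 2 * μ := by
      have h4 : μ ^ 2 ≤ μ := by nlinarith
      have h5 : 0 ≤ K ^ 2 := by positivity
      nlinarith
    have h6 : K * μ ≤ K ^ 2 * μ := by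
      apply mul_le_mul_of_nonneg_right _ hμ
      nlinarith
    nlinarith

theorem norm_bd [Nonempty J] (q μ : ℝ) (hq : 2 ≤ q) (hμ : 0 ≤ μ) (hμ1 : μ ≤ 1)
    (hμq : μ * (q - 1) ≤ 1) (tgt : Bool) :
    ∑ a : Option J, ∑ b : Option J, |cf μ a| * |cf μ b| * NM q tgt a b ≤
      1 + 8 * (Fintype.card J : ℝ) ^ 2 * μ := by
  have hK : (1 : ℝ) ≤ Fintype.card J := by exact_mod_cast Fintype.card_pos
  refine (cf_sum_le μ hμ (fun a b => NM q tgt a b) 1 2 (q - 1) 3 ?_ ?_ ?_ ?_).trans ?_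
  · cases tgt <;> simp [NM, NN]
  · intro k; cases tgt <;> simp [NM, NN]
  · intro k; cases tgt <;> simp [NM, NN]
  · intro j k
    cases tgt
    · simp only [NM, NN, Bool.false_eq_true, if_false]
      split_ifs <;> linarith
    · simp only [NM, if_true]
      split_ifs <;> linarith
  · set K : ℝ := (Fintype.card J : ℝ)
    have h1 : μ ^ 2 * (K * (q - 1)) ≤ K * μ := by
      have : μ ^ 2 * (K * (q - 1)) = K * μ * (μ * (q - 1)) := by ring
      rw [this]
      have h2 : 0 ≤ K * μ := by positivity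
      nlinarith
    have h3 : μ ^ 2 * (K ^ 2 * 3) ≤ 3 * (K ^ 2 * μ) := by
      have h4 : μ ^ 2 ≤ μ := by nlinarith
      have h5 : 0 ≤ K ^ 2 := by positivity
      nlinarith
    have h6 : K * μ ≤ K ^ 2 * μ := by
      apply mul_le_mul_of_nonneg_right _ hμ
      nlinarith
    nlinarith

theorem w_bd [Nonempty J] (i : Option J) (q μ : ℝ) (hq : 2 ≤ q) (hμ : 0 ≤ μ) (hμ1 : μ ≤ 1)
    (hμq : μ * (q - 1) ≤ 1) (tgt : Bool) (ht : tgt = true → i ≠ none) :
    ∑ a, ∑ b, |cf μ a| * |cf μ b| * |HH i q tgt a b - VM i q a b| ≤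
      (Fintype.card J : ℝ) ^ 2 * μ ^ 2 + (if tgt then 5 * (Fintype.card J : ℝ) ^ 2 * μ else 0) := by
  have hK : (1 : ℝ) ≤ Fintype.card J := by exact_mod_cast Fintype.card_pos
  cases tgt
  · refine (cf_sum_le μ hμ (fun a b => |HH i q false a b - VM i q a b|) 0 0 0 1
      (HH_VM_none i q hq none none) (fun k => HH_VM_none i q hq none (some k))
      (fun j => HH_VM_none i q hq (some j) none) ?_).trans ?_
    · intro j k
      refine (HH_VM_none i q hq (some j) (some k)).trans ?_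
      split_ifs <;> norm_num
    · simp only [Bool.false_eq_true, if_false]
      apply le_of_eq
      ring
  · rcases i with _ | i
    · exact absurd rfl (ht rfl)
    refine (cf_sum_le μ hμ (fun a b => |HH (some i) q true a b - VM (some i) q a b|) 0 1 q 1
      (HH_VM_tgt i q hq none none) (fun k => HH_VM_tgt i q hq none (some k))
      (fun j => HH_VM_tgt i q hq (some j) none)
      (fun j k => HH_VM_tgt i q hq (some j) (some k))).trans ?_
    simp only [if_true]
    set K : ℝ := (Fintype.card J : ℝ)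
    have h0 : μ ^ 2 * q ≤ 2 * μ := by
      have e : μ ^ 2 * q = μ * (μ * (q - 1)) + μ ^ 2 := by ring
      rw [e]
      have h4 : μ ^ 2 ≤ μ := by nlinarith
      nlinarith
    have h1 : μ ^ 2 * (K * q) ≤ 2 * (K * μ) := by
      have : μ ^ 2 * (K * q) = K * (μ ^ 2 * q) := by ring
      rw [this]
      have : K * (μ ^ 2 * q) ≤ K * (2 * μ) := mul_le_mul_of_nonneg_left h0 (by linarith)
      linarith
    have h6 : K * μ ≤ K ^ 2 * μ := by
      apply mul_le_mul_of_nonneg_right _ hμ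
      nlinarith
    nlinarith

theorem AA_ge (K : ℕ) (μ : S → ℝ) (hμ : ∀ t, 0 ≤ μ t) (s : Finset S) (g : S → ℝ)
    (hg0 : ∀ t, 0 ≤ g t) (hg : ∀ t, g t ≤ 1 + 8 * (K : ℝ) ^ 2 * μ t) (hs : s = univ) :
    ∏ t ∈ s, g t ≤ ∏ t, (1 + 8 * (K : ℝ) ^ 2 * μ t) := by
  subst hs
  exact prod_le_prod (fun t _ => hg0 t) (fun t _ => hg t)

/-- **One set of targets.** -/
theorem one_target [Nonempty J] {N : Finset ℕ} {ν : ℕ → ℝ} {ξ : ℕ → S → Option J} {X E : ℝ}
    {Good : (S → Option J) → Prop} (i : Option J) (q γ μ : S → ℝ) (hq : ∀ t, 2 ≤ q t)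
    (hγ : ∀ t, 0 ≤ γ t) (hμ : ∀ t, 0 ≤ μ t) (hμ1 : ∀ t, μ t ≤ 1) (hμq : ∀ t, μ t * (q t - 1) ≤ 1)
    (y : (S → Option J) → ℝ) (hy : ∀ σ, |y σ| ≤ 1)
    (hX : 0 ≤ X) (hE : 0 ≤ E) (T : Finset S) (hT : ∀ t ∈ T, i ≠ none)
    (hC : Cnt N ν ξ (fun t => rd i (q t) (γ t)) X E Good)
    (hG : ∀ σ τ, y σ ≠ 0 → y τ ≠ 0 → ∀ U : S → Option J,
      (∀ t, co (lc2 i (q t) (decide (t ∈ T)) (σ t) (τ t)) (U t) ≠ 0) → Good U) :
    |∑ n ∈ N, ν n * (Lam i q μ y (ξ n) ^ 2 * (if ∀ t ∈ T, ξ n t = i then 1 else 0)) -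
      X * (∏ t ∈ T, γ t) * ∑ σ, ∑ τ, cw μ y σ * cw μ y τ * ∏ t, VM i (q t) (σ t) (τ t)| ≤
    X * (∏ t ∈ T, γ t) * (AA J μ * (E + (Real.exp ((Fintype.card J : ℝ) ^ 2 * ∑ t, μ t ^ 2 +
      5 * (Fintype.card J : ℝ) ^ 2 * ∑ t ∈ T, μ t) - 1))) := by
  have h1 := quad_real i q γ μ hq hγ y hy hX hE T hT hC hG
  have hg0 : 0 ≤ ∏ t ∈ T, γ t := prod_nonneg fun t _ => hγ t
  have h2 := qf_diff μ y hy (fun t a b => HH i (q t) (decide (t ∈ T)) a b)
    (fun t a b => VM i (q t) a b)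
    (fun t a b => |HH i (q t) (decide (t ∈ T)) a b - VM i (q t) a b|) (fun t a b => le_rfl)
    (fun t => (alpha_bd i (q t) (μ t) (hq t) (hμ t) (hμ1 t) (hμq t)).1)
    (fun t => (Fintype.card J : ℝ) ^ 2 * μ t ^ 2 +
      (if decide (t ∈ T) then 5 * (Fintype.card J : ℝ) ^ 2 * μ t else 0))
    (fun t => w_bd i (q t) (μ t) (hq t) (hμ t) (hμ1 t) (hμq t) _
      (fun h => hT t (by simpa using h))) (AA J μ)
    (prod_le_prod (fun t _ => by
      linarith [(alpha_bd i (q t) (μ t) (hq t) (hμ t) (hμ1 t) (hμq t)).1])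
      (fun t _ => (alpha_bd i (q t) (μ t) (hq t) (hμ t) (hμ1 t) (hμq t)).2))
  have h3 : ∑ t, ((Fintype.card J : ℝ) ^ 2 * μ t ^ 2 +
      (if decide (t ∈ T) then 5 * (Fintype.card J : ℝ) ^ 2 * μ t else 0)) =
      (Fintype.card J : ℝ) ^ 2 * ∑ t, μ t ^ 2 + 5 * (Fintype.card J : ℝ) ^ 2 * ∑ t ∈ T, μ t := by
    rw [sum_add_distrib, ← mul_sum]
    congr 1
    simp only [decide_eq_true_eq]
    rw [sum_ite_mem]
    simp [mul_sum]
  rw [h3] at h2
  have h4 : ∏ t, ∑ a : Option J, ∑ b : Option J,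
      |cf (μ t) a| * |cf (μ t) b| * NM (q t) (decide (t ∈ T)) a b ≤ AA J μ := by
    apply prod_le_prod
    · intro t _
      apply sum_nonneg
      intro a _
      apply sum_nonneg
      intro b _
      apply mul_nonneg (mul_nonneg (abs_nonneg _) (abs_nonneg _))
      unfold NM NN
      have := hq t
      split_ifs
      · norm_num
      · split <;> try split_ifs
        all_goals linarith
    · intro t _
      exact norm_bd (q t) (μ t) (hq t) (hμ t) (hμ1 t) (hμq t) _
  have h5 : E * X * (∏ t ∈ T, γ t) * ∏ t, ∑ a : Option J, ∑ b : Option J,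
      |cf (μ t) a| * |cf (μ t) b| * NM (q t) (decide (t ∈ T)) a b ≤
      E * X * (∏ t ∈ T, γ t) * AA J μ :=
    mul_le_mul_of_nonneg_left h4 (mul_nonneg (mul_nonneg hE hX) hg0)
  have h6 := h1.trans h5
  rw [abs_le] at h6 h2 ⊢
  have hXg : 0 ≤ X * ∏ t ∈ T, γ t := mul_nonneg hX hg0
  have h7 := mul_le_mul_of_nonneg_left h2.1 hXg
  have h8 := mul_le_mul_of_nonneg_left h2.2 hXg
  constructor
  · linarith [h6.1, h6.2]
  · linarith [h6.1, h6.2]

end err

end Pool.Agent.R498.MT
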