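import Pool.Agent.R498.MT.Core
import Pool.Agent.Y677.RSZ.Fin

set_option autoImplicit false
set_option linter.unusedSectionVars false

/-! The squares, the product system. -/

namespace Pool.Agent.R498.MT

open Finset Filter Polynomial
open Pool.Agent.Y677.RSZ (rt Sys rhoT per_mod ev_log V)
open Pool.Agent.TH423.SH (PS)
open Pool.Agent.W23.DC
open Pool.Agent.Y882
open Pool.Agent.Y882.PX
open Pool.Agent.Y882.KW

open Classical in
/-- the arguments at which a square of a medium prime divides a value -/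
theorem bad_le (G : ℤ → ℤ) (KK q0 : ℕ)
    (hSq : ∀ q : ℕ, q.Prime → q0 ≤ q → ∀ N H : ℕ,
      ((((Icc 1 H).filter (fun j : ℕ => ((q ^ 2 : ℕ) : ℤ) ∣ G ((N + j : ℕ) : ℤ))).card : ℕ) : ℝ) ≤
        KK * (H * (1 / (q : ℝ) ^ 2) + 1))
    (W b M L Y : ℕ) {n : ℕ} (t : Fin n → ℕ) (hW : 0 < W) (ζ υ : ℝ) (hY : 2 ≤ Y)
    (hq0 : (q0 : ℝ) + 2 ≤ (Y : ℝ) ^ ζ) :
    ((((Ioc M (M + L)).filter (fun K => ∃ i, ∃ q ∈ pr Y ζ υ,
      ((q ^ 2 : ℕ) : ℤ) ∣ G ((W * (K + t i) + b : ℕ) : ℤ))).card : ℕ) : ℝ) ≤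
      n * (KK * ((W * L : ℕ) * (2 / (Y : ℝ) ^ ζ) + (Y : ℝ) ^ υ)) := by
  have hq00 : (0 : ℝ) ≤ q0 := Nat.cast_nonneg q0
  have hsub : (Ioc M (M + L)).filter (fun K => ∃ i, ∃ q ∈ pr Y ζ υ,
      ((q ^ 2 : ℕ) : ℤ) ∣ G ((W * (K + t i) + b : ℕ) : ℤ)) ⊆
      (univ : Finset (Fin n)).biUnion (fun i => (pr Y ζ υ).biUnion (fun q =>
        (Ioc M (M + L)).filter (fun K => ((q ^ 2 : ℕ) : ℤ) ∣ G ((W * (K + t i) + b : ℕ) : ℤ)))) := by
    intro K hK
    rw [mem_filter] at hK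
    obtain ⟨hK, i, q, hq, h⟩ := hK
    rw [mem_biUnion]
    refine ⟨i, mem_univ i, ?_⟩
    rw [mem_biUnion]
    exact ⟨q, hq, mem_filter.2 ⟨hK, h⟩⟩
  have hone : ∀ i : Fin n, ∀ q ∈ pr Y ζ υ,
      ((((Ioc M (M + L)).filter (fun K =>
        ((q ^ 2 : ℕ) : ℤ) ∣ G ((W * (K + t i) + b : ℕ) : ℤ))).card : ℕ) : ℝ) ≤
        KK * ((W * L : ℕ) * (1 / (q : ℝ) ^ 2) + 1) := by
    intro i q hq
    obtain ⟨h1, h2, h3⟩ := pr_mem Y q ζ υ hY hq
    have h4 : (q0 : ℝ) ≤ q := by linarith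
    refine le_trans ?_ (hSq q h1 (by exact_mod_cast h4) (W * (M + t i) + b) (W * L))
    have h5 : ((Ioc M (M + L)).filter (fun K =>
        ((q ^ 2 : ℕ) : ℤ) ∣ G ((W * (K + t i) + b : ℕ) : ℤ))).card ≤
        ((Icc 1 (W * L)).filter (fun j : ℕ =>
          ((q ^ 2 : ℕ) : ℤ) ∣ G ((W * (M + t i) + b + j : ℕ) : ℤ))).card := by
      apply card_le_card_of_injOn (fun K => W * (K - M))
      · intro K hK
        rw [mem_coe, mem_filter, mem_Ioc] at hK
        rw [mem_coe, mem_filter, mem_Icc]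
        obtain ⟨⟨h6, h7⟩, h8⟩ := hK
        refine ⟨⟨Nat.mul_pos hW (by omega), Nat.mul_le_mul_left _ (by omega)⟩, ?_⟩
        have e : W * (M + t i) + b + W * (K - M) = W * (K + t i) + b := by
          obtain ⟨d, rfl⟩ := Nat.exists_eq_add_of_le h6.le
          have : M + d - M = d := by omega
          rw [this]
          ring
        rw [e]
        exact h8
      · intro K hK K' hK' h
        rw [mem_coe, mem_filter, mem_Ioc] at hK hK'
        have h6 := Nat.eq_of_mul_eq_mul_left hW h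
        omega
    exact_mod_cast h5
  calc ((((Ioc M (M + L)).filter (fun K => ∃ i, ∃ q ∈ pr Y ζ υ,
      ((q ^ 2 : ℕ) : ℤ) ∣ G ((W * (K + t i) + b : ℕ) : ℤ))).card : ℕ) : ℝ) ≤
      ((∑ i : Fin n, ∑ q ∈ pr Y ζ υ, ((Ioc M (M + L)).filter (fun K =>
        ((q ^ 2 : ℕ) : ℤ) ∣ G ((W * (K + t i) + b : ℕ) : ℤ))).card : ℕ) : ℝ) := by
        exact_mod_cast (card_le_card hsub).trans (card_biUnion_le.trans
          (sum_le_sum fun i _ => card_biUnion_le))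
    _ = ∑ i : Fin n, ∑ q ∈ pr Y ζ υ, ((((Ioc M (M + L)).filter (fun K =>
        ((q ^ 2 : ℕ) : ℤ) ∣ G ((W * (K + t i) + b : ℕ) : ℤ))).card : ℕ) : ℝ) := by
        push_cast
        rfl
    _ ≤ ∑ _i : Fin n, ∑ q ∈ pr Y ζ υ, KK * ((W * L : ℕ) * (1 / (q : ℝ) ^ 2) + 1) :=
        sum_le_sum fun i _ => sum_le_sum fun q hq => hone i q hq
    _ = n * (KK * ((W * L : ℕ) * (∑ q ∈ pr Y ζ υ, 1 / (q : ℝ) ^ 2) + (pr Y ζ υ).card)) := by
        rw [sum_const, card_univ, Fintype.card_fin, nsmul_eq_mul, ← mul_sum, sum_add_distrib,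
          ← mul_sum, sum_const, nsmul_eq_mul, mul_one]
    _ ≤ _ := by
        have h6 : ∑ q ∈ pr Y ζ υ, 1 / (q : ℝ) ^ 2 ≤ 2 / (Y : ℝ) ^ ζ :=
          Pool.Agent.Y882.MG.tail_sq _ _ (by linarith) (fun q hq => (pr_mem Y q ζ υ hY hq).2.1)
        have h7 : ((pr Y ζ υ).card : ℝ) ≤ (Y : ℝ) ^ υ :=
          Pool.Agent.Y882.MG.card_lt _ _ (by positivity) (fun q hq =>
            ⟨(pr_mem Y q ζ υ hY hq).1.one_le, (pr_mem Y q ζ υ hY hq).2.2.le⟩)
        gcongr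

/-- the product of the shifts of a polynomial -/
noncomputable def PP (P : ℤ[X]) (W : ℕ) {n : ℕ} (t : Fin n → ℕ) : ℤ[X] :=
  ∏ i, P.comp (X + C ((W * t i : ℕ) : ℤ))

theorem PP_eval (P : ℤ[X]) (W : ℕ) {n : ℕ} (t : Fin n → ℕ) (x : ℤ) :
    (PP P W t).eval x = ∏ i, P.eval (x + ((W * t i : ℕ) : ℤ)) := by
  unfold PP
  rw [eval_prod]
  refine prod_congr rfl fun i _ => ?_
  simp [eval_comp]

theorem PP_dvd (P : ℤ[X]) (W b : ℕ) {n : ℕ} (t : Fin n → ℕ) (p : ℕ) (hp : p.Prime) (K : ℕ) :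
    (p : ℤ) ∣ (PP P W t).eval ((W * K + b : ℕ) : ℤ) ↔
      ∃ i, (p : ℤ) ∣ P.eval ((W * (K + t i) + b : ℕ) : ℤ) := by
  rw [PP_eval]
  have hp' : Prime (p : ℤ) := Nat.prime_iff_prime_int.1 hp
  rw [hp'.dvd_finsetProd_iff]
  simp only [mem_univ, true_and]
  have e : ∀ i, ((W * K + b : ℕ) : ℤ) + ((W * t i : ℕ) : ℤ) = ((W * (K + t i) + b : ℕ) : ℤ) := by
    intro i
    push_cast
    ring
  simp_rw [e]

theorem PP_ne (P : ℤ[X]) (hP : P ≠ 0) (W : ℕ) {n : ℕ} (t : Fin n → ℕ) : PP P W t ≠ 0 := by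
  unfold PP
  rw [Finset.prod_ne_zero_iff]
  intro i _ h
  rw [comp_eq_zero_iff] at h
  rcases h with h | ⟨_, h⟩
  · exact hP h
  · have h1 := congrArg (fun Q : ℤ[X] => Q.coeff 1) h
    simp [coeff_X, coeff_C] at h1

theorem PP_rt (P : ℤ[X]) (g : ℕ) (hF : Sys g (fun n => P.eval n)) (W b : ℕ) {n : ℕ}
    (t : Fin n → ℕ) (p : ℕ) (hp : p.Prime) (hW : ¬ p ∣ W) :
    rt (fun n => (PP P W t).eval n) p = rhoT (fun n => P.eval n) W b t p := by
  classical
  have hper : ∀ m : ℤ, (p : ℤ) ∣ (fun n => (PP P W t).eval n) (m + p) - (fun n => (PP P W t).eval n) m := by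
    intro m
    have h1 := sub_dvd_eval_sub (m + p) m (PP P W t)
    rw [add_sub_cancel_left] at h1
    exact h1
  have h1 := Pool.Agent.Y833.RSZ.card_shift (F := fun n => (PP P W t).eval n) hp hper W b 0 hW
  rw [← h1]
  unfold rhoT
  apply congrArg Finset.card
  ext r
  rw [mem_filter, mem_filter, add_zero]
  rw [PP_dvd P W b t p hp r]

theorem PP_sys (P : ℤ[X]) (hP : P ≠ 0) (g : ℕ) (hF : Sys g (fun n => P.eval n)) (W b : ℕ)
    {n : ℕ} (t : Fin n → ℕ) (hWp : ∀ p : ℕ, p.Prime → p ≤ g * n + 1 → p ∣ W)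
    (hb : ∀ p : ℕ, p.Prime → p ∣ W → ¬ (p : ℤ) ∣ P.eval (b : ℤ)) :
    ∃ g' : ℕ, Sys g' (fun n => (PP P W t).eval n) := by
  classical
  apply Pool.Agent.Y677.RSZ.poly_all _ (PP_ne P hP W t)
  intro p hp
  by_cases hpW : p ∣ W
  · refine ⟨((W * 0 + b : ℕ) : ℤ), fun h => ?_⟩
    obtain ⟨i, hi⟩ := (PP_dvd P W b t p hp 0).1 h
    apply hb p hp hpW
    refine (per_mod (F := fun n => P.eval n) hF.per hp (W * (0 + t i) + b) b ?_).1 hi
    have : W * (0 + t i) ≡ 0 [MOD p] := (Nat.modEq_zero_iff_dvd).2 (hpW.mul_right _)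
    simpa using this.add_right b
  · have h1 : rhoT (fun n => P.eval n) W b t p < p := by
      have h2 := Pool.Agent.Y833.RSZ.rhoT_le (F := fun n => P.eval n) hp (hF.per p hp) W b t hpW
      have h3 : n * rt (fun n => P.eval n) p ≤ n * g := Nat.mul_le_mul_left _ (hF.root p hp).1
      have h4 : g * n + 1 < p := by
        by_contra hcon
        exact hpW (hWp p hp (not_lt.1 hcon))
      have h5 : n * g = g * n := mul_comm _ _
      omega
    unfold rhoT at h1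
    have h2 : ∃ r ∈ range p, ¬ ∃ i, (p : ℤ) ∣ P.eval ((W * (r + t i) + b : ℕ) : ℤ) := by
      by_contra hcon
      push Not at hcon
      have h3 : (range p).filter (fun r : ℕ => ∃ i, (p : ℤ) ∣
          (fun n => P.eval n) ((W * (r + t i) + b : ℕ) : ℤ)) = range p := by
        apply filter_true_of_mem
        intro r hr
        exact hcon r hr
      rw [h3, card_range] at h1
      omega
    obtain ⟨r, -, hr⟩ := h2
    refine ⟨((W * r + b : ℕ) : ℤ), fun h => hr ?_⟩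
    exact (PP_dvd P W b t p hp r).1 h

/-- comparison of the sieve products -/
theorem PP_V (P : ℤ[X]) (g : ℕ) (hF : Sys g (fun n => P.eval n)) (W b z H : ℕ) {n : ℕ}
    (t : Fin n → ℕ) (hzH : z ≤ H) :
    V (fun n => (PP P W t).eval n) 1 H ≤ Vp (fun n => P.eval n) W b z t := by
  classical
  have e : Vp (fun n => P.eval n) W b z t = ∏ p ∈ PS W z,
      (1 - (rt (fun n => (PP P W t).eval n) p : ℝ) / p) := by
    unfold Vp
    refine prod_congr rfl fun p hp => ?_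
    unfold PS at hp
    rw [mem_filter] at hp
    rw [PP_rt P g hF W b t p hp.2.1 hp.2.2]
  rw [e]
  unfold V
  have hsub : PS W z ⊆ PS 1 H := by
    intro p hp
    unfold PS at hp ⊢
    rw [mem_filter, mem_Icc] at hp ⊢
    exact ⟨⟨hp.1.1, hp.1.2.trans hzH⟩, hp.2.1, by rw [Nat.dvd_one]; exact hp.2.1.ne_one⟩
  rw [← prod_sdiff hsub]
  exact mul_le_of_le_one_left (prod_nonneg fun p _ => Pool.Agent.Y677.RSZ.fac_nonneg p)
    (prod_le_one (fun p _ => Pool.Agent.Y677.RSZ.fac_nonneg p)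
      (fun p _ => Pool.Agent.Y677.RSZ.fac_le p))

/-- shifts in one class -/
theorem shifts (W n : ℕ) (hW : 0 < W) (HH : Finset ℕ) (hH : W * n ≤ HH.card) :
    ∃ (r : ℕ) (t : Fin n → ℕ), r < W ∧ Function.Injective t ∧ ∀ i, W * t i + r ∈ HH := by
  classical
  obtain ⟨r, hr, hc⟩ := Finset.exists_le_card_fiber_of_mul_le_card_of_maps_to
    (s := HH) (t := range W) (f := fun h => h % W) (n := n)
    (fun h _ => mem_range.2 (Nat.mod_lt _ hW)) ⟨0, mem_range.2 hW⟩ (by rw [card_range]; exact hH)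
  obtain ⟨U, hU, hUc⟩ := exists_subset_card_eq hc
  refine ⟨r, fun i => (U.orderEmbOfFin hUc i) / W, mem_range.1 hr, ?_, ?_⟩
  · intro i j hij
    have h1 : ∀ i, U.orderEmbOfFin hUc i % W = r := fun i =>
      (mem_filter.1 (hU (U.orderEmbOfFin_mem hUc i))).2
    have h2 : U.orderEmbOfFin hUc i = U.orderEmbOfFin hUc j := by
      rw [← Nat.div_add_mod (U.orderEmbOfFin hUc i) W, ← Nat.div_add_mod (U.orderEmbOfFin hUc j) W,
        h1 i, h1 j]
      simp only at hij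
      rw [hij]
    exact (U.orderEmbOfFin hUc).injective h2
  · intro i
    have h1 : U.orderEmbOfFin hUc i ∈ HH.filter (fun h => h % W = r) :=
      hU (U.orderEmbOfFin_mem hUc i)
    rw [mem_filter] at h1
    have h2 : W * (U.orderEmbOfFin hUc i / W) + r = U.orderEmbOfFin hUc i := by
      conv_rhs => rw [← Nat.div_add_mod (U.orderEmbOfFin hUc i) W, h1.2]
    show W * (U.orderEmbOfFin hUc i / W) + r ∈ HH
    rw [h2]
    exact h1.1

/-- a class without common prime factor -/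
theorem exb' {g : ℕ} {F : ℤ → ℤ} (hF : Sys g F) (W : ℕ) (hW0 : 0 < W) (hW : Squarefree W) :
    ∃ b < W, ∀ p : ℕ, p.Prime → p ∣ W → ¬ (p : ℤ) ∣ F b := by
  have h1 := Pool.Agent.Y677.RSZ.pig F hF.per W hW
  have h2 : 0 < ∏ p ∈ W.primeFactors, (p - rt F p) := by
    apply prod_pos
    intro p hp
    have := (hF.root p (Nat.prime_of_mem_primeFactors hp)).2
    omega
  rw [← h1, card_pos] at h2
  obtain ⟨b, hb⟩ := h2
  rw [mem_filter, mem_range] at hb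
  exact ⟨b, hb.1, fun p hp hpW => hb.2 p (Nat.mem_primeFactors.2 ⟨hp, hpW, hW0.ne'⟩)⟩

end Pool.Agent.R498.MT
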