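import Pool.Agent.R498.MT.Prod

set_option autoImplicit false
set_option linter.unusedSectionVars false

/-! Local computations. -/

namespace Pool.Agent.R498.MT

open Finset

section loc
variable {J : Type} [Fintype J] [DecidableEq J]

/-- local functions; the colour `i` is not seen -/
def hv (i : Option J) (q : ℝ) : Option J → Option J → ℝ
  | none, _ => 1
  | some j, x => if i = some j then -1 else if x = some j then q - 1 else -1

/-- product of two local functions, with the target condition -/
def lc2 (i : Option J) (q : ℝ) (tgt : Bool) (a b x : Option J) : ℝ :=
  hv i q a x * hv i q b x * (if tgt then (if x = i then 1 else 0) else 1)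

/-- sign -/
def sg : Option J → ℝ
  | none => 1
  | some _ => -1

/-- densities -/
noncomputable def rd (i : Option J) (q γ : ℝ) (j : J) : ℝ := if i = some j then γ else 1 / q

/-- the second moments -/
def GG (i : Option J) (q : ℝ) : Option J → Option J → ℝ
  | none, none => 1
  | none, some k => if i = some k then -1 else 0
  | some j, none => if i = some j then -1 else 0
  | some j, some k => if i = some j then (if i = some k then 1 else 0) else
      (if i = some k then 0 else (if j = k then q - 1 else -1))

/-- bound for the norms -/
def NN (q : ℝ) : Option J → Option J → ℝ
  | none, none => 1
  | none, some _ => 2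
  | some _, none => 2
  | some j, some k => if j = k then q - 1 else 3

theorem hv_some (i : Option J) (q : ℝ) (j : J) (x : Option J) (h : i ≠ some j) :
    hv i q (some j) x = -1 + q * (if x = some j then 1 else 0) := by
  simp only [hv, if_neg h]
  split_ifs <;> ring

theorem hv_i (i : Option J) (q : ℝ) (j : J) (x : Option J) (h : i = some j) :
    hv i q (some j) x = -1 := by
  simp only [hv, if_pos h]

theorem hv_none (i : Option J) (q : ℝ) (x : Option J) : hv i q none x = 1 := rfl

theorem Ex_loc (i : Option J) (q γ : ℝ) (hq : 2 ≤ q) (a b : Option J) :
    Ex (rd i q γ) (lc2 i q false a b) = GG i q a b := by
  have hq0 : q ≠ 0 := by linarith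
  unfold Ex lc2
  simp only [Bool.false_eq_true, if_false, mul_one]
  rcases a with _ | j
  · rcases b with _ | k
    · simp [hv_none, GG]
    · by_cases hk : i = some k
      · simp only [hv_none, hv_i _ _ _ _ hk, GG, if_pos hk]
        simp
      · have e : ∀ l : J, (1 * (-1 + q * (if (some l : Option J) = some k then 1 else 0)) -
            1 * (-1 + q * (if (none : Option J) = some k then 1 else 0))) * rd i q γ l =
            if l = k then q * rd i q γ k else 0 := by
          intro l
          by_cases h : l = k
          · subst h; simp
          · simp [h]
        simp only [hv_none, hv_some _ _ _ _ hk]
        rw [sum_congr rfl (fun l _ => e l), sum_ite_eq' univ k]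
        simp only [mem_univ, if_true, GG, if_neg hk, rd, reduceCtorEq, if_false]
        field_simp
        ring
  · rcases b with _ | k
    · by_cases hj : i = some j
      · simp only [hv_none, hv_i _ _ _ _ hj, GG, if_pos hj]
        simp
      · have e : ∀ l : J, ((-1 + q * (if (some l : Option J) = some j then 1 else 0)) * 1 -
            (-1 + q * (if (none : Option J) = some j then 1 else 0)) * 1) * rd i q γ l =
            if l = j then q * rd i q γ j else 0 := by
          intro l
          by_cases h : l = j
          · subst h; simp
          · simp [h]
        simp only [hv_none, hv_some _ _ _ _ hj]
        rw [sum_congr rfl (fun l _ => e l), sum_ite_eq' univ j]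
        simp only [mem_univ, if_true, GG, if_neg hj, rd, reduceCtorEq, if_false]
        field_simp
        ring
    · by_cases hj : i = some j
      · by_cases hk : i = some k
        · simp only [hv_i _ _ _ _ hj, hv_i _ _ _ _ hk, GG, if_pos hj, if_pos hk]
          simp
        · have e : ∀ l : J, ((-1) * (-1 + q * (if (some l : Option J) = some k then 1 else 0)) -
              (-1) * (-1 + q * (if (none : Option J) = some k then 1 else 0))) * rd i q γ l =
              if l = k then -(q * rd i q γ k) else 0 := by
            intro l
            by_cases h : l = k
            · subst h; simp
            · simp [h]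
          simp only [hv_i _ _ _ _ hj, hv_some _ _ _ _ hk]
          rw [sum_congr rfl (fun l _ => e l), sum_ite_eq' univ k]
          simp only [mem_univ, if_true, GG, if_pos hj, if_neg hk, rd, reduceCtorEq, if_false]
          field_simp
          ring
      · by_cases hk : i = some k
        · have e : ∀ l : J, ((-1 + q * (if (some l : Option J) = some j then 1 else 0)) * (-1) -
              (-1 + q * (if (none : Option J) = some j then 1 else 0)) * (-1)) * rd i q γ l =
              if l = j then -(q * rd i q γ j) else 0 := by
            intro l
            by_cases h : l = j
            · subst h; simp
            · simp [h]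
          simp only [hv_i _ _ _ _ hk, hv_some _ _ _ _ hj]
          rw [sum_congr rfl (fun l _ => e l), sum_ite_eq' univ j]
          simp only [mem_univ, if_true, GG, if_pos hk, if_neg hj, rd, reduceCtorEq, if_false]
          field_simp
          ring
        · have e : ∀ l : J, ((-1 + q * (if (some l : Option J) = some j then 1 else 0)) *
              (-1 + q * (if (some l : Option J) = some k then 1 else 0)) -
              (-1 + q * (if (none : Option J) = some j then 1 else 0)) *
              (-1 + q * (if (none : Option J) = some k then 1 else 0))) * rd i q γ l =
              (if l = j then -(q * rd i q γ j) else 0) + (if l = k then -(q * rd i q γ k) else 0) +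
              (if l = j then (if j = k then q ^ 2 * rd i q γ j else 0) else 0) := by
            intro l
            by_cases h : l = j
            · subst h
              by_cases h' : l = k
              · subst h'; simp; ring
              · simp [h']
            · by_cases h' : l = k
              · subst h'
                simp [h]
              · simp [h, h']
          simp only [hv_some _ _ _ _ hk, hv_some _ _ _ _ hj]
          rw [sum_congr rfl (fun l _ => e l), sum_add_distrib, sum_add_distrib,
            sum_ite_eq' univ j, sum_ite_eq' univ k, sum_ite_eq' univ j]
          simp only [mem_univ, if_true, GG, if_neg hj, if_neg hk, rd, reduceCtorEq, if_false]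
          by_cases h : j = k
          · rw [if_pos h, if_pos h]
            field_simp
            ring
          · rw [if_neg h, if_neg h]
            field_simp
            ring

theorem Nm_loc (i : Option J) (q γ : ℝ) (hq : 2 ≤ q) (a b : Option J) :
    Nm (rd i q γ) (lc2 i q false a b) ≤ NN q a b := by
  have hq0 : q ≠ 0 := by linarith
  unfold Nm lc2
  simp only [Bool.false_eq_true, if_false, mul_one]
  rcases a with _ | j
  · rcases b with _ | k
    · simp [hv_none, NN]
    · by_cases hk : i = some k
      · simp [hv_none, hv_i _ _ _ _ hk, NN]
      · have e : ∀ l : J, |1 * (-1 + q * (if (some l : Option J) = some k then 1 else 0)) -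
            1 * (-1 + q * (if (none : Option J) = some k then 1 else 0))| * rd i q γ l =
            if l = k then q * rd i q γ k else 0 := by
          intro l
          by_cases h : l = k
          · subst h; simp [abs_of_nonneg (show (0 : ℝ) ≤ q by linarith)]
          · simp [h]
        simp only [hv_none, hv_some _ _ _ _ hk]
        rw [sum_congr rfl (fun l _ => e l), sum_ite_eq' univ k]
        simp only [mem_univ, if_true, NN, if_neg hk, rd, reduceCtorEq, if_false]
        have : q * (1 / q) = 1 := by field_simp
        rw [this]
        norm_num
  · rcases b with _ | k
    · by_cases hj : i = some j
      · simp [hv_none, hv_i _ _ _ _ hj, NN]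
      · have e : ∀ l : J, |(-1 + q * (if (some l : Option J) = some j then 1 else 0)) * 1 -
            (-1 + q * (if (none : Option J) = some j then 1 else 0)) * 1| * rd i q γ l =
            if l = j then q * rd i q γ j else 0 := by
          intro l
          by_cases h : l = j
          · subst h; simp [abs_of_nonneg (show (0 : ℝ) ≤ q by linarith)]
          · simp [h]
        simp only [hv_none, hv_some _ _ _ _ hj]
        rw [sum_congr rfl (fun l _ => e l), sum_ite_eq' univ j]
        simp only [mem_univ, if_true, NN, if_neg hj, rd, reduceCtorEq, if_false]
        have : q * (1 / q) = 1 := by field_simp
        rw [this]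
        norm_num
    · have hNN1 : 1 ≤ NN q (some j) (some k) := by
        simp only [NN]
        split_ifs <;> linarith
      by_cases hj : i = some j
      · by_cases hk : i = some k
        · simp only [hv_i _ _ _ _ hj, hv_i _ _ _ _ hk]
          simp
          exact hNN1
        · have hjk : j ≠ k := by
            rintro rfl
            exact hk hj
          have e : ∀ l : J, |(-1) * (-1 + q * (if (some l : Option J) = some k then 1 else 0)) -
              (-1) * (-1 + q * (if (none : Option J) = some k then 1 else 0))| * rd i q γ l =
              if l = k then q * rd i q γ k else 0 := by
            intro l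
            by_cases h : l = k
            · subst h; simp [abs_of_nonneg (show (0 : ℝ) ≤ q by linarith)]
            · simp [h]
          simp only [hv_i _ _ _ _ hj, hv_some _ _ _ _ hk]
          rw [sum_congr rfl (fun l _ => e l), sum_ite_eq' univ k]
          simp only [mem_univ, if_true, NN, if_neg hk, rd, reduceCtorEq, if_false, if_neg hjk]
          have : q * (1 / q) = 1 := by field_simp
          rw [this]
          norm_num
      · by_cases hk : i = some k
        · have hjk : j ≠ k := by
            rintro rfl
            exact hj hk
          have e : ∀ l : J, |(-1 + q * (if (some l : Option J) = some j then 1 else 0)) * (-1) -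
              (-1 + q * (if (none : Option J) = some j then 1 else 0)) * (-1)| * rd i q γ l =
              if l = j then q * rd i q γ j else 0 := by
            intro l
            by_cases h : l = j
            · subst h
              simp [abs_of_nonneg (show (0 : ℝ) ≤ q by linarith)]
            · simp [h]
          simp only [hv_i _ _ _ _ hk, hv_some _ _ _ _ hj]
          rw [sum_congr rfl (fun l _ => e l), sum_ite_eq' univ j]
          simp only [mem_univ, if_true, NN, if_neg hj, rd, reduceCtorEq, if_false, if_neg hjk]
          have : q * (1 / q) = 1 := by field_simp
          rw [this]
          norm_num
        · by_cases hjk : j = k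
          · subst hjk
            have e : ∀ l : J, |(-1 + q * (if (some l : Option J) = some j then 1 else 0)) *
                (-1 + q * (if (some l : Option J) = some j then 1 else 0)) -
                (-1 + q * (if (none : Option J) = some j then 1 else 0)) *
                (-1 + q * (if (none : Option J) = some j then 1 else 0))| * rd i q γ l =
                (if l = j then (q ^ 2 - 2 * q) * rd i q γ j else 0) := by
              intro l
              by_cases h : l = j
              · subst h
                simp only [if_true, mul_one, reduceCtorEq, if_false, mul_zero, add_zero]
                congr 1
                rw [abs_of_nonneg]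
                · ring
                · nlinarith
              · simp [h]
            simp only [hv_some _ _ _ _ hj]
            rw [sum_congr rfl (fun l _ => e l), sum_ite_eq' univ j]
            simp only [mem_univ, if_true, NN, if_neg hj, rd, reduceCtorEq, if_false]
            have : (q ^ 2 - 2 * q) * (1 / q) = q - 2 := by field_simp
            rw [this]
            norm_num
            linarith
          · have e : ∀ l : J, |(-1 + q * (if (some l : Option J) = some j then 1 else 0)) *
                (-1 + q * (if (some l : Option J) = some k then 1 else 0)) -
                (-1 + q * (if (none : Option J) = some j then 1 else 0)) *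
                (-1 + q * (if (none : Option J) = some k then 1 else 0))| * rd i q γ l =
                (if l = j then (q * rd i q γ j) else 0) + (if l = k then (q * rd i q γ k) else 0) := by
              intro l
              by_cases h : l = j
              · subst h
                simp [hjk, abs_of_nonneg (show (0 : ℝ) ≤ q by linarith)]
              · by_cases h' : l = k
                · subst h'
                  simp [h, abs_of_nonneg (show (0 : ℝ) ≤ q by linarith)]
                · simp [h, h']
            simp only [hv_some _ _ _ _ hk, hv_some _ _ _ _ hj]
            rw [sum_congr rfl (fun l _ => e l), sum_add_distrib,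
              sum_ite_eq' univ j, sum_ite_eq' univ k]
            simp only [mem_univ, if_true, NN, if_neg hj, if_neg hk, rd, reduceCtorEq, if_false,
              if_neg hjk]
            have : q * (1 / q) = 1 := by field_simp
            rw [this]
            norm_num

theorem hv_at_i (i : J) (q : ℝ) (a : Option J) : hv (some i) q a (some i) = sg a := by
  rcases a with _ | j
  · rfl
  · simp only [hv, sg]
    by_cases h : i = j
    · simp [h]
    · simp [h]

theorem sg_abs (a : Option J) : |sg a| = 1 := by
  rcases a with _ | j <;> simp [sg]

theorem Ex_tgt (i : J) (q γ : ℝ) (a b : Option J) :
    Ex (rd (some i) q γ) (lc2 (some i) q true a b) = γ * (sg a * sg b) := by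
  unfold Ex lc2
  simp only [if_true, reduceCtorEq, if_false, mul_zero, sub_zero, zero_add]
  have e : ∀ l : J, hv (some i) q a (some l) * hv (some i) q b (some l) *
      (if (some l : Option J) = some i then 1 else 0) * rd (some i) q γ l =
      if l = i then γ * (sg a * sg b) else 0 := by
    intro l
    by_cases h : l = i
    · subst h
      rw [hv_at_i, hv_at_i]
      simp [rd]
      ring
    · simp [h]
  rw [sum_congr rfl (fun l _ => e l), sum_ite_eq' univ i]
  simp

theorem Nm_tgt (i : J) (q γ : ℝ) (a b : Option J) :
    Nm (rd (some i) q γ) (lc2 (some i) q true a b) = γ := by
  unfold Nm lc2
  simp only [if_true, reduceCtorEq, if_false, mul_zero, sub_zero, zero_add, abs_zero]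
  have e : ∀ l : J, |hv (some i) q a (some l) * hv (some i) q b (some l) *
      (if (some l : Option J) = some i then 1 else 0)| * rd (some i) q γ l =
      if l = i then γ else 0 := by
    intro l
    by_cases h : l = i
    · subst h
      rw [hv_at_i, hv_at_i, if_pos rfl, if_pos rfl, mul_one, abs_mul, sg_abs, sg_abs]
      simp [rd]
    · simp [h]
  rw [sum_congr rfl (fun l _ => e l), sum_ite_eq' univ i]
  simp

end loc

end Pool.Agent.R498.MT
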