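import Pool.Agent.R498.MT.Main

set_option autoImplicit false
set_option linter.unusedSectionVars false

/-! The second main term. -/

namespace Pool.Agent.R498.MT

open Finset
open Pool.Agent.H410R2 (fib mem_fib sum_tuple_le sum_tuple_ge)

section main
variable {S J : Type} [Fintype S] [DecidableEq S] [Fintype J] [DecidableEq J]

theorem ms_nonneg (μ : S → ℝ) (hμ : ∀ t, 0 ≤ μ t) (a : Finset S) : 0 ≤ ms μ a :=
  prod_nonneg fun t _ => hμ t

/-- sums over the sets containing `t` -/
theorem sum_mem_le (μ : S → ℝ) (hμ : ∀ t, 0 ≤ μ t) (F : Finset S → ℝ) (hF0 : ∀ a, 0 ≤ F a)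
    (hF : ∀ a b, a ⊆ b → F b ≤ F a) (t : S) :
    ∑ a ∈ univ.filter (fun a : Finset S => t ∈ a), ms μ a * F a ≤ μ t * ∑ a, ms μ a * F a := by
  classical
  have h1 : ∑ a ∈ univ.filter (fun a : Finset S => t ∈ a), ms μ a * F a ≤
      ∑ a ∈ univ.filter (fun a : Finset S => t ∉ a), μ t * (ms μ a * F a) := by
    apply le_of_eq_of_le (sum_bij' (i := fun a _ => a.erase t) (j := fun a _ => insert t a)
      (g := fun a => μ t * (ms μ a * F (insert t a)))
      (t := univ.filter (fun a : Finset S => t ∉ a)) ?_ ?_ ?_ ?_ ?_)
    · apply sum_le_sum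
      intro a _
      apply mul_le_mul_of_nonneg_left _ (hμ t)
      exact mul_le_mul_of_nonneg_left (hF _ _ (subset_insert _ _)) (ms_nonneg μ hμ a)
    · intro a _
      simp
    · intro a _
      simp
    · intro a ha
      exact insert_erase (mem_filter.1 ha).2
    · intro a ha
      exact erase_insert (mem_filter.1 ha).2
    · intro a ha
      have ht := (mem_filter.1 ha).2
      show ms μ a * F a = μ t * (ms μ (a.erase t) * F (insert t (a.erase t)))
      rw [insert_erase ht]
      have : ms μ a = μ t * ms μ (a.erase t) := by
        unfold ms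
        rw [mul_prod_erase a μ ht]
      rw [this]
      ring
  refine h1.trans ?_
  rw [← mul_sum]
  apply mul_le_mul_of_nonneg_left _ (hμ t)
  apply sum_le_sum_of_subset_of_nonneg (filter_subset _ _)
  intro a _ _
  exact mul_nonneg (ms_nonneg μ hμ a) (hF0 a)

theorem sum_ms (μ : S → ℝ) : ∑ a, ms μ a = ∏ t, (1 + μ t) := by
  rw [prod_one_add]
  unfold ms
  rw [← powerset_univ]

/-- **The second main term.** -/
theorem S2_main (i : J) (q μ l : S → ℝ) (hq : ∀ t, 2 ≤ q t) (hμ : ∀ t, 0 ≤ μ t)
    (hμq : ∀ t, μ t = 0 ∨ μ t * (q t - 1) = 1) (hl : ∀ t, 0 ≤ l t)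
    (G : Finset S → ℝ) (hG0 : ∀ a, 0 ≤ G a) (hGa : ∀ a b, a ⊆ b → G b ≤ G a) (hG1 : G ∅ = 1)
    (R U : ℝ) (hUR : U < R) (hGU : ∀ a, G a ≠ 0 → lz l a ≤ U) (ω : ℝ)
    (hω : ∀ s : S → Option J, lt l s ≤ R → ∑ t, (if s t = none then 0 else μ t) ≤ ω)
    (hH : ω * ∏ t, (1 + μ t) ≤ ∑ a, ms μ a * G a) :
    (∑ a, ms μ a * G a - ω * ∏ t, (1 + μ t)) ^ 2 *
      ((1 - (Fintype.card J : ℝ) ^ 2 * ∑ t, μ t ^ 2) -
        Fintype.card J * (∑ a, lz l a * (ms μ a * G a ^ 2)) / ((R - U) * ∑ a, ms μ a * G a ^ 2)) *
      ((∑ a, ms μ a * G a ^ 2) ^ (Fintype.card J) / ∑ a, ms μ a * G a ^ 2) ≤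
    ∑ σ, ∑ τ, cw μ (yy (J := J) l G R) σ * cw μ (yy l G R) τ *
      ∏ t, VM (some i) (q t) (σ t) (τ t) := by
  classical
  set H : ℝ := ∑ a, ms μ a * G a with hHd
  set I2 : ℝ := ∑ a, ms μ a * G a ^ 2 with hI2
  set IE : ℝ := ∑ a, lz l a * (ms μ a * G a ^ 2) with hIE
  set A1 : ℝ := ∏ t, (1 + μ t) with hA1
  have hms := ms_nonneg μ hμ
  have hI21 : 1 ≤ I2 := by
    rw [hI2]
    have h1 : ms μ ∅ * G ∅ ^ 2 = 1 := by rw [hG1]; simp [ms]
    rw [← h1]
    exact single_le_sum (f := fun a => ms μ a * G a ^ 2)
      (fun a _ => mul_nonneg (hms a) (sq_nonneg _)) (mem_univ ∅)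
  have hI20 : 0 < I2 := by linarith
  have hlz : ∀ a, 0 ≤ lz l a := fun a => sum_nonneg fun t _ => hl t
  have hIE0 : 0 ≤ IE := sum_nonneg fun a _ => mul_nonneg (hlz a) (mul_nonneg (hms a) (sq_nonneg _))
  have hGsq : ∀ a b, a ⊆ b → G b ^ 2 ≤ G a ^ 2 := fun a b h =>
    pow_le_pow_left₀ (hG0 b) (hGa a b h) 2
  -- the set of the `s`
  set 𝒢 : Finset (S → Option J) := univ.filter (fun s => (∀ t, s t ≠ some i) ∧ lt l s ≤ R - U)
    with h𝒢
  set F : J → Finset S → ℝ := fun j a => if j = i then (if a = ∅ then 1 else 0) else
    ms μ a * G a ^ 2 with hF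
  have hF0 : ∀ j a, 0 ≤ F j a := by
    intro j a
    simp only [hF]
    split_ifs
    · norm_num
    · norm_num
    · exact mul_nonneg (hms a) (sq_nonneg _)
  set Y : (S → Option J) → ℝ := fun s => ∏ j, (if j = i then 1 else G (fib s j)) with hY
  have hY0 : ∀ s, 0 ≤ Y s := fun s => prod_nonneg fun j _ => by
    split_ifs
    · norm_num
    · exact hG0 _
  have hsumF : ∀ j, ∑ a, F j a = if j = i then 1 else I2 := by
    intro j
    by_cases h : j = i
    · simp [hF, h]
    · simp only [hF, if_neg h]
      exact hI2.symm
  set P : ℝ := ∏ j : J, (if j = i then 1 else I2) with hP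
  have hPI : I2 * P = I2 ^ (Fintype.card J) := by
    have h1 : ∏ j : J, (if j = i then I2 else 1) = I2 := by
      rw [prod_ite_eq' univ i]
      simp
    have h2 : P * ∏ j : J, (if j = i then I2 else 1) = ∏ _j : J, I2 := by
      rw [hP, ← prod_mul_distrib]
      refine prod_congr rfl fun j _ => ?_
      split_ifs <;> ring
    rw [h1, prod_const, card_univ] at h2
    rw [← h2]; ring
  have hP0 : 0 ≤ P := prod_nonneg fun j _ => by split_ifs <;> linarith
  have hFY : ∀ s : S → Option J, (∀ t, s t ≠ some i) → mt μ s * Y s ^ 2 = ∏ j, F j (fib s j) := by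
    intro s hs
    rw [mt_eq, hY]
    simp only
    rw [← prod_pow, ← prod_mul_distrib]
    refine prod_congr rfl fun j _ => ?_
    by_cases h : j = i
    · subst h
      have h1 : fib s j = ∅ := by
        ext t
        rw [mem_fib]
        simp only [notMem_empty, iff_false]
        exact hs t
      simp [hF, h1, ms]
    · simp only [hF, if_neg h]
  have hFn : ∀ s : S → Option J, (∃ t, s t = some i) → ∏ j, F j (fib s j) = 0 := by
    rintro s ⟨t, ht⟩
    apply prod_eq_zero (mem_univ i)
    simp only [hF, if_true]
    rw [if_neg]
    intro h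
    have : t ∈ fib s i := (mem_fib _ _ _).2 ht
    rw [h] at this
    exact absurd this (notMem_empty t)
  -- step (3)
  have hRU : 0 < R - U := by linarith
  have step3 : ((1 - (Fintype.card J : ℝ) ^ 2 * ∑ t, μ t ^ 2) -
        Fintype.card J * IE / ((R - U) * I2)) * P ≤ ∑ s ∈ 𝒢, mt μ s * Y s ^ 2 := by
    have a1 : (1 - (Fintype.card J : ℝ) ^ 2 * ∑ t, μ t ^ 2) * P ≤
        ∑ s : S → Option J, ∏ j, F j (fib s j) := by
      have h1 := sum_tuple_ge F hF0 μ hμ (by
        intro j t
        by_cases h : j = i
        · have e : ∑ a ∈ univ.filter (fun a : Finset S => t ∈ a), F j a = 0 := by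
            apply sum_eq_zero
            intro a ha
            have h2 := (mem_filter.1 ha).2
            simp only [hF, if_pos h]
            rw [if_neg]
            rintro rfl
            exact absurd h2 (notMem_empty t)
          rw [e]
          exact mul_nonneg (hμ t) (sum_nonneg fun a _ => hF0 j a)
        · simp only [hF, if_neg h]
          exact sum_mem_le μ hμ (fun a => G a ^ 2) (fun a => sq_nonneg _) hGsq t)
      rw [prod_congr rfl (fun j _ => hsumF j)] at h1
      exact h1
    have a2 : ∑ s : S → Option J, lt l s * ∏ j, F j (fib s j) ≤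
        Fintype.card J * (IE / I2 * P) := by
      have e1 : ∀ s : S → Option J, lt l s * ∏ j, F j (fib s j) =
          ∑ m, lz l (fib s m) * ∏ j, F j (fib s j) := by
        intro s
        rw [lt_eq, sum_mul]
      rw [sum_congr rfl (fun s _ => e1 s), sum_comm]
      calc ∑ m, ∑ s : S → Option J, lz l (fib s m) * ∏ j, F j (fib s j) ≤
          ∑ _m : J, IE / I2 * P := by
            apply sum_le_sum
            intro m _
            set F' : J → Finset S → ℝ := fun j a => if j = m then lz l a * F j a else F j a with hF'
            have hF'0 : ∀ j a, 0 ≤ F' j a := by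
              intro j a
              simp only [hF']
              split_ifs
              · exact mul_nonneg (hlz a) (hF0 j a)
              · exact hF0 j a
            have e2 : ∀ s : S → Option J, lz l (fib s m) * ∏ j, F j (fib s j) =
                ∏ j, F' j (fib s j) := by
              intro s
              have e3 : ∏ j : J, (if j = m then lz l (fib s m) else 1) = lz l (fib s m) := by
                rw [prod_ite_eq' univ m]
                simp
              rw [← e3, ← prod_mul_distrib]
              refine prod_congr rfl fun j _ => ?_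
              simp only [hF']
              by_cases h : j = m
              · subst h; simp [e3]
              · simp [h]
            rw [sum_congr rfl (fun s _ => e2 s)]
            refine (sum_tuple_le F' hF'0).trans ?_
            by_cases hmi : m = i
            · have e4 : ∑ a, F' m a = 0 := by
                apply sum_eq_zero
                intro a _
                simp only [hF', hF, if_true, hmi]
                by_cases h : a = ∅
                · subst h; simp [lz]
                · simp [h]
              rw [prod_eq_zero (mem_univ m) e4]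
              exact mul_nonneg (div_nonneg hIE0 hI20.le) hP0
            · have e5 : ∀ j, ∑ a, F' j a = (if j = m then IE / I2 else 1) *
                  (if j = i then 1 else I2) := by
                intro j
                by_cases h : j = m
                · subst h
                  simp only [hF', hF, if_true, if_neg hmi]
                  rw [div_mul_cancel₀ _ hI20.ne']
                · simp only [hF', if_neg h, one_mul]
                  exact hsumF j
              rw [prod_congr rfl (fun j _ => e5 j), prod_mul_distrib, prod_ite_eq' univ m]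
              simp only [mem_univ, if_true]
              exact le_rfl
        _ = _ := by rw [sum_const, card_univ, nsmul_eq_mul]
    have a3 : ∑ s : S → Option J, (1 - lt l s / (R - U)) * ∏ j, F j (fib s j) ≤
        ∑ s ∈ 𝒢, mt μ s * Y s ^ 2 := by
      have e1 : ∑ s ∈ 𝒢, mt μ s * Y s ^ 2 =
          ∑ s, (if (∀ t, s t ≠ some i) ∧ lt l s ≤ R - U then mt μ s * Y s ^ 2 else 0) := by
        rw [h𝒢, sum_filter]
      rw [e1]
      apply sum_le_sum
      intro s _
      by_cases hs : ∀ t, s t ≠ some i
      · rw [← hFY s hs]
        have h0 : 0 ≤ mt μ s * Y s ^ 2 := by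
          rw [hFY s hs]
          exact prod_nonneg fun j _ => hF0 _ _
        have hlt0 : 0 ≤ lt l s := by
          unfold lt
          apply sum_nonneg
          intro t _
          split_ifs
          · exact le_rfl
          · exact hl t
        by_cases h : lt l s ≤ R - U
        · rw [if_pos ⟨hs, h⟩]
          have : 0 ≤ lt l s / (R - U) := div_nonneg hlt0 hRU.le
          nlinarith
        · rw [if_neg (fun h' => h h'.2)]
          push Not at h
          have : 1 < lt l s / (R - U) := by rw [lt_div_iff₀ hRU]; linarith
          nlinarith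
      · push Not at hs
        rw [hFn s hs, mul_zero]
        split_ifs with h
        · obtain ⟨t, ht⟩ := hs
          exact absurd ht (h.1 t)
        · exact le_rfl
    have a4 : ∑ s : S → Option J, (1 - lt l s / (R - U)) * ∏ j, F j (fib s j) =
        ∑ s : S → Option J, ∏ j, F j (fib s j) -
          (∑ s : S → Option J, lt l s * ∏ j, F j (fib s j)) / (R - U) := by
      rw [sum_div, ← sum_sub_distrib]
      refine sum_congr rfl fun s _ => ?_
      ring
    rw [a4] at a3
    have a5 : (∑ s : S → Option J, lt l s * ∏ j, F j (fib s j)) / (R - U) ≤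
        Fintype.card J * IE / ((R - U) * I2) * P := by
      rw [div_le_iff₀ hRU]
      refine a2.trans (le_of_eq ?_)
      field_simp
    have a6 : ((1 - (Fintype.card J : ℝ) ^ 2 * ∑ t, μ t ^ 2) -
        Fintype.card J * IE / ((R - U) * I2)) * P =
        (1 - (Fintype.card J : ℝ) ^ 2 * ∑ t, μ t ^ 2) * P -
        Fintype.card J * IE / ((R - U) * I2) * P := by ring
    rw [a6]
    linarith
  -- step (2)
  have step2 : ∀ s ∈ 𝒢, (H - ω * A1) ^ 2 * (mt μ s * Y s ^ 2) ≤
      mt μ s * (∑ a ∈ (univ.filter (fun t => s t = none)).powerset,
        ms μ a * yy l G R (ext s i a)) ^ 2 := by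
    intro s hs
    rw [h𝒢, mem_filter] at hs
    obtain ⟨-, hs1, hs2⟩ := hs
    have hm0 : 0 ≤ mt μ s := by
      rw [mt_eq]
      exact prod_nonneg fun j _ => hms _
    have b1 : ∀ a ∈ (univ.filter (fun t => s t = none)).powerset,
        Y s * (ms μ a * G a) ≤ ms μ a * yy l G R (ext s i a) := by
      intro a ha
      rw [mem_powerset] at ha
      by_cases h : G a = 0
      · rw [h, mul_zero, mul_zero]
        exact mul_nonneg (hms a) (yy_nonneg l G hG0 R _)
      · have h1 := hGU a h
        have h2 : ∏ j, G (fib (ext s i a) j) = G a * Y s := by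
          have e3 : ∏ j : J, (if j = i then G a else 1) = G a := by
            rw [prod_ite_eq' univ i]
            simp
          rw [← e3, hY, ← prod_mul_distrib]
          refine prod_congr rfl fun j _ => ?_
          rw [fib_ext s i hs1 a ha j]
          by_cases h : j = i
          · simp [h]
          · simp [h]
        have h3 : lt l (ext s i a) ≤ R := by
          rw [lt_eq]
          have e4 : ∀ j, lz l (fib (ext s i a) j) = (if j = i then lz l a else 0) +
              lz l (fib s j) := by
            intro j
            rw [fib_ext s i hs1 a ha j]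
            by_cases h : j = i
            · subst h
              have h1 : fib s j = ∅ := by
                ext t
                rw [mem_fib]
                simp only [notMem_empty, iff_false]
                exact hs1 t
              simp [h1, lz]
            · simp [h]
          rw [sum_congr rfl (fun j _ => e4 j), sum_add_distrib, ← lt_eq, sum_ite_eq' univ i]
          simp only [mem_univ, if_true]
          linarith
        unfold yy
        rw [if_pos h3, h2]
        apply le_of_eq
        ring
    have b2 : Y s * (H - ω * A1) ≤ ∑ a ∈ (univ.filter (fun t => s t = none)).powerset,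
        ms μ a * yy l G R (ext s i a) := by
      refine le_trans ?_ (sum_le_sum b1)
      rw [← mul_sum]
      apply mul_le_mul_of_nonneg_left _ (hY0 s)
      -- the sets that meet the support
      have c1 : H ≤ ∑ a ∈ (univ.filter (fun t => s t = none)).powerset, ms μ a * G a +
          ∑ t, (if s t = none then 0 else
            ∑ a ∈ univ.filter (fun a : Finset S => t ∈ a), ms μ a * G a) := by
        have c2 : ∀ a : Finset S, ms μ a * G a ≤
            (if a ∈ (univ.filter (fun t => s t = none)).powerset then ms μ a * G a else 0) +
            ∑ t, (if s t = none then 0 else (if t ∈ a then ms μ a * G a else 0)) := by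
          intro a
          have h0 : 0 ≤ ms μ a * G a := mul_nonneg (hms a) (hG0 a)
          have hs0 : ∀ t ∈ (univ : Finset S), 0 ≤
              (if s t = none then 0 else (if t ∈ a then ms μ a * G a else 0)) := by
            intro t _
            split_ifs
            · exact le_rfl
            · exact h0
            · exact le_rfl
          by_cases h : a ∈ (univ.filter (fun t => s t = none)).powerset
          · rw [if_pos h]
            have := sum_nonneg hs0
            linarith
          · rw [if_neg h, zero_add]
            rw [mem_powerset, not_subset] at h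
            obtain ⟨t, ht, ht'⟩ := h
            have h5 : s t ≠ none := fun h => ht' (by rw [mem_filter]; exact ⟨mem_univ _, h⟩)
            have h6 := single_le_sum hs0 (mem_univ t)
            rw [if_neg h5, if_pos ht] at h6
            exact h6
        calc H = ∑ a, ms μ a * G a := rfl
          _ ≤ ∑ a, ((if a ∈ (univ.filter (fun t => s t = none)).powerset then ms μ a * G a
              else 0) + ∑ t, (if s t = none then 0 else (if t ∈ a then ms μ a * G a else 0))) :=
              sum_le_sum fun a _ => c2 a
          _ = _ := by
              rw [sum_add_distrib, sum_comm]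
              congr 1
              · rw [sum_ite_mem]
                simp
              · refine sum_congr rfl fun t _ => ?_
                split_ifs
                · simp
                · rw [sum_filter]
      have c3 : ∑ t, (if s t = none then 0 else
            ∑ a ∈ univ.filter (fun a : Finset S => t ∈ a), ms μ a * G a) ≤ ω * A1 := by
        have c4 : ∀ t, (if s t = none then 0 else
            ∑ a ∈ univ.filter (fun a : Finset S => t ∈ a), ms μ a * G a) ≤
            (if s t = none then 0 else μ t) * A1 := by
          intro t
          split_ifs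
          · simp
          · refine (sum_mem_le μ hμ G hG0 hGa t).trans ?_
            apply mul_le_mul_of_nonneg_left _ (hμ t)
            rw [hA1, ← sum_ms]
            apply sum_le_sum
            intro a _
            have h1 : G a ≤ 1 := by
              rw [← hG1]
              exact hGa ∅ a (empty_subset a)
            have := mul_le_mul_of_nonneg_left h1 (hms a)
            linarith
        refine (sum_le_sum fun t _ => c4 t).trans ?_
        rw [← sum_mul]
        apply mul_le_mul_of_nonneg_right
        · apply hω s
          have hGU1 : 0 ≤ U := by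
            have := hGU ∅ (by rw [hG1]; norm_num)
            simpa [lz] using this
          linarith
        · exact prod_nonneg fun t _ => by linarith [hμ t]
      linarith
    have b3 : 0 ≤ Y s * (H - ω * A1) := mul_nonneg (hY0 s) (by linarith)
    have b4 := pow_le_pow_left₀ b3 b2 2
    calc (H - ω * A1) ^ 2 * (mt μ s * Y s ^ 2) = mt μ s * (Y s * (H - ω * A1)) ^ 2 := by ring
      _ ≤ _ := mul_le_mul_of_nonneg_left b4 hm0
  -- step (1)
  rw [main_eq]
  have step1 : ∑ s ∈ 𝒢, (H - ω * A1) ^ 2 * (mt μ s * Y s ^ 2) ≤
      ∑ s : S → Option J, (∏ t, dd (q t) (s t)) *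
        (∑ σ, cw μ (yy l G R) σ * ∏ t, kk (some i) (s t) (σ t)) ^ 2 := by
    refine le_trans ?_ (sum_le_sum_of_subset_of_nonneg (subset_univ 𝒢) ?_)
    · apply sum_le_sum
      intro s hs
      refine (step2 s hs).trans ?_
      rw [h𝒢, mem_filter] at hs
      exact sq_lower i q μ hμ hμq (yy l G R) (yy_nonneg l G hG0 R) s hs.2.1
    · intro s _ _
      apply mul_nonneg _ (sq_nonneg _)
      apply prod_nonneg
      intro t _
      rcases s t with _ | k
      · simp [dd]
      · simp only [dd]
        linarith [hq t]
  refine le_trans ?_ step1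
  rw [← mul_sum, mul_assoc]
  apply mul_le_mul_of_nonneg_left _ (sq_nonneg _)
  have hPe : I2 ^ (Fintype.card J) / I2 = P := by
    rw [← hPI]
    field_simp
  rw [hPe]
  exact step3

end main

end Pool.Agent.R498.MT
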