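import Pool.Agent.R498.MT.Main

set_option autoImplicit false
set_option linter.unusedSectionVars false

/-! The masses. -/

namespace Pool.Agent.R498.MT

open Finset

section mert
variable {S : Type} [Fintype S] [DecidableEq S]

open Classical in
/-- Mertens' formula for the weights `μ` -/
def MerS (l μ : S → ℝ) (ε₁ w η : ℝ) : Prop :=
  ∀ a b : ℝ, ε₁ ≤ a → a ≤ b → b ≤ w →
    |∑ t ∈ univ.filter (fun t => a ≤ l t ∧ l t < b), μ t - Real.log (b / a)| ≤ η

open Classical in
/-- the mass of the sets of size below `u` -/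
noncomputable def mass (l μ : S → ℝ) (u : ℝ) : ℝ :=
  ∑ a ∈ univ.filter (fun a : Finset S => lz l a < u), ms μ a

theorem le_lz (l : S → ℝ) (hl : ∀ t, 0 ≤ l t) (a : Finset S) (t : S) (ht : t ∈ a) :
    l t ≤ lz l a := by
  unfold lz
  exact single_le_sum (fun t _ => hl t) ht

theorem log2_bd : Real.log 2 ≤ 7 / 10 := by linarith [Real.log_two_lt_d9]

theorem exp_bd (η : ℝ) (hη : η ≤ 1 / 20) : Real.exp η ≤ 6 / 5 := by
  have h1 : Real.exp η ≤ Real.exp (1 / 20) := Real.exp_le_exp.2 hη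
  have h2 : (19 : ℝ) / 20 ≤ Real.exp (-(1 / 20)) := by
    have := Real.add_one_le_exp (-(1 / 20 : ℝ))
    linarith
  have h3 : Real.exp (-(1 / 20)) * Real.exp (1 / 20) = 1 := by
    rw [← Real.exp_add]; simp
  have h4 := Real.exp_pos (1 / 20 : ℝ)
  nlinarith

theorem mass_upper (l μ : S → ℝ) (hμ : ∀ t, 0 ≤ μ t) (ε₁ w η : ℝ) (hε : 0 < ε₁)
    (hl : ∀ t, ε₁ ≤ l t) (hη : η ≤ 1 / 20) (hM : MerS l μ ε₁ w η) (u : ℝ) (hu : ε₁ ≤ u)
    (huw : u ≤ w) : mass l μ u ≤ 6 / 5 * (u / ε₁) := by
  classical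
  set Su : Finset S := univ.filter (fun t => l t < u) with hSu
  have hl0 : ∀ t, 0 ≤ l t := fun t => hε.le.trans (hl t)
  have h1 : mass l μ u ≤ ∑ a ∈ Su.powerset, ms μ a := by
    unfold mass
    apply sum_le_sum_of_subset_of_nonneg
    · intro a ha
      rw [mem_filter] at ha
      rw [mem_powerset]
      intro t ht
      rw [hSu, mem_filter]
      exact ⟨mem_univ _, (le_lz l hl0 a t ht).trans_lt ha.2⟩
    · intro a _ _
      exact prod_nonneg fun t _ => hμ t
  have h2 : ∑ a ∈ Su.powerset, ms μ a = ∏ t ∈ Su, (1 + μ t) := by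
    rw [prod_one_add]
    rfl
  have h3 : ∏ t ∈ Su, (1 + μ t) ≤ Real.exp (∑ t ∈ Su, μ t) := by
    rw [Real.exp_sum]
    apply prod_le_prod
    · intro t _; linarith [hμ t]
    · intro t _
      have := Real.add_one_le_exp (μ t)
      linarith
  have h4 := hM ε₁ u le_rfl hu huw
  have h5 : univ.filter (fun t => ε₁ ≤ l t ∧ l t < u) = Su := by
    rw [hSu]
    apply filter_congr
    intro t _
    simp [hl t]
  rw [h5, abs_le] at h4
  have h6 : Real.exp (∑ t ∈ Su, μ t) ≤ Real.exp (Real.log (u / ε₁) + η) :=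
    Real.exp_le_exp.2 (by linarith [h4.2])
  have hu0 : 0 < u / ε₁ := div_pos (by linarith) hε
  rw [Real.exp_add, Real.exp_log hu0] at h6
  have h7 := exp_bd η hη
  calc mass l μ u ≤ u / ε₁ * Real.exp η := h1.trans (h2.le.trans (h3.trans h6))
    _ ≤ u / ε₁ * (6 / 5) := mul_le_mul_of_nonneg_left h7 hu0.le
    _ = _ := by ring

theorem lsum (l μ : S → ℝ) (hμ : ∀ t, 0 ≤ μ t) (ε₁ w η : ℝ) (hε : 0 < ε₁)
    (hl : ∀ t, ε₁ ≤ l t) (hη : η ≤ 1 / 20) (hM : MerS l μ ε₁ w η) [DecidableEq ℝ] (n : ℕ) :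
    ∀ v : ℝ, ε₁ ≤ v → v ≤ 2 ^ n * ε₁ → v ≤ w →
    ∑ t ∈ univ.filter (fun t => l t < v), l t * μ t ≤ 3 / 2 * v := by
  classical
  induction n with
  | zero =>
    intro v h1 h2 h3
    rw [sum_eq_zero]
    · linarith
    · intro t ht
      have h4 := (mem_filter.1 ht).2
      rw [pow_zero, one_mul] at h2
      linarith [hl t]
  | succ n ih =>
    intro v h1 h2 h3
    have hv : 0 < v := by linarith
    have hlog2 := log2_bd
    by_cases hc : ε₁ ≤ v / 2
    · have h4 := ih (v / 2) hc (by rw [pow_succ] at h2; linarith) (by linarith)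
      have h5 : ∑ t ∈ univ.filter (fun t => l t < v), l t * μ t ≤
          ∑ t ∈ univ.filter (fun t => l t < v / 2), l t * μ t +
          ∑ t ∈ univ.filter (fun t => v / 2 ≤ l t ∧ l t < v), v * μ t := by
        have e : univ.filter (fun t => l t < v) = univ.filter (fun t => l t < v / 2) ∪
            univ.filter (fun t => v / 2 ≤ l t ∧ l t < v) := by
          ext t
          simp only [mem_filter, mem_univ, true_and, mem_union]
          constructor
          · intro h
            rcases lt_or_ge (l t) (v / 2) with h' | h'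
            · exact Or.inl h'
            · exact Or.inr ⟨h', h⟩
          · rintro (h | h)
            · linarith
            · exact h.2
        have hd : Disjoint (univ.filter (fun t => l t < v / 2))
            (univ.filter (fun t => v / 2 ≤ l t ∧ l t < v)) := by
          rw [disjoint_left]
          intro t ht ht'
          rw [mem_filter] at ht ht'
          linarith [ht.2, ht'.2.1]
        rw [e, sum_union hd]
        apply add_le_add le_rfl
        apply sum_le_sum
        intro t ht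
        exact mul_le_mul_of_nonneg_right (mem_filter.1 ht).2.2.le (hμ t)
      have h6 := hM (v / 2) v hc (by linarith) h3
      rw [abs_le] at h6
      have h7 : v / (v / 2) = 2 := by field_simp
      rw [h7] at h6
      rw [← mul_sum] at h5
      have h8 : v * ∑ t ∈ univ.filter (fun t => v / 2 ≤ l t ∧ l t < v), μ t ≤ v * (3 / 4) :=
        mul_le_mul_of_nonneg_left (by linarith [h6.2]) hv.le
      linarith
    · push Not at hc
      have h5 : ∑ t ∈ univ.filter (fun t => l t < v), l t * μ t ≤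
          ∑ t ∈ univ.filter (fun t => ε₁ ≤ l t ∧ l t < v), v * μ t := by
        have e : univ.filter (fun t => l t < v) = univ.filter (fun t => ε₁ ≤ l t ∧ l t < v) := by
          apply filter_congr
          intro t _
          simp [hl t]
        rw [e]
        apply sum_le_sum
        intro t ht
        exact mul_le_mul_of_nonneg_right (mem_filter.1 ht).2.2.le (hμ t)
      have h6 := hM ε₁ v le_rfl h1 h3
      rw [abs_le] at h6
      have h7 : Real.log (v / ε₁) ≤ Real.log 2 := by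
        apply Real.log_le_log (div_pos hv hε)
        rw [div_le_iff₀ hε]
        linarith
      rw [← mul_sum] at h5
      have h8 : v * ∑ t ∈ univ.filter (fun t => ε₁ ≤ l t ∧ l t < v), μ t ≤ v * (3 / 4) :=
        mul_le_mul_of_nonneg_left (by linarith [h6.2]) hv.le
      linarith

theorem one_add_ge (x : ℝ) (hx : 0 ≤ x) : Real.exp (x - x ^ 2) ≤ 1 + x := by
  have h1 : 0 < 1 + x := by linarith
  rw [← Real.le_log_iff_exp_le h1]
  have h2 := Real.one_sub_inv_le_log_of_pos h1
  refine le_trans ?_ h2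
  have h3 : 1 - (1 + x)⁻¹ = x / (1 + x) := by field_simp; ring
  rw [h3, le_div_iff₀ h1]
  nlinarith [mul_nonneg hx (sq_nonneg x)]

theorem mass_lower (l μ : S → ℝ) (hμ : ∀ t, 0 ≤ μ t) (ε₁ w η : ℝ) (hε : 0 < ε₁)
    (hl : ∀ t, ε₁ ≤ l t) (hη : η ≤ 1 / 20) (hM : MerS l μ ε₁ w η)
    (hsq : ∑ t, μ t ^ 2 ≤ 1 / 20) (u : ℝ) (hu : 4 * ε₁ ≤ u)
    (huw : u ≤ w) : u / ε₁ / 10 ≤ mass l μ u := by
  classical
  set v : ℝ := u / 4 with hv
  have hεv : ε₁ ≤ v := by rw [hv]; linarith
  have hu0 : 0 < u := by linarith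
  have hv0 : 0 < v := by linarith
  set Sv : Finset S := univ.filter (fun t => l t < v) with hSv
  have hl0 : ∀ t, 0 ≤ l t := fun t => hε.le.trans (hl t)
  have hms : ∀ a, 0 ≤ ms μ a := fun a => prod_nonneg fun t _ => hμ t
  have hlz : ∀ a, 0 ≤ lz l a := fun a => sum_nonneg fun t _ => hl0 t
  set Pv : ℝ := ∏ t ∈ Sv, (1 + μ t) with hPv
  have hPv0 : 0 ≤ Pv := prod_nonneg fun t _ => by linarith [hμ t]
  have h1 : ∑ a ∈ Sv.powerset, ms μ a * (1 - lz l a / u) ≤ mass l μ u := by
    unfold mass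
    calc ∑ a ∈ Sv.powerset, ms μ a * (1 - lz l a / u) ≤
        ∑ a ∈ Sv.powerset, (if lz l a < u then ms μ a else 0) := by
          apply sum_le_sum
          intro a _
          split_ifs with h
          · have h2 : 0 ≤ lz l a / u := div_nonneg (hlz a) hu0.le
            have h3 := hms a
            nlinarith
          · push Not at h
            have h2 : 1 ≤ lz l a / u := by rw [le_div_iff₀ hu0]; linarith
            have h3 := hms a
            nlinarith
      _ = ∑ a ∈ Sv.powerset.filter (fun a => lz l a < u), ms μ a := by rw [sum_filter]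
      _ ≤ _ := by
          apply sum_le_sum_of_subset_of_nonneg
          · intro a ha
            rw [mem_filter] at ha ⊢
            exact ⟨mem_univ _, ha.2⟩
          · intro a _ _
            exact hms a
  have h2 : ∑ a ∈ Sv.powerset, ms μ a = Pv := by
    rw [hPv, prod_one_add]
    rfl
  have h3 : ∑ a ∈ Sv.powerset, ms μ a * lz l a ≤ (∑ t ∈ Sv, l t * μ t) * Pv := by
    have e1 : ∀ a ∈ Sv.powerset, ms μ a * lz l a =
        ∑ t ∈ Sv, (if t ∈ a then l t * ms μ a else 0) := by
      intro a ha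
      rw [mem_powerset] at ha
      unfold lz
      rw [mul_sum, ← sum_filter]
      have : Sv.filter (fun t => t ∈ a) = a := by
        ext t
        rw [mem_filter]
        exact ⟨fun h => h.2, fun h => ⟨ha h, h⟩⟩
      rw [this]
      refine sum_congr rfl fun t _ => ?_
      ring
    rw [sum_congr rfl e1, sum_comm, sum_mul]
    apply sum_le_sum
    intro t ht
    have e2 : ∑ a ∈ Sv.powerset, (if t ∈ a then l t * ms μ a else 0) =
        l t * ∑ a ∈ Sv.powerset.filter (fun a => t ∈ a), ms μ a := by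
      rw [← sum_filter, mul_sum]
    rw [e2, mul_assoc]
    apply mul_le_mul_of_nonneg_left _ (hl0 t)
    have e3 : ∑ a ∈ Sv.powerset.filter (fun a => t ∈ a), ms μ a =
        ∑ a ∈ Sv.powerset.filter (fun a => t ∉ a), μ t * ms μ a := by
      refine sum_bij' (fun a _ => a.erase t) (fun a _ => insert t a) ?_ ?_ ?_ ?_ ?_
      · intro a ha
        rw [mem_filter, mem_powerset] at ha ⊢
        exact ⟨(erase_subset _ _).trans ha.1, notMem_erase _ _⟩
      · intro a ha
        rw [mem_filter, mem_powerset] at ha ⊢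
        exact ⟨insert_subset ht ha.1, mem_insert_self _ _⟩
      · intro a ha
        exact insert_erase (mem_filter.1 ha).2
      · intro a ha
        exact erase_insert (mem_filter.1 ha).2
      · intro a ha
        unfold ms
        rw [mul_prod_erase a μ (mem_filter.1 ha).2]
    rw [e3, ← mul_sum]
    apply mul_le_mul_of_nonneg_left _ (hμ t)
    rw [← h2]
    apply sum_le_sum_of_subset_of_nonneg (filter_subset _ _)
    intro a _ _
    exact hms a
  have h4 : ∑ a ∈ Sv.powerset, ms μ a * (1 - lz l a / u) =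
      Pv - (∑ a ∈ Sv.powerset, ms μ a * lz l a) / u := by
    rw [← h2, sum_div, ← sum_sub_distrib]
    refine sum_congr rfl fun a _ => ?_
    ring
  obtain ⟨n, hn⟩ : ∃ n : ℕ, v / ε₁ ≤ 2 ^ n := by
    obtain ⟨n, hn⟩ := pow_unbounded_of_one_lt (v / ε₁) (show (1 : ℝ) < 2 by norm_num)
    exact ⟨n, hn.le⟩
  have h5 := lsum l μ hμ ε₁ w η hε hl hη hM n v hεv (by rw [div_le_iff₀ hε] at hn; exact hn)
    (by linarith)
  have h6 : (∑ a ∈ Sv.powerset, ms μ a * lz l a) / u ≤ 3 / 8 * Pv := by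
    rw [div_le_iff₀ hu0]
    refine h3.trans ?_
    calc (∑ t ∈ Sv, l t * μ t) * Pv ≤ (3 / 2 * v) * Pv := mul_le_mul_of_nonneg_right h5 hPv0
      _ = 3 / 8 * Pv * u := by rw [hv]; ring
  have h7 : u / ε₁ / 10 ≤ 5 / 8 * Pv := by
    have h8 : Real.exp (∑ t ∈ Sv, μ t - ∑ t ∈ Sv, μ t ^ 2) ≤ Pv := by
      rw [← sum_sub_distrib, Real.exp_sum, hPv]
      apply prod_le_prod
      · intro t _; exact (Real.exp_pos _).le
      · intro t _
        exact one_add_ge (μ t) (hμ t)
    have h9 := hM ε₁ v le_rfl hεv (by linarith)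
    have h10 : univ.filter (fun t => ε₁ ≤ l t ∧ l t < v) = Sv := by
      rw [hSv]
      apply filter_congr
      intro t _
      simp [hl t]
    rw [h10, abs_le] at h9
    have h11 : ∑ t ∈ Sv, μ t ^ 2 ≤ 1 / 20 :=
      (sum_le_sum_of_subset_of_nonneg (subset_univ _) fun t _ _ => sq_nonneg _).trans hsq
    have h12 : Real.exp (Real.log (v / ε₁) + (-(1 / 10))) ≤
        Real.exp (∑ t ∈ Sv, μ t - ∑ t ∈ Sv, μ t ^ 2) :=
      Real.exp_le_exp.2 (by linarith [h9.1])
    have hvε : 0 < v / ε₁ := div_pos hv0 hε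
    rw [Real.exp_add, Real.exp_log hvε] at h12
    have h13 : (9 : ℝ) / 10 ≤ Real.exp (-(1 / 10)) := by
      have := Real.add_one_le_exp (-(1 / 10 : ℝ))
      linarith
    have h14 : v / ε₁ * (9 / 10) ≤ Pv :=
      (mul_le_mul_of_nonneg_left h13 hvε.le).trans (h12.trans h8)
    have h15 : u / ε₁ = 4 * (v / ε₁) := by rw [hv]; ring
    rw [h15]
    linarith
  rw [h4] at h1
  linarith

/-- the profile of the weights -/
noncomputable def gp : ℕ → ℝ → ℝ → ℝ
  | 0, u, v => if v < u then 1 else 0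
  | k + 1, u, v => if v < u then 1 else 1 / 2 * gp k (2 * u) v

theorem gp_bd (k : ℕ) : ∀ u v : ℝ, 0 ≤ gp k u v ∧ gp k u v ≤ 1 := by
  induction k with
  | zero =>
    intro u v
    simp only [gp]
    split_ifs <;> norm_num
  | succ k ih =>
    intro u v
    simp only [gp]
    have := ih (2 * u) v
    split_ifs
    · norm_num
    · constructor <;> linarith

theorem gp_anti (k : ℕ) : ∀ u v v' : ℝ, v ≤ v' → gp k u v' ≤ gp k u v := by
  induction k with
  | zero =>
    intro u v v' h
    simp only [gp]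
    split_ifs
    · exact le_rfl
    · linarith
    · norm_num
    · exact le_rfl
  | succ k ih =>
    intro u v v' h
    simp only [gp]
    have h1 := ih (2 * u) v v' h
    have h2 := gp_bd k (2 * u) v'
    split_ifs
    · exact le_rfl
    · linarith
    · linarith
    · linarith

theorem gp_supp (k : ℕ) : ∀ u v : ℝ, 0 ≤ u → gp k u v ≠ 0 → v < 2 ^ k * u := by
  induction k with
  | zero =>
    intro u v _ h
    simp only [gp] at h
    split_ifs at h with h'
    · simpa using h'
    · exact absurd rfl h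
  | succ k ih =>
    intro u v hu h
    simp only [gp] at h
    have h2 : (1 : ℝ) ≤ 2 ^ (k + 1) := one_le_pow₀ (by norm_num)
    split_ifs at h with h'
    · nlinarith
    · have h3 := ih (2 * u) v (by linarith) (fun h0 => h (by rw [h0, mul_zero]))
      rw [pow_succ]
      linarith

theorem gp_zero (k : ℕ) (u : ℝ) (hu : 0 < u) : gp k u 0 = 1 := by
  cases k with
  | zero => simp [gp, hu]
  | succ k => simp [gp, hu]

theorem mass_nonneg (l μ : S → ℝ) (hμ : ∀ t, 0 ≤ μ t) (u : ℝ) : 0 ≤ mass l μ u :=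
  sum_nonneg fun a _ => prod_nonneg fun t _ => hμ t

theorem sum_H (l μ : S → ℝ) (hμ : ∀ t, 0 ≤ μ t) (ε₁ w η : ℝ) (hε : 0 < ε₁)
    (hl : ∀ t, ε₁ ≤ l t) (hη : η ≤ 1 / 20) (hM : MerS l μ ε₁ w η)
    (hsq : ∑ t, μ t ^ 2 ≤ 1 / 20) (k : ℕ) :
    ∀ u : ℝ, 4 * ε₁ ≤ u → 2 ^ k * u ≤ w →
      ((k : ℝ) / 2 + 1) * (u / ε₁ / 10) ≤ ∑ a, ms μ a * gp k u (lz l a) := by
  classical
  have hms : ∀ a, 0 ≤ ms μ a := fun a => prod_nonneg fun t _ => hμ t
  induction k with
  | zero =>
    intro u h1 h2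
    rw [pow_zero, one_mul] at h2
    have h3 := mass_lower l μ hμ ε₁ w η hε hl hη hM hsq u h1 h2
    have e : ∑ a, ms μ a * gp 0 u (lz l a) = mass l μ u := by
      unfold mass
      rw [sum_filter]
      refine sum_congr rfl fun a _ => ?_
      simp only [gp]
      split_ifs <;> simp
    rw [e]
    simpa using h3
  | succ k ih =>
    intro u h1 h2
    have hu0 : 0 < u := by linarith
    have hp : (1 : ℝ) ≤ 2 ^ (k + 1) := one_le_pow₀ (by norm_num)
    have h3 := mass_lower l μ hμ ε₁ w η hε hl hη hM hsq u h1 (by nlinarith)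
    have h4 := ih (2 * u) (by linarith) (by rw [pow_succ] at h2; linarith)
    have h5 : 1 / 2 * mass l μ u + 1 / 2 * ∑ a, ms μ a * gp k (2 * u) (lz l a) ≤
        ∑ a, ms μ a * gp (k + 1) u (lz l a) := by
      unfold mass
      rw [sum_filter, mul_sum, mul_sum, ← sum_add_distrib]
      apply sum_le_sum
      intro a _
      have h6 := gp_bd k (2 * u) (lz l a)
      have h7 := hms a
      simp only [gp]
      split_ifs
      · nlinarith
      · linarith
    have h8 : 2 * u / ε₁ / 10 = 2 * (u / ε₁ / 10) := by ring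
    rw [h8] at h4
    push_cast
    linarith

theorem sum_I2 (l μ : S → ℝ) (hμ : ∀ t, 0 ≤ μ t) (ε₁ w η : ℝ) (hε : 0 < ε₁)
    (hl : ∀ t, ε₁ ≤ l t) (hη : η ≤ 1 / 20) (hM : MerS l μ ε₁ w η) (k : ℕ) :
    ∀ u : ℝ, ε₁ ≤ u → 2 ^ k * u ≤ w →
      ∑ a, ms μ a * gp k u (lz l a) ^ 2 ≤ 12 / 5 * (u / ε₁) := by
  classical
  have hms : ∀ a, 0 ≤ ms μ a := fun a => prod_nonneg fun t _ => hμ t
  induction k with
  | zero =>
    intro u h1 h2
    rw [pow_zero, one_mul] at h2
    have h3 := mass_upper l μ hμ ε₁ w η hε hl hη hM u h1 h2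
    have e : ∑ a, ms μ a * gp 0 u (lz l a) ^ 2 = mass l μ u := by
      unfold mass
      rw [sum_filter]
      refine sum_congr rfl fun a _ => ?_
      simp only [gp]
      split_ifs <;> simp
    rw [e]
    have : 0 ≤ u / ε₁ := div_nonneg (by linarith) hε.le
    linarith
  | succ k ih =>
    intro u h1 h2
    have hu0 : 0 < u := by linarith
    have hp : (1 : ℝ) ≤ 2 ^ (k + 1) := one_le_pow₀ (by norm_num)
    have h3 := mass_upper l μ hμ ε₁ w η hε hl hη hM u h1 (by nlinarith)
    have h4 := ih (2 * u) (by linarith) (by rw [pow_succ] at h2; linarith)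
    have h5 : ∑ a, ms μ a * gp (k + 1) u (lz l a) ^ 2 ≤
        mass l μ u + 1 / 4 * ∑ a, ms μ a * gp k (2 * u) (lz l a) ^ 2 := by
      unfold mass
      rw [sum_filter, mul_sum, ← sum_add_distrib]
      apply sum_le_sum
      intro a _
      have h6 := gp_bd k (2 * u) (lz l a)
      have h7 := hms a
      have h8 : 0 ≤ ms μ a * gp k (2 * u) (lz l a) ^ 2 := mul_nonneg h7 (sq_nonneg _)
      simp only [gp]
      split_ifs
      · linarith
      · linarith
    have h8 : 2 * u / ε₁ = 2 * (u / ε₁) := by ring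
    rw [h8] at h4
    linarith

theorem sum_IE (l μ : S → ℝ) (hμ : ∀ t, 0 ≤ μ t) (ε₁ w η : ℝ) (hε : 0 < ε₁)
    (hl : ∀ t, ε₁ ≤ l t) (hη : η ≤ 1 / 20) (hM : MerS l μ ε₁ w η) (k : ℕ) :
    ∀ u : ℝ, ε₁ ≤ u → 2 ^ k * u ≤ w →
      ∑ a, lz l a * (ms μ a * gp k u (lz l a) ^ 2) ≤ 6 / 5 * ((k : ℝ) + 1) * (u ^ 2 / ε₁) := by
  classical
  have hms : ∀ a, 0 ≤ ms μ a := fun a => prod_nonneg fun t _ => hμ t
  have hl0 : ∀ t, 0 ≤ l t := fun t => hε.le.trans (hl t)
  have hlz : ∀ a, 0 ≤ lz l a := fun a => sum_nonneg fun t _ => hl0 t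
  induction k with
  | zero =>
    intro u h1 h2
    rw [pow_zero, one_mul] at h2
    have h3 := mass_upper l μ hμ ε₁ w η hε hl hη hM u h1 h2
    have e : ∑ a, lz l a * (ms μ a * gp 0 u (lz l a) ^ 2) ≤ u * mass l μ u := by
      unfold mass
      rw [sum_filter, mul_sum]
      apply sum_le_sum
      intro a _
      have h7 := hms a
      simp only [gp]
      split_ifs with h
      · have := mul_le_mul_of_nonneg_right h.le h7
        linarith
      · simp
    refine e.trans ?_
    have h5 : u * mass l μ u ≤ u * (6 / 5 * (u / ε₁)) :=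
      mul_le_mul_of_nonneg_left h3 (by linarith)
    refine h5.trans (le_of_eq ?_)
    push_cast
    ring
  | succ k ih =>
    intro u h1 h2
    have hu0 : 0 < u := by linarith
    have hp : (1 : ℝ) ≤ 2 ^ (k + 1) := one_le_pow₀ (by norm_num)
    have h3 := mass_upper l μ hμ ε₁ w η hε hl hη hM u h1 (by nlinarith)
    have h4 := ih (2 * u) (by linarith) (by rw [pow_succ] at h2; linarith)
    have h5 : ∑ a, lz l a * (ms μ a * gp (k + 1) u (lz l a) ^ 2) ≤
        u * mass l μ u + 1 / 4 * ∑ a, lz l a * (ms μ a * gp k (2 * u) (lz l a) ^ 2) := by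
      unfold mass
      rw [sum_filter, mul_sum, mul_sum, ← sum_add_distrib]
      apply sum_le_sum
      intro a _
      have h6 := gp_bd k (2 * u) (lz l a)
      have h7 := hms a
      have h8 : 0 ≤ lz l a * (ms μ a * gp k (2 * u) (lz l a) ^ 2) :=
        mul_nonneg (hlz a) (mul_nonneg h7 (sq_nonneg _))
      simp only [gp]
      split_ifs with h
      · have := mul_le_mul_of_nonneg_right h.le h7
        linarith
      · linarith
    have h6 : u * mass l μ u ≤ u * (6 / 5 * (u / ε₁)) :=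
      mul_le_mul_of_nonneg_left h3 (by linarith)
    have h8 : (2 * u) ^ 2 / ε₁ = 4 * (u ^ 2 / ε₁) := by ring
    have h9 : u * (6 / 5 * (u / ε₁)) = 6 / 5 * (u ^ 2 / ε₁) := by ring
    rw [h8] at h4
    rw [h9] at h6
    push_cast
    linarith

theorem sum_I2_lower (l μ : S → ℝ) (hμ : ∀ t, 0 ≤ μ t) (ε₁ w η : ℝ) (hε : 0 < ε₁)
    (hl : ∀ t, ε₁ ≤ l t) (hη : η ≤ 1 / 20) (hM : MerS l μ ε₁ w η)
    (hsq : ∑ t, μ t ^ 2 ≤ 1 / 20) (k : ℕ) (u : ℝ) (hu : 4 * ε₁ ≤ u) (huw : u ≤ w) :
    u / ε₁ / 10 ≤ ∑ a, ms μ a * gp k u (lz l a) ^ 2 := by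
  classical
  refine (mass_lower l μ hμ ε₁ w η hε hl hη hM hsq u hu huw).trans ?_
  unfold mass
  rw [sum_filter]
  apply sum_le_sum
  intro a _
  have h7 : 0 ≤ ms μ a := prod_nonneg fun t _ => hμ t
  split_ifs with h
  · have : gp k u (lz l a) = 1 := by
      cases k with
      | zero => simp [gp, h]
      | succ k => simp [gp, h]
    rw [this]
    linarith
  · exact mul_nonneg h7 (sq_nonneg _)

end mert

end Pool.Agent.R498.MT
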