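import Pool.Agent.R498.MT.Err
import Pool.Agent.R498.MT.Mert

set_option autoImplicit false
set_option linter.unusedSectionVars false

/-! The choice of the parameters. -/

namespace Pool.Agent.R498.MT

open Finset

section param
variable {S J : Type} [Fintype S] [DecidableEq S] [Fintype J] [DecidableEq J]

theorem good_of (i : Option J) (q l : S → ℝ) (hl : ∀ t, 0 ≤ l t) (T : Finset S)
    (σ τ U : S → Option J)
    (h : ∀ t, co (lc2 i (q t) (decide (t ∈ T)) (σ t) (τ t)) (U t) ≠ 0) :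
    lt l U ≤ lt l σ + lt l τ + lz l T := by
  have h1 : lz l T = ∑ t, (if t ∈ T then l t else 0) := by
    unfold lz
    rw [sum_ite_mem]
    simp
  rw [h1]
  unfold lt
  rw [← sum_add_distrib, ← sum_add_distrib]
  apply sum_le_sum
  intro t _
  have h2 := h t
  by_cases hU : U t = none
  · rw [if_pos hU]
    have := hl t
    split_ifs <;> linarith
  · rw [if_neg hU]
    have h3 : σ t ≠ none ∨ τ t ≠ none ∨ t ∈ T := by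
      by_contra hcon
      push Not at hcon
      obtain ⟨a1, a2, a3⟩ := hcon
      apply h2
      rw [a1, a2]
      rcases hUt : U t with _ | j
      · exact absurd hUt hU
      · simp [co, lc2, hv, a3]
    have := hl t
    split_ifs <;> first | linarith | (exfalso; tauto)

/-- the mass of the whole set -/
theorem AA_le (K : ℕ) (l μ : S → ℝ) (hμ : ∀ t, 0 ≤ μ t) (ε₁ w η : ℝ) (hε : 0 < ε₁)
    (hεw : ε₁ ≤ w) (hw1 : w ≤ 1) (hl : ∀ t, ε₁ ≤ l t) (hlw : ∀ t, l t < w) (hη : η ≤ 1 / 20)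
    (hM : MerS l μ ε₁ w η) :
    ∏ t, (1 + 8 * (K : ℝ) ^ 2 * μ t) ≤ Real.exp (8 * (K : ℝ) ^ 2) * (1 / ε₁) ^ (8 * K ^ 2) := by
  classical
  have h1 : ∏ t, (1 + 8 * (K : ℝ) ^ 2 * μ t) ≤ Real.exp (∑ t, 8 * (K : ℝ) ^ 2 * μ t) := by
    rw [Real.exp_sum]
    apply prod_le_prod
    · intro t _
      have := hμ t
      positivity
    · intro t _
      have := Real.add_one_le_exp (8 * (K : ℝ) ^ 2 * μ t)
      linarith
  have h2 := hM ε₁ w le_rfl hεw le_rfl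
  have h3 : univ.filter (fun t => ε₁ ≤ l t ∧ l t < w) = univ := by
    ext t
    simp [hl t, hlw t]
  rw [h3, abs_le] at h2
  have h4 : Real.log (w / ε₁) ≤ Real.log (1 / ε₁) := by
    apply Real.log_le_log (div_pos (by linarith) hε)
    exact div_le_div_of_nonneg_right hw1 hε.le
  have h5 : ∑ t, μ t ≤ Real.log (1 / ε₁) + 1 := by linarith [h2.2]
  refine h1.trans ?_
  rw [← mul_sum]
  have h6 : 8 * (K : ℝ) ^ 2 * ∑ t, μ t ≤ 8 * (K : ℝ) ^ 2 * (Real.log (1 / ε₁) + 1) :=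
    mul_le_mul_of_nonneg_left h5 (by positivity)
  refine (Real.exp_le_exp.2 h6).trans (le_of_eq ?_)
  have h7 : (1 / ε₁) ^ (8 * K ^ 2) = Real.exp (((8 * K ^ 2 : ℕ) : ℝ) * Real.log (1 / ε₁)) := by
    rw [Real.exp_nat_mul, Real.exp_log (by positivity)]
  rw [h7, ← Real.exp_add]
  congr 1
  push_cast
  ring

/-- the parameter `u₀` -/
noncomputable def u0 (R : ℝ) (k : ℕ) : ℝ := R / (96 * 2 ^ k * ((k : ℝ) + 1))

/-- the bound of the masses -/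
noncomputable def Ab (k : ℕ) (ε₁ : ℝ) : ℝ :=
  Real.exp (8 * ((2 ^ k : ℕ) : ℝ) ^ 2) * (1 / ε₁) ^ (8 * (2 ^ k) ^ 2)

/-- the tolerance -/
noncomputable def om (k : ℕ) (C₁ ε₁ : ℝ) : ℝ :=
  1 / (96 * ((2 ^ k : ℕ) : ℝ) ^ 2 * 2 ^ k * (1 + C₁) * Ab k ε₁ ^ 2)

/-- the largest `ε₁` -/
noncomputable def e0 (k : ℕ) (C₁ R : ℝ) : ℝ :=
  min (min (u0 R k / 4) 1) (1 / (4 * 2 ^ k * (1 + C₁) * Real.exp (16 * ((2 ^ k : ℕ) : ℝ) ^ 2)))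

theorem Ab_one (k : ℕ) (ε₁ : ℝ) (h : 0 < ε₁) (h1 : ε₁ ≤ 1) : 1 ≤ Ab k ε₁ := by
  unfold Ab
  have h2 : (1 : ℝ) ≤ Real.exp (8 * ((2 ^ k : ℕ) : ℝ) ^ 2) := Real.one_le_exp (by positivity)
  have h3 : (1 : ℝ) ≤ (1 / ε₁) ^ (8 * (2 ^ k) ^ 2) := by
    apply one_le_pow₀
    rw [le_div_iff₀ h]
    linarith
  nlinarith

theorem Ab_E (k : ℕ) (C₁ R ε₁ E : ℝ) (hC : 0 ≤ C₁) (h : 0 < ε₁) (h1 : ε₁ ≤ e0 k C₁ R)
    (hE : E ≤ ε₁ ^ (16 * (2 ^ k) ^ 2 + 1)) :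
    (1 + C₁) * Ab k ε₁ ^ 2 * E ≤ 1 / (4 * 2 ^ k) := by
  have h2 : ε₁ ≤ 1 / (4 * 2 ^ k * (1 + C₁) * Real.exp (16 * ((2 ^ k : ℕ) : ℝ) ^ 2)) :=
    h1.trans (min_le_right _ _)
  have h3 : Ab k ε₁ ^ 2 * ε₁ ^ (16 * (2 ^ k) ^ 2 + 1) =
      Real.exp (16 * ((2 ^ k : ℕ) : ℝ) ^ 2) * ε₁ := by
    unfold Ab
    rw [mul_pow, ← Real.exp_nat_mul, ← pow_mul, one_div, inv_pow]
    have e1 : 8 * (2 ^ k) ^ 2 * 2 = 16 * (2 ^ k) ^ 2 := by ring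
    rw [e1, pow_succ ε₁ (16 * (2 ^ k) ^ 2)]
    have h4 : ε₁ ^ (16 * (2 ^ k) ^ 2) ≠ 0 := pow_ne_zero _ h.ne'
    have e2 : ((2 : ℕ) : ℝ) * (8 * ((2 ^ k : ℕ) : ℝ) ^ 2) = 16 * ((2 ^ k : ℕ) : ℝ) ^ 2 := by
      push_cast; ring
    rw [e2]
    field_simp
  have h4 : (1 + C₁) * Ab k ε₁ ^ 2 * E ≤ (1 + C₁) * (Ab k ε₁ ^ 2 * ε₁ ^ (16 * (2 ^ k) ^ 2 + 1)) := by
    rw [mul_assoc]
    apply mul_le_mul_of_nonneg_left _ (by linarith)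
    exact mul_le_mul_of_nonneg_left hE (sq_nonneg _)
  refine h4.trans ?_
  rw [h3]
  have h5 : 0 < Real.exp (16 * ((2 ^ k : ℕ) : ℝ) ^ 2) := Real.exp_pos _
  have h6 : 0 < 1 + C₁ := by linarith
  rw [le_div_iff₀ (by positivity)] at h2
  rw [le_div_iff₀ (by positivity)]
  calc (1 + C₁) * (Real.exp (16 * ((2 ^ k : ℕ) : ℝ) ^ 2) * ε₁) * (4 * 2 ^ k) =
      ε₁ * (4 * 2 ^ k * (1 + C₁) * Real.exp (16 * ((2 ^ k : ℕ) : ℝ) ^ 2)) := by ring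
    _ ≤ 1 := h2

theorem om_bd (k : ℕ) (C₁ ε₁ : ℝ) (hC : 0 ≤ C₁) (h : 0 < ε₁) (h1 : ε₁ ≤ 1) :
    0 < om k C₁ ε₁ ∧ om k C₁ ε₁ ≤ 1 / 20 ∧ ((2 ^ k : ℕ) : ℝ) ^ 2 * om k C₁ ε₁ ≤ 1 / 96 ∧
    om k C₁ ε₁ * Ab k ε₁ ≤ 1 / 2 ∧
    (1 + C₁) * Ab k ε₁ ^ 2 * (Real.exp (6 * ((2 ^ k : ℕ) : ℝ) ^ 2 * om k C₁ ε₁) - 1) ≤
      1 / (8 * 2 ^ k) := by
  have hA := Ab_one k ε₁ h h1
  have hA0 : 0 < Ab k ε₁ := by linarith
  set K : ℝ := ((2 ^ k : ℕ) : ℝ) with hK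
  have hK1 : 1 ≤ K := by
    rw [hK]
    exact_mod_cast Nat.one_le_two_pow
  have hp : (1 : ℝ) ≤ 2 ^ k := one_le_pow₀ (by norm_num)
  have hC1 : 1 ≤ 1 + C₁ := by linarith
  have hK2 : 1 ≤ K ^ 2 := one_le_pow₀ hK1
  have hA2 : 1 ≤ Ab k ε₁ ^ 2 := one_le_pow₀ hA
  have hAA : Ab k ε₁ ≤ Ab k ε₁ ^ 2 := by nlinarith
  have hden : 0 < 96 * K ^ 2 * 2 ^ k * (1 + C₁) * Ab k ε₁ ^ 2 := by positivity
  have ho : om k C₁ ε₁ = 1 / (96 * K ^ 2 * 2 ^ k * (1 + C₁) * Ab k ε₁ ^ 2) := rfl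
  have hpos : 0 < om k C₁ ε₁ := by rw [ho]; positivity
  have k1 : K ^ 2 * om k C₁ ε₁ = 1 / (96 * 2 ^ k * (1 + C₁) * Ab k ε₁ ^ 2) := by
    rw [ho]
    field_simp
  have k2 : K ^ 2 * om k C₁ ε₁ ≤ 1 / 96 := by
    rw [k1]
    apply one_div_le_one_div_of_le (by norm_num)
    have e1 : 1 ≤ 2 ^ k * (1 + C₁) * Ab k ε₁ ^ 2 := by
      have : 1 ≤ 2 ^ k * (1 + C₁) := by nlinarith
      nlinarith
    nlinarith
  refine ⟨hpos, ?_, k2, ?_, ?_⟩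
  · nlinarith
  · have e1 : om k C₁ ε₁ * Ab k ε₁ ^ 2 ≤ 1 / 96 := by
      rw [ho]
      rw [one_div_mul_eq_div, div_le_div_iff₀ hden (by norm_num)]
      have : 1 ≤ K ^ 2 * 2 ^ k * (1 + C₁) := by
        have : 1 ≤ K ^ 2 * 2 ^ k := by nlinarith
        nlinarith
      nlinarith
    nlinarith
  · set x : ℝ := 6 * K ^ 2 * om k C₁ ε₁ with hx
    have hx0 : 0 ≤ x := by rw [hx]; positivity
    have hx1 : x ≤ 1 / 16 := by rw [hx]; linarith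
    have e1 : Real.exp x - 1 ≤ 2 * x := by
      have h3 : |Real.exp x - 1| ≤ 2 * |x| := Real.abs_exp_sub_one_le (by
        rw [abs_of_nonneg hx0]; linarith)
      rw [abs_of_nonneg hx0] at h3
      exact (le_abs_self _).trans h3
    have e2 : 0 ≤ (1 + C₁) * Ab k ε₁ ^ 2 := by positivity
    refine (mul_le_mul_of_nonneg_left e1 e2).trans (le_of_eq ?_)
    have e3 : x = 6 * (K ^ 2 * om k C₁ ε₁) := by rw [hx]; ring
    rw [e3, k1]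
    field_simp
    norm_num

end param

end Pool.Agent.R498.MT
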