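import Pool.Agent.R498.MT.Inst

set_option autoImplicit false
set_option linter.unusedSectionVars false

/-! Clusters of almost prime values of quadratic polynomials. -/

namespace Pool.Agent.R498.MT

open Finset Filter Polynomial
open Pool.Agent.Y677.RSZ (rt Sys rhoT per_mod ev_log V eng_all)
open Pool.Agent.W23.DC
open Pool.Agent.Y882
open Pool.Agent.Y882.PX
open Pool.Agent.Y882.KW
open Pool.Agent.Y882.SI

/-- the polynomial `A x ^ 2 + B x + C` -/
noncomputable def QG (A B C : ℤ) : ℤ[X] :=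
  Polynomial.C A * X ^ 2 + Polynomial.C B * X + Polynomial.C C

theorem QG_eval (A B C n : ℤ) : (QG A B C).eval n = A * n ^ 2 + B * n + C := by
  simp [QG]

/-- the discriminant -/
theorem disc_id (A B C n : ℤ) :
    4 * A * (A * n ^ 2 + B * n + C) = (2 * A * n + B) ^ 2 + (-(B ^ 2 - 4 * A * C)) := by ring

theorem QG_ne_zero (A B C : ℤ) (hΔ : ¬ IsSquare (B ^ 2 - 4 * A * C)) (n : ℤ) :
    A * n ^ 2 + B * n + C ≠ 0 := by
  intro h
  apply hΔ
  have := disc_id A B C n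
  rw [h, mul_zero] at this
  exact ⟨2 * A * n + B, by linarith⟩

theorem rt_QG (A B C : ℤ) (p : ℕ) (hp : p.Prime) (hpA : ¬ (p : ℤ) ∣ 2 * A) :
    rt (fun n => (QG A B C).eval n) p = rt (fun n => (QF (-(B ^ 2 - 4 * A * C))).eval n) p := by
  classical
  have hpZ : Prime (p : ℤ) := Nat.prime_iff_prime_int.1 hp
  have hp0 : (0 : ℤ) < p := by exact_mod_cast hp.pos
  have hcop : IsCoprime (p : ℤ) (2 * A) := (Prime.coprime_iff_not_dvd hpZ).2 hpA
  obtain ⟨u, v, huv⟩ := hcop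
  have hv : (p : ℤ) ∣ v * (2 * A) - 1 := ⟨-u, by linarith⟩
  have hiff : ∀ n : ℤ, (p : ℤ) ∣ (QG A B C).eval n ↔
      (p : ℤ) ∣ (QF (-(B ^ 2 - 4 * A * C))).eval (2 * A * n + B) := by
    intro n
    rw [QG_eval, QF_eval, ← disc_id]
    constructor
    · intro h
      exact h.mul_left _
    · intro h
      rcases hpZ.dvd_or_dvd h with h | h
      · exfalso
        have h2 : (p : ℤ) ∣ 2 * (2 * A) := by
          have e : (4 * A : ℤ) = 2 * (2 * A) := by ring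
          rwa [e] at h
        rcases hpZ.dvd_or_dvd h2 with h3 | h3
        · exact hpA (h3.mul_right _)
        · exact hpA h3
      · exact h
  have hper : ∀ n m : ℤ, (p : ℤ) ∣ n - m → ((p : ℤ) ∣ (QF (-(B ^ 2 - 4 * A * C))).eval n ↔
      (p : ℤ) ∣ (QF (-(B ^ 2 - 4 * A * C))).eval m) := by
    intro n m h
    rw [QF_eval, QF_eval]
    have h1 : (p : ℤ) ∣ (n ^ 2 + -(B ^ 2 - 4 * A * C)) - (m ^ 2 + -(B ^ 2 - 4 * A * C)) := by
      have e : (n ^ 2 + -(B ^ 2 - 4 * A * C)) - (m ^ 2 + -(B ^ 2 - 4 * A * C)) =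
        (n - m) * (n + m) := by ring
      rw [e]
      exact h.mul_right _
    exact (dvd_iff_dvd_of_dvd_sub h1)
  have hperG : ∀ n m : ℤ, (p : ℤ) ∣ n - m → ((p : ℤ) ∣ (QG A B C).eval n ↔
      (p : ℤ) ∣ (QG A B C).eval m) := by
    intro n m h
    rw [QG_eval, QG_eval]
    have h1 : (p : ℤ) ∣ (A * n ^ 2 + B * n + C) - (A * m ^ 2 + B * m + C) := by
      have e : (A * n ^ 2 + B * n + C) - (A * m ^ 2 + B * m + C) =
        (n - m) * (A * (n + m) + B) := by ring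
      rw [e]
      exact h.mul_right _
    exact (dvd_iff_dvd_of_dvd_sub h1)
  have hmodd : ∀ x : ℤ, (p : ℤ) ∣ ((x % p).toNat : ℤ) - x := by
    intro x
    rw [Int.toNat_of_nonneg (Int.emod_nonneg _ hp0.ne')]
    exact (Int.dvd_self_sub_emod).neg_right.trans (by rw [neg_sub])
  have hmodlt : ∀ x : ℤ, (x % p).toNat < p := by
    intro x
    have h1 := Int.emod_lt_of_pos x hp0
    have h2 := Int.emod_nonneg x hp0.ne'
    omega
  have huniq : ∀ (x : ℤ) (r : ℕ), r < p → (p : ℤ) ∣ x - r → (x % p).toNat = r := by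
    intro x r hr h
    have h1 : x % p = r := by
      have h2 : (x : ℤ) ≡ r [ZMOD p] := (Int.modEq_iff_dvd.2 (by
        have := dvd_neg.2 h
        rwa [neg_sub] at this))
      rw [h2.eq]
      exact Int.emod_eq_of_lt (by positivity) (by exact_mod_cast hr)
    rw [h1]
    simp
  unfold rt
  refine card_nbij' (fun r : ℕ => ((2 * A * r + B) % p).toNat)
    (fun s : ℕ => ((v * ((s : ℤ) - B)) % p).toNat) ?_ ?_ ?_ ?_
  · intro r hr
    simp only [coe_filter, Set.mem_setOf_eq, mem_range] at hr ⊢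
    refine ⟨hmodlt _, ?_⟩
    rw [hper _ _ (hmodd _), ← hiff]
    exact hr.2
  · intro s hs
    simp only [coe_filter, Set.mem_setOf_eq, mem_range] at hs ⊢
    refine ⟨hmodlt _, ?_⟩
    rw [hperG _ _ (hmodd _), hiff, hper _ (s : ℤ)]
    · exact hs.2
    · have e : 2 * A * (v * ((s : ℤ) - B)) + B - s = (v * (2 * A) - 1) * (s - B) := by ring
      rw [e]
      exact hv.mul_right _
  · intro r hr
    simp only [coe_filter, Set.mem_setOf_eq, mem_range] at hr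
    apply huniq _ _ hr.1
    have h1 := hmodd (2 * A * r + B)
    have e : v * ((((2 * A * r + B) % p).toNat : ℤ) - B) - r =
      v * ((((2 * A * r + B) % p).toNat : ℤ) - (2 * A * r + B)) + (v * (2 * A) - 1) * r := by ring
    rw [e]
    exact dvd_add (h1.mul_left _) (hv.mul_right _)
  · intro s hs
    simp only [coe_filter, Set.mem_setOf_eq, mem_range] at hs
    apply huniq _ _ hs.1
    have h1 := hmodd (v * ((s : ℤ) - B))
    have e : 2 * A * (((v * ((s : ℤ) - B)) % p).toNat : ℤ) + B - s =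
      2 * A * ((((v * ((s : ℤ) - B)) % p).toNat : ℤ) - v * (s - B)) +
        (v * (2 * A) - 1) * (s - B) := by ring
    rw [e]
    exact dvd_add (h1.mul_left _) (hv.mul_right _)

theorem mer_QG (A B C : ℤ) (hA : A ≠ 0) (hΔ : ¬ IsSquare (B ^ 2 - 4 * A * C)) (ε₁ υ η : ℝ)
    (hε : 0 < ε₁) (hυ : υ ≤ 1) (hη : 0 < η) : ∃ Y0 : ℕ, ∀ Y : ℕ, Y0 ≤ Y →
      Mer (pr Y ε₁ υ) (tt Y) (fun p => (rt (fun n => (QG A B C).eval n) p : ℝ) / p) ε₁ υ η := by
  classical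
  obtain ⟨Y0, hY0⟩ := mer_quad (-(B ^ 2 - 4 * A * C)) (by rwa [neg_neg]) ε₁ υ η hε hυ hη
  have ev : ∀ᶠ Y : ℕ in atTop, ((2 * A).natAbs : ℝ) + 1 ≤ (Y : ℝ) ^ ε₁ :=
    ((tendsto_rpow_atTop hε).comp tendsto_natCast_atTop_atTop).eventually_ge_atTop _
  obtain ⟨Y1, hY1⟩ := eventually_atTop.1 (ev.and (eventually_ge_atTop 3))
  refine ⟨max Y0 Y1, fun Y hY => ?_⟩
  have h := hY0 Y ((le_max_left _ _).trans hY)
  obtain ⟨h1, h3⟩ := hY1 Y ((le_max_right _ _).trans hY)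
  intro a b ha hab hb
  have h2 := h a b ha hab hb
  have e : ∑ p ∈ (pr Y ε₁ υ).filter (fun p => a ≤ tt Y p ∧ tt Y p < b),
      (rt (fun n => (QG A B C).eval n) p : ℝ) / p =
      ∑ p ∈ (pr Y ε₁ υ).filter (fun p => a ≤ tt Y p ∧ tt Y p < b),
      (ro (QF (-(B ^ 2 - 4 * A * C))) 0 p : ℝ) / p := by
    apply sum_congr rfl
    intro p hp
    rw [mem_filter] at hp
    have hp2 := hp.1
    unfold pr at hp2
    rw [mem_filter] at hp2
    obtain ⟨_, hpp, hp3, _⟩ := hp2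
    have hpY : (Y : ℝ) ^ ε₁ ≤ p := by
      have hY0 : (0 : ℝ) < Y := by
        have : (3 : ℝ) ≤ Y := by exact_mod_cast h3
        linarith
      have hl : 0 < Real.log Y := Real.log_pos (by
        have : (3 : ℝ) ≤ Y := by exact_mod_cast h3
        linarith)
      unfold tt at hp3
      rw [le_div_iff₀ hl] at hp3
      rw [Real.rpow_def_of_pos hY0, ← Real.le_log_iff_exp_le (by exact_mod_cast hpp.pos)]
      linarith
    rw [rt_QG A B C p hpp, rt_ro]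
    intro hd
    have h4 : p ∣ (2 * A).natAbs := Int.natCast_dvd.1 hd
    have h5 := Nat.le_of_dvd (Int.natAbs_pos.2 (mul_ne_zero (by norm_num) hA)) h4
    have h6 : (p : ℝ) ≤ ((2 * A).natAbs : ℝ) := by exact_mod_cast h5
    linarith
  rw [e]
  exact h2

theorem sq_QG (A B C : ℤ) (hA : A ≠ 0) (hΔ : ¬ IsSquare (B ^ 2 - 4 * A * C)) (q : ℕ) (hq : q.Prime)
    (hqa : A.natAbs + (B ^ 2 - 4 * A * C).natAbs < q) (h2 : 2 < q) (N H : ℕ) :
    ((((Icc 1 H).filter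
      (fun j : ℕ => ((q ^ 2 : ℕ) : ℤ) ∣ (QG A B C).eval ((N + j : ℕ) : ℤ))).card : ℕ) : ℝ) ≤
      (2 : ℕ) * (H * (1 / (q : ℝ) ^ 2) + 1) := by
  classical
  rcases ((Icc 1 H).filter (fun j : ℕ =>
    ((q ^ 2 : ℕ) : ℤ) ∣ (QG A B C).eval ((N + j : ℕ) : ℤ))).eq_empty_or_nonempty with h | ⟨j0, hj0⟩
  · rw [h]
    simp only [card_empty, Nat.cast_zero]
    positivity
  rw [mem_filter, QG_eval] at hj0
  have hqZ : Prime (q : ℤ) := Nat.prime_iff_prime_int.1 hq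
  have hqA : ¬ (q : ℤ) ∣ A := by
    intro hd
    have h4 : q ∣ A.natAbs := Int.natCast_dvd.1 hd
    have h5 := Nat.le_of_dvd (Int.natAbs_pos.2 hA) h4
    omega
  have hcop : IsCoprime ((q ^ 2 : ℕ) : ℤ) A := by
    push_cast
    exact IsCoprime.pow_left ((Prime.coprime_iff_not_dvd hqZ).2 hqA)
  obtain ⟨u, v, huv⟩ := hcop
  have hΔ0 : B ^ 2 - 4 * A * C ≠ 0 := by
    intro h
    apply hΔ
    rw [h]
    exact ⟨0, by simp⟩
  have hsub : (Icc 1 H).filter (fun j : ℕ => ((q ^ 2 : ℕ) : ℤ) ∣ (QG A B C).eval ((N + j : ℕ) : ℤ)) ⊆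
      (Icc 1 H).filter (fun n : ℕ => ((q ^ 2 : ℕ) : ℤ) ∣ (n : ℤ) - (j0 : ℤ)) ∪
      (Icc 1 H).filter (fun n : ℕ => ((q ^ 2 : ℕ) : ℤ) ∣
        (n : ℤ) - (-(2 * (N : ℤ) + j0) - v * B)) := by
    intro j hj
    rw [mem_filter, QG_eval] at hj
    rw [mem_union, mem_filter, mem_filter]
    obtain ⟨n, hn⟩ : ∃ n : ℤ, n = ((N + j : ℕ) : ℤ) := ⟨_, rfl⟩
    obtain ⟨n0, hn0⟩ : ∃ n0 : ℤ, n0 = ((N + j0 : ℕ) : ℤ) := ⟨_, rfl⟩
    rw [← hn] at hj
    rw [← hn0] at hj0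
    have e1 : (j : ℤ) - (j0 : ℤ) = n - n0 := by
      rw [hn, hn0]
      push_cast
      ring
    have e2 : (j : ℤ) - (-(2 * (N : ℤ) + j0) - v * B) = n + n0 + v * B := by
      rw [hn, hn0]
      push_cast
      ring
    rw [e1, e2]
    have h3 : ((q ^ 2 : ℕ) : ℤ) ∣ (n - n0) * (A * (n + n0) + B) := by
      have := dvd_sub hj.2 hj0.2
      have e : A * n ^ 2 + B * n + C - (A * n0 ^ 2 + B * n0 + C) = (n - n0) * (A * (n + n0) + B) := by
        ring
      rwa [e] at this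
    by_cases h4 : (q : ℤ) ∣ n - n0
    · have h5 : ¬ (q : ℤ) ∣ A * (n + n0) + B := by
        intro h6
        have h7 : (q : ℤ) ∣ 2 * A * n + B := by
          have := dvd_add (h4.mul_left A) h6
          have e : A * (n - n0) + (A * (n + n0) + B) = 2 * A * n + B := by ring
          rwa [e] at this
        have h9 : (q : ℤ) ∣ A * n ^ 2 + B * n + C := by
          refine dvd_trans ?_ hj.2
          push_cast
          exact dvd_pow_self _ (by norm_num)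
        have h10 : (q : ℤ) ∣ B ^ 2 - 4 * A * C := by
          have h11 : (q : ℤ) ∣ (2 * A * n + B) ^ 2 := dvd_pow h7 (by norm_num)
          have h12 := dvd_sub h11 (h9.mul_left (4 * A))
          have e : (2 * A * n + B) ^ 2 - 4 * A * (A * n ^ 2 + B * n + C) = B ^ 2 - 4 * A * C := by
            ring
          rwa [e] at h12
        have h12 : q ∣ (B ^ 2 - 4 * A * C).natAbs := Int.natCast_dvd.1 h10
        have := Nat.le_of_dvd (Int.natAbs_pos.2 hΔ0) h12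
        omega
      left
      refine ⟨hj.1, ?_⟩
      have h6 : IsCoprime ((q ^ 2 : ℕ) : ℤ) (A * (n + n0) + B) := by
        push_cast
        apply IsCoprime.pow_left
        exact (Prime.coprime_iff_not_dvd hqZ).2 h5
      exact h6.dvd_of_dvd_mul_right h3
    · right
      refine ⟨hj.1, ?_⟩
      have h6 : IsCoprime ((q ^ 2 : ℕ) : ℤ) (n - n0) := by
        push_cast
        apply IsCoprime.pow_left
        exact (Prime.coprime_iff_not_dvd hqZ).2 h4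
      have h7 := h6.dvd_of_dvd_mul_left h3
      have e : n + n0 + v * B = v * (A * (n + n0) + B) + (n + n0) * (u * ((q ^ 2 : ℕ) : ℤ)) := by
        linear_combination (-(n + n0)) * huv
      rw [e]
      exact dvd_add (h7.mul_left _) (((dvd_refl _).mul_left _).mul_left _)
  have hm : 0 < q ^ 2 := pow_pos hq.pos 2
  have c1 := class_count (q ^ 2) hm H (j0 : ℤ)
  have c2 := class_count (q ^ 2) hm H (-(2 * (N : ℤ) + j0) - v * B)
  have h3 : ((((Icc 1 H).filter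
      (fun j : ℕ => ((q ^ 2 : ℕ) : ℤ) ∣ (QG A B C).eval ((N + j : ℕ) : ℤ))).card : ℕ) : ℝ) ≤
      (((Icc 1 H).filter (fun n : ℕ => ((q ^ 2 : ℕ) : ℤ) ∣ (n : ℤ) - (j0 : ℤ))).card : ℝ) +
      (((Icc 1 H).filter (fun n : ℕ => ((q ^ 2 : ℕ) : ℤ) ∣
        (n : ℤ) - (-(2 * (N : ℤ) + j0) - v * B))).card : ℝ) := by
    exact_mod_cast (card_le_card hsub).trans (card_union_le _ _)
  refine h3.trans ((add_le_add c1 c2).trans (le_of_eq ?_))
  push_cast
  ring

theorem quad_gen (A B C : ℤ) (hA : A ≠ 0) (hΔ : ¬ IsSquare (B ^ 2 - 4 * A * C))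
    (P : ℤ[X]) (hP : P ≠ 0)
    (hPd : ∀ p : ℕ, p.Prime → ∃ n : ℤ, ¬ (p : ℤ) ∣ P.eval n)
    (hGP : ∀ p : ℕ, p.Prime → ∀ n : ℤ, (p : ℤ) ∣ A * n ^ 2 + B * n + C → (p : ℤ) ∣ P.eval n)
    (m : ℕ) :
    ∃ K₀ : ℕ, ∀ HH : Finset ℕ, K₀ ≤ HH.card → ∃ δ : ℝ, 0 < δ ∧ ∀ l : ℕ, 2 ≤ l →
      ∃ B' : ℕ, ∀ᶠ N : ℕ in atTop,
      ∃ H ⊆ HH, H.card = m ∧ ∃ n d : ℕ, N < n ∧
        ((n + (l - 1) * d : ℕ) : ℝ) ≤ N + (N : ℝ) ^ (3 / 4 : ℝ) ∧ 1 ≤ d ∧
        (d : ℝ) ≤ Real.log N ^ B' ∧ ∀ j < l, ∀ h ∈ H,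
          (A * ((n + j * d + h : ℕ) : ℤ) ^ 2 + B * ((n + j * d + h : ℕ) : ℤ) +
            C).natAbs.primeFactorsList.length ≤ 3 ∧
          (∀ p : ℕ, p.Prime → (p : ℤ) ∣ A * ((n + j * d + h : ℕ) : ℤ) ^ 2 +
            B * ((n + j * d + h : ℕ) : ℤ) + C → (N : ℝ) ^ (73 / 400 : ℝ) ≤ p) ∧
          ∀ p : ℕ, p.Prime → (p : ℤ) ∣ P.eval ((n + j * d + h : ℕ) : ℤ) → (N : ℝ) ^ δ ≤ p := by
  classical
  have hGne : QG A B C ≠ 0 := by
    intro h
    have := congrArg (fun Q : ℤ[X] => Q.eval 0) h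
    simp only [QG_eval, eval_zero] at this
    exact QG_ne_zero A B C hΔ 0 this
  have hGd : ∀ p : ℕ, p.Prime → ∃ n : ℤ, ¬ (p : ℤ) ∣ (QG A B C).eval n := by
    intro p hp
    obtain ⟨n, hn⟩ := hPd p hp
    refine ⟨n, fun h => hn (hGP p hp n ?_)⟩
    rwa [QG_eval] at h
  obtain ⟨g₀, hg₀⟩ := Pool.Agent.Y677.RSZ.poly_all P hP hPd
  obtain ⟨g₁, hg₁⟩ := Pool.Agent.Y677.RSZ.poly_all (QG A B C) hGne hGd
  have h := fin2 P hP (g₀ + g₁ + 1) (by omega) (Pool.Agent.Y677.RSZ.Sys.mono hg₀ (by omega))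
    (fun n => (QG A B C).eval n) (Pool.Agent.Y677.RSZ.Sys.mono hg₁ (by omega))
    (fun p hp n hd => hGP p hp n (by rw [← QG_eval]; exact hd))
    (A.natAbs + B.natAbs + C.natAbs) (fun n => by
      constructor
      · show (QG A B C).eval (n : ℤ) ≠ 0
        rw [QG_eval]
        exact QG_ne_zero A B C hΔ _
      · show ((QG A B C).eval (n : ℤ)).natAbs ≤ _
        rw [QG_eval]
        have h1 : (A * (n : ℤ) ^ 2 + B * n + C).natAbs ≤
            A.natAbs * n ^ 2 + B.natAbs * n + C.natAbs := by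
          calc (A * (n : ℤ) ^ 2 + B * n + C).natAbs ≤ (A * (n : ℤ) ^ 2 + B * n).natAbs + C.natAbs :=
                Int.natAbs_add_le _ _
            _ ≤ (A * (n : ℤ) ^ 2).natAbs + (B * n).natAbs + C.natAbs := by
                have := Int.natAbs_add_le (A * (n : ℤ) ^ 2) (B * n)
                omega
            _ = _ := by rw [Int.natAbs_mul, Int.natAbs_mul, Int.natAbs_pow, Int.natAbs_natCast]
        refine h1.trans ?_
        nlinarith [Nat.zero_le (A.natAbs * n), Nat.zero_le (B.natAbs * n ^ 2),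
          Nat.zero_le (B.natAbs * n), Nat.zero_le (C.natAbs * n), Nat.zero_le (C.natAbs * n ^ 2),
          Nat.zero_le A.natAbs, Nat.zero_le B.natAbs, Nat.zero_le C.natAbs])
    (fun ε₁ υ η hε hυ hη => mer_QG A B C hA hΔ ε₁ υ η hε hυ hη)
    2 (A.natAbs + (B ^ 2 - 4 * A * C).natAbs + 3)
    (fun q hq hqa N H => sq_QG A B C hA hΔ q hq (by omega) (by omega) N H) m
  obtain ⟨K₀, hK₀⟩ := h
  refine ⟨K₀, fun HH hHH => ?_⟩
  obtain ⟨δ, hδ, hl⟩ := hK₀ HH hHH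
  refine ⟨δ, hδ, fun l hl2 => ?_⟩
  obtain ⟨B', hN⟩ := hl l hl2
  refine ⟨B', ?_⟩
  filter_upwards [hN] with N hN
  obtain ⟨H, hH, hHc, n, d, h1, h2, h3, h4, h5⟩ := hN
  refine ⟨H, hH, hHc, n, d, h1, h2, h3, h4, fun j hj h hh => ?_⟩
  have h6 := h5 j hj h hh
  simp only [QG_eval] at h6
  exact h6

end Pool.Agent.R498.MT
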