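import Pool.Agent.R498.MT.QGen

set_option autoImplicit false

/-! Clusters of almost prime values of a quadratic polynomial together with further polynomials. -/

namespace Pool.Agent.R498.MT

open Finset Filter Polynomial

/-- the values `A x ^ 2 + B x + C` in `P₃` and `f x` almost prime, in clusters repeated along narrow
progressions -/
theorem quad_sys (A B C : ℤ) (hA : A ≠ 0) (hΔ : ¬ IsSquare (B ^ 2 - 4 * A * C))
    (f : ℤ[X]) (hf : f ≠ 0)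
    (hadm : ∀ p : ℕ, p.Prime → ∃ n : ℤ, ¬ (p : ℤ) ∣ (A * n ^ 2 + B * n + C) * f.eval n)
    (m : ℕ) :
    ∃ K : ℕ, ∀ S : Finset ℕ, K ≤ S.card → ∃ (r : ℕ) (δ : ℝ), 0 < δ ∧ ∀ l : ℕ,
      ∃ B' : ℕ, ∀ᶠ N : ℕ in atTop, ∃ H ⊆ S, H.card = m ∧ ∃ n d : ℕ, 1 ≤ d ∧
        (d : ℝ) ≤ Real.log N ^ B' ∧ ∀ j < l, N < n + j * d ∧
          ((n + j * d : ℕ) : ℝ) ≤ N + (N : ℝ) ^ (3 / 4 : ℝ) ∧ ∀ h ∈ H,
          (A * ((n + j * d + h : ℕ) : ℤ) ^ 2 + B * ((n + j * d + h : ℕ) : ℤ) +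
            C).natAbs.primeFactorsList.length ≤ 3 ∧
          (∀ p : ℕ, p.Prime → (p : ℤ) ∣ A * ((n + j * d + h : ℕ) : ℤ) ^ 2 +
            B * ((n + j * d + h : ℕ) : ℤ) + C → (N : ℝ) ^ (73 / 400 : ℝ) ≤ p) ∧
          (f.eval ((n + j * d + h : ℕ) : ℤ)).natAbs.primeFactorsList.length ≤ r ∧
          ∀ p : ℕ, p.Prime → (p : ℤ) ∣ f.eval ((n + j * d + h : ℕ) : ℤ) → (N : ℝ) ^ δ ≤ p := by
  have hQ0 : QG A B C ≠ 0 := by
    intro h
    have := congrArg (fun Q : Polynomial ℤ => Q.eval 0) h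
    simp only [QG_eval, Polynomial.eval_zero] at this
    exact QG_ne_zero A B C hΔ 0 this
  have hev : ∀ n : ℤ, (QG A B C * f).eval n = (A * n ^ 2 + B * n + C) * f.eval n := fun n => by
    rw [Polynomial.eval_mul, QG_eval]
  obtain ⟨K, hK⟩ := quad_gen A B C hA hΔ (QG A B C * f) (mul_ne_zero hQ0 hf)
    (fun p hp => by
      obtain ⟨n, hn⟩ := hadm p hp
      exact ⟨n, by rwa [hev]⟩)
    (fun p _ n hd => by rw [hev]; exact hd.mul_right _) m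
  obtain ⟨Kf, D, hKD⟩ := Pool.Agent.W123.RU.Poly.eval_bound f
  obtain ⟨n₀, hn₀⟩ := Pool.Agent.Y677.RSZ.ne_zero_ev f hf
  refine ⟨K, fun S hS => ?_⟩
  obtain ⟨δ, hδ, hl⟩ := hK S hS
  obtain ⟨r, hr⟩ := exists_nat_ge ((2 * D + 1 : ℝ) / δ)
  refine ⟨r, δ, hδ, fun l => ?_⟩
  obtain ⟨B', hB⟩ := hl (l + 2) (by omega)
  refine ⟨B', ?_⟩
  filter_upwards [hB, eventually_ge_atTop (Kf + n₀ + 7 + S.sup id)] with N hN hNK
  obtain ⟨H, hH, hHc, n, d, h1, h2, h3, h4, h5⟩ := hN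
  have hNr : (7 : ℝ) ≤ N := by
    have : 7 ≤ N := by omega
    exact_mod_cast this
  have hN0 : (0 : ℝ) < N := by linarith
  have hKr : (Kf : ℝ) ≤ N := by
    have : Kf ≤ N := by omega
    exact_mod_cast this
  have hin : ∀ j < l, ((n + j * d : ℕ) : ℝ) ≤ N + (N : ℝ) ^ (3 / 4 : ℝ) := by
    intro j hj
    refine le_trans ?_ h2
    have : n + j * d ≤ n + (l + 2 - 1) * d := by
      have := Nat.mul_le_mul_right d (show j ≤ l + 2 - 1 by omega)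
      omega
    exact_mod_cast this
  refine ⟨H, hH, hHc, n, d, h3, h4, fun j hj => ⟨by omega, hin j hj, fun h hh => ?_⟩⟩
  obtain ⟨h6, h7, h8⟩ := h5 j (by omega) h hh
  have h9 : ∀ p : ℕ, p.Prime → (p : ℤ) ∣ f.eval ((n + j * d + h : ℕ) : ℤ) → (N : ℝ) ^ δ ≤ p := by
    intro p hp hpd
    apply h8 p hp
    rw [hev]
    exact hpd.mul_left _
  refine ⟨h6, h7, ?_, h9⟩
  have h11 : h ≤ N := by
    have : h ≤ S.sup id := Finset.le_sup (f := id) (hH hh)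
    omega
  have h12 : (h : ℝ) ≤ N := by exact_mod_cast h11
  have h13 := hin j hj
  have h14 : (N : ℝ) ^ (3 / 4 : ℝ) ≤ N := by
    calc (N : ℝ) ^ (3 / 4 : ℝ) ≤ (N : ℝ) ^ (1 : ℝ) :=
          Real.rpow_le_rpow_of_exponent_le (by linarith) (by norm_num)
      _ = N := Real.rpow_one _
  have h15 : ((n + j * d + h : ℕ) : ℝ) ≤ 3 * N := by
    push_cast at h13 ⊢
    linarith
  have h16 := hKD ((n + j * d + h : ℕ) : ℤ)
  have h17 : ((f.eval ((n + j * d + h : ℕ) : ℤ)).natAbs : ℝ) =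
      |((f.eval ((n + j * d + h : ℕ) : ℤ) : ℤ) : ℝ)| := by
    rw [← Int.cast_abs, Int.abs_eq_natAbs]
    simp
  have h18 : ((f.eval ((n + j * d + h : ℕ) : ℤ)).natAbs : ℝ) ≤
      (N : ℝ) ^ ((2 * D + 1 : ℕ) : ℝ) := by
    rw [h17]
    refine h16.trans ?_
    rw [Real.rpow_natCast, pow_succ, pow_mul, mul_comm]
    have h19 : 1 + |(((n + j * d + h : ℕ) : ℤ) : ℝ)| ≤ (N : ℝ) ^ 2 := by
      rw [Int.cast_natCast, abs_of_nonneg (Nat.cast_nonneg _)]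
      nlinarith
    have h20 : (0 : ℝ) ≤ 1 + |(((n + j * d + h : ℕ) : ℤ) : ℝ)| := by positivity
    gcongr
  have h21 := omega_le N (f.eval ((n + j * d + h : ℕ) : ℤ)).natAbs δ
    ((2 * D + 1 : ℕ) : ℝ) (by omega) hδ (by
      rw [Int.natAbs_ne_zero]
      exact hn₀ _ (by omega)) (fun p hp hpd => h9 p hp (Int.natCast_dvd.2 hpd)) h18
  have h22 : ((2 * D + 1 : ℕ) : ℝ) / δ ≤ r := by
    push_cast
    exact hr
  exact_mod_cast h21.trans h22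

end Pool.Agent.R498.MT
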