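import Pool.Agent.R498.MT.Loc

set_option autoImplicit false
set_option linter.unusedSectionVars false

/-! The quadratic form. -/

namespace Pool.Agent.R498.MT

open Finset

section quad
variable {S J : Type} [Fintype S] [DecidableEq S] [Fintype J] [DecidableEq J]

/-- local coefficient -/
def cf (μ : ℝ) : Option J → ℝ
  | none => 1
  | some _ => -μ

/-- the coefficients -/
def cw (μ : S → ℝ) (y : (S → Option J) → ℝ) (σ : S → Option J) : ℝ :=
  (∏ t, cf (μ t) (σ t)) * y σ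

/-- the sum whose square is the weight -/
def Lam (i : Option J) (q μ : S → ℝ) (y : (S → Option J) → ℝ) (x : S → Option J) : ℝ :=
  ∑ σ, cw μ y σ * ∏ t, hv i (q t) (σ t) (x t)

/-- local moments -/
def HH (i : Option J) (q : ℝ) (tgt : Bool) (a b : Option J) : ℝ :=
  if tgt then sg a * sg b else GG i q a b

/-- local norms -/
def NM (q : ℝ) (tgt : Bool) (a b : Option J) : ℝ :=
  if tgt then 1 else NN q a b

theorem cf_sum_le (μ : ℝ) (hμ : 0 ≤ μ) (F : Option J → Option J → ℝ) (B0 B1 B2 B3 : ℝ)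
    (h0 : F none none ≤ B0) (h1 : ∀ k, F none (some k) ≤ B1) (h2 : ∀ j, F (some j) none ≤ B1)
    (h3 : ∀ j k, F (some j) (some k) ≤ (if j = k then B2 else 0) + B3) :
    ∑ a, ∑ b, |cf μ a| * |cf μ b| * F a b ≤
      B0 + 2 * (Fintype.card J : ℝ) * μ * B1 +
        μ ^ 2 * ((Fintype.card J : ℝ) * B2 + (Fintype.card J : ℝ) ^ 2 * B3) := by
  simp only [Fintype.sum_option, cf, abs_one, one_mul, mul_one, abs_neg, abs_of_nonneg hμ]
  have e1 : ∑ k, μ * F none (some k) ≤ (Fintype.card J : ℝ) * μ * B1 := by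
    calc ∑ k, μ * F none (some k) ≤ ∑ _k : J, μ * B1 :=
          sum_le_sum fun k _ => mul_le_mul_of_nonneg_left (h1 k) hμ
      _ = _ := by rw [sum_const, card_univ, nsmul_eq_mul]; ring
  have e2 : ∑ j, μ * F (some j) none ≤ (Fintype.card J : ℝ) * μ * B1 := by
    calc ∑ j, μ * F (some j) none ≤ ∑ _k : J, μ * B1 :=
          sum_le_sum fun k _ => mul_le_mul_of_nonneg_left (h2 k) hμ
      _ = _ := by rw [sum_const, card_univ, nsmul_eq_mul]; ring
  have e3 : ∑ j, ∑ k, μ * μ * F (some j) (some k) ≤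
      μ ^ 2 * ((Fintype.card J : ℝ) * B2 + (Fintype.card J : ℝ) ^ 2 * B3) := by
    calc ∑ j, ∑ k, μ * μ * F (some j) (some k) ≤
        ∑ j : J, ∑ k : J, μ * μ * ((if j = k then B2 else 0) + B3) :=
          sum_le_sum fun j _ => sum_le_sum fun k _ =>
            mul_le_mul_of_nonneg_left (h3 j k) (mul_nonneg hμ hμ)
      _ = _ := by
          simp only [mul_add, sum_add_distrib, mul_ite, mul_zero, sum_ite_eq, mem_univ, if_true,
            sum_const, card_univ, nsmul_eq_mul]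
          ring
  rw [sum_add_distrib]
  linarith

theorem Ex_HH (i : Option J) (q γ : ℝ) (hq : 2 ≤ q) (tgt : Bool) (ht : tgt = true → i ≠ none)
    (a b : Option J) :
    Ex (rd i q γ) (lc2 i q tgt a b) = (if tgt then γ else 1) * HH i q tgt a b := by
  cases tgt
  · rw [Ex_loc i q γ hq]
    simp [HH]
  · rcases i with _ | i
    · exact absurd rfl (ht rfl)
    · rw [Ex_tgt]
      simp [HH]

theorem Nm_NM (i : Option J) (q γ : ℝ) (hq : 2 ≤ q) (tgt : Bool) (ht : tgt = true → i ≠ none)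
    (a b : Option J) :
    Nm (rd i q γ) (lc2 i q tgt a b) ≤ (if tgt then γ else 1) * NM q tgt a b := by
  cases tgt
  · have := Nm_loc i q γ hq a b
    simp only [NM, Bool.false_eq_true, if_false, one_mul]
    exact this
  · rcases i with _ | i
    · exact absurd rfl (ht rfl)
    · rw [Nm_tgt]
      simp [NM]

theorem Nm_nonneg (i : Option J) (q γ : ℝ) (hq : 2 ≤ q) (hγ : 0 ≤ γ) (φ : Option J → ℝ) :
    0 ≤ Nm (rd i q γ) φ := by
  unfold Nm
  apply add_nonneg (abs_nonneg _)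
  apply sum_nonneg
  intro j _
  apply mul_nonneg (abs_nonneg _)
  unfold rd
  split_ifs
  · exact hγ
  · positivity

theorem prod_tgt (T : Finset S) (γ : S → ℝ) :
    ∏ t, (if decide (t ∈ T) then γ t else 1) = ∏ t ∈ T, γ t := by
  simp only [decide_eq_true_eq]
  rw [prod_ite_mem]
  simp

/-- the sum of the squares over the classes with target conditions -/
theorem quad_real {N : Finset ℕ} {ν : ℕ → ℝ} {ξ : ℕ → S → Option J} {X E : ℝ}
    {Good : (S → Option J) → Prop} (i : Option J) (q γ μ : S → ℝ) (hq : ∀ t, 2 ≤ q t)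
    (hγ : ∀ t, 0 ≤ γ t) (y : (S → Option J) → ℝ) (hy : ∀ σ, |y σ| ≤ 1)
    (hX : 0 ≤ X) (hE : 0 ≤ E) (T : Finset S) (hT : ∀ t ∈ T, i ≠ none)
    (hC : Cnt N ν ξ (fun t => rd i (q t) (γ t)) X E Good)
    (hG : ∀ σ τ, y σ ≠ 0 → y τ ≠ 0 → ∀ U : S → Option J,
      (∀ t, co (lc2 i (q t) (decide (t ∈ T)) (σ t) (τ t)) (U t) ≠ 0) → Good U) :
    |∑ n ∈ N, ν n * (Lam i q μ y (ξ n) ^ 2 * (if ∀ t ∈ T, ξ n t = i then 1 else 0)) -
      X * (∏ t ∈ T, γ t) * ∑ σ, ∑ τ, cw μ y σ * cw μ y τ *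
        ∏ t, HH i (q t) (decide (t ∈ T)) (σ t) (τ t)| ≤
    E * X * (∏ t ∈ T, γ t) *
      ∏ t, ∑ a : Option J, ∑ b : Option J, |cf (μ t) a| * |cf (μ t) b| * NM (q t) (decide (t ∈ T)) a b := by
  have h1 : ∀ x : S → Option J, Lam i q μ y x ^ 2 * (if ∀ t ∈ T, x t = i then 1 else 0) =
      ∑ σ, ∑ τ, cw μ y σ * cw μ y τ * ∏ t, lc2 i (q t) (decide (t ∈ T)) (σ t) (τ t) (x t) := by
    intro x
    have e1 : (if ∀ t ∈ T, x t = i then (1 : ℝ) else 0) =
        ∏ t, (if decide (t ∈ T) then (if x t = i then 1 else 0) else 1) := by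
      rw [prod_tgt T (fun t => if x t = i then 1 else 0)]
      rw [Finset.prod_ite_zero]
      simp
    unfold Lam
    rw [sq, sum_mul_sum, sum_mul, e1]
    refine sum_congr rfl fun σ _ => ?_
    rw [sum_mul]
    refine sum_congr rfl fun τ _ => ?_
    unfold lc2
    rw [prod_mul_distrib, prod_mul_distrib]
    ring
  have h2 : ∑ n ∈ N, ν n * (Lam i q μ y (ξ n) ^ 2 * (if ∀ t ∈ T, ξ n t = i then 1 else 0)) =
      ∑ σ, ∑ τ, cw μ y σ * cw μ y τ *
        ∑ n ∈ N, ν n * ∏ t, lc2 i (q t) (decide (t ∈ T)) (σ t) (τ t) (ξ n t) := by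
    rw [sum_congr rfl (fun n _ => by rw [h1 (ξ n), mul_sum])]
    rw [sum_comm]
    refine sum_congr rfl fun σ _ => ?_
    rw [sum_congr rfl (fun n _ => mul_sum _ _ _), sum_comm]
    refine sum_congr rfl fun τ _ => ?_
    rw [mul_sum]
    refine sum_congr rfl fun n _ => ?_
    ring
  have h3 : X * (∏ t ∈ T, γ t) * ∑ σ, ∑ τ, cw μ y σ * cw μ y τ *
        ∏ t, HH i (q t) (decide (t ∈ T)) (σ t) (τ t) =
      ∑ σ, ∑ τ, cw μ y σ * cw μ y τ *
        (X * ∏ t, Ex (rd i (q t) (γ t)) (lc2 i (q t) (decide (t ∈ T)) (σ t) (τ t))) := by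
    rw [mul_sum]
    refine sum_congr rfl fun σ _ => ?_
    rw [mul_sum]
    refine sum_congr rfl fun τ _ => ?_
    have e : ∀ t, Ex (rd i (q t) (γ t)) (lc2 i (q t) (decide (t ∈ T)) (σ t) (τ t)) =
        (if decide (t ∈ T) then γ t else 1) * HH i (q t) (decide (t ∈ T)) (σ t) (τ t) := fun t =>
      Ex_HH i (q t) (γ t) (hq t) _ (fun h => hT t (by simpa using h)) _ _
    rw [prod_congr rfl (fun t _ => e t), prod_mul_distrib, prod_tgt]
    ring
  rw [h2, h3, ← sum_sub_distrib]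
  refine (abs_sum_le_sum_abs _ _).trans ?_
  have h4 : ∀ σ τ : S → Option J, |cw μ y σ * cw μ y τ *
        (∑ n ∈ N, ν n * ∏ t, lc2 i (q t) (decide (t ∈ T)) (σ t) (τ t) (ξ n t)) -
      cw μ y σ * cw μ y τ *
        (X * ∏ t, Ex (rd i (q t) (γ t)) (lc2 i (q t) (decide (t ∈ T)) (σ t) (τ t)))| ≤
      E * X * (∏ t ∈ T, γ t) * ∏ t, (|cf (μ t) (σ t)| * |cf (μ t) (τ t)| *
        NM (q t) (decide (t ∈ T)) (σ t) (τ t)) := by
    intro σ τ
    rw [← mul_sub, abs_mul]
    by_cases hσ : y σ = 0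
    · have e : cw μ y σ = 0 := by unfold cw; rw [hσ, mul_zero]
      rw [e]
      simp only [zero_mul, abs_zero]
      apply mul_nonneg
      · exact mul_nonneg (mul_nonneg hE hX) (prod_nonneg fun t _ => hγ t)
      · apply prod_nonneg
        intro t _
        apply mul_nonneg (mul_nonneg (abs_nonneg _) (abs_nonneg _))
        unfold NM NN
        have := hq t
        split_ifs
        · norm_num
        · split <;> try split_ifs
          all_goals linarith
    by_cases hτ : y τ = 0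
    · have e : cw μ y τ = 0 := by unfold cw; rw [hτ, mul_zero]
      rw [e]
      simp only [mul_zero, abs_zero, zero_mul]
      apply mul_nonneg
      · exact mul_nonneg (mul_nonneg hE hX) (prod_nonneg fun t _ => hγ t)
      · apply prod_nonneg
        intro t _
        apply mul_nonneg (mul_nonneg (abs_nonneg _) (abs_nonneg _))
        unfold NM NN
        have := hq t
        split_ifs
        · norm_num
        · split <;> try split_ifs
          all_goals linarith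
    have h5 := cnt_prod hC (fun t => lc2 i (q t) (decide (t ∈ T)) (σ t) (τ t)) (hG σ τ hσ hτ)
    have h6 : |cw μ y σ * cw μ y τ| ≤ ∏ t, (|cf (μ t) (σ t)| * |cf (μ t) (τ t)|) := by
      unfold cw
      rw [abs_mul, abs_mul, abs_mul, abs_prod, abs_prod, prod_mul_distrib]
      have p1 : 0 ≤ ∏ t, |cf (μ t) (σ t)| := prod_nonneg fun _ _ => abs_nonneg _
      have p2 : 0 ≤ ∏ t, |cf (μ t) (τ t)| := prod_nonneg fun _ _ => abs_nonneg _
      have p3 := hy σ
      have p4 := hy τ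
      calc (∏ t, |cf (μ t) (σ t)|) * |y σ| * ((∏ t, |cf (μ t) (τ t)|) * |y τ|) ≤
          (∏ t, |cf (μ t) (σ t)|) * 1 * ((∏ t, |cf (μ t) (τ t)|) * 1) := by
            gcongr
        _ = _ := by ring
    have h7 : ∏ t, Nm (rd i (q t) (γ t)) (lc2 i (q t) (decide (t ∈ T)) (σ t) (τ t)) ≤
        (∏ t ∈ T, γ t) * ∏ t, NM (q t) (decide (t ∈ T)) (σ t) (τ t) := by
      rw [← prod_tgt T γ, ← prod_mul_distrib]
      apply prod_le_prod
      · intro t _
        exact Nm_nonneg i (q t) (γ t) (hq t) (hγ t) _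
      · intro t _
        exact Nm_NM i (q t) (γ t) (hq t) _ (fun h => hT t (by simpa using h)) _ _
    have h8 : E * X * ∏ t, Nm (rd i (q t) (γ t)) (lc2 i (q t) (decide (t ∈ T)) (σ t) (τ t)) ≤
        E * X * ((∏ t ∈ T, γ t) * ∏ t, NM (q t) (decide (t ∈ T)) (σ t) (τ t)) :=
      mul_le_mul_of_nonneg_left h7 (mul_nonneg hE hX)
    calc _ ≤ (∏ t, (|cf (μ t) (σ t)| * |cf (μ t) (τ t)|)) *
          (E * X * ((∏ t ∈ T, γ t) * ∏ t, NM (q t) (decide (t ∈ T)) (σ t) (τ t))) :=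
          mul_le_mul h6 (h5.trans h8) (abs_nonneg _)
            (prod_nonneg fun _ _ => mul_nonneg (abs_nonneg _) (abs_nonneg _))
      _ = _ := by
          rw [prod_mul_distrib (f := fun t => |cf (μ t) (σ t)| * |cf (μ t) (τ t)|)]
          ring
  calc ∑ σ, |∑ τ, cw μ y σ * cw μ y τ *
        (∑ n ∈ N, ν n * ∏ t, lc2 i (q t) (decide (t ∈ T)) (σ t) (τ t) (ξ n t)) -
      ∑ τ, cw μ y σ * cw μ y τ *
        (X * ∏ t, Ex (rd i (q t) (γ t)) (lc2 i (q t) (decide (t ∈ T)) (σ t) (τ t)))|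
      ≤ ∑ σ : S → Option J, ∑ τ : S → Option J, E * X * (∏ t ∈ T, γ t) *
        ∏ t, (|cf (μ t) (σ t)| * |cf (μ t) (τ t)| *
        NM (q t) (decide (t ∈ T)) (σ t) (τ t)) := by
        apply sum_le_sum
        intro σ _
        rw [← sum_sub_distrib]
        exact (abs_sum_le_sum_abs _ _).trans (sum_le_sum fun τ _ => h4 σ τ)
    _ = _ := by
        rw [← sum_prod2 (fun t a b => |cf (μ t) a| * |cf (μ t) b| * NM (q t) (decide (t ∈ T)) a b),
          mul_sum]
        refine sum_congr rfl fun σ _ => ?_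
        rw [mul_sum]

end quad

end Pool.Agent.R498.MT
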