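import Pool.Agent.R498.MT.Dat
import Pool.Agent.R498.MT.C1z
import Pool.Agent.R498.MT.Asm
import Pool.Agent.Y833.RSZ.LOC

set_option autoImplicit false
set_option linter.unusedSectionVars false

/-! The colours and the counts. -/

namespace Pool.Agent.R498.MT

open Finset Filter
open Pool.Agent.Y677.RSZ (rt Sys rhoT per_mod)
open Pool.Agent.TH423.SH (PS)
open Pool.Agent.W23.DC
open Pool.Agent.Y882
open Pool.Agent.Y882.PX
open Pool.Agent.Y882.KW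

open Classical in
/-- the colour of a prime at an argument -/
noncomputable def xi (G : ℤ → ℤ) (W b : ℕ) {m : ℕ} (t : Fin m → ℕ) {S : Type} (pp : S → ℕ)
    (K : ℕ) (s : S) : Option (Fin m) :=
  if h : ∃ j, (pp s : ℤ) ∣ G ((W * (K + t j) + b : ℕ) : ℤ) then some h.choose else none

theorem xi_iff (G : ℤ → ℤ) (W b : ℕ) {m : ℕ} (t : Fin m → ℕ) {S : Type} (pp : S → ℕ)
    (K : ℕ) (s : S) (hU : ∀ i j, (pp s : ℤ) ∣ G ((W * (K + t i) + b : ℕ) : ℤ) →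
      (pp s : ℤ) ∣ G ((W * (K + t j) + b : ℕ) : ℤ) → i = j) (j : Fin m) :
    xi G W b t pp K s = some j ↔ (pp s : ℤ) ∣ G ((W * (K + t j) + b : ℕ) : ℤ) := by
  unfold xi
  split_ifs with h
  · rw [Option.some.injEq]
    constructor
    · rintro rfl
      exact h.choose_spec
    · intro h1
      exact hU _ _ h.choose_spec h1
  · simp only [reduceCtorEq, false_iff]
    intro h1
    exact h ⟨j, h1⟩

theorem uniq {g : ℕ} {G : ℤ → ℤ} (hG : Sys g G) (W b : ℕ) (hW : 1 ≤ W) (hgW : g ≤ W) {m : ℕ}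
    (t : Fin m → ℕ) (hinj : Function.Injective t) (N : ℕ) (ht : ∀ i, t i ≤ N) (p : ℕ)
    (hp : p.Prime) (hpN : (W * N) ^ g < p) (K : ℕ) (i j : Fin m)
    (h1 : (p : ℤ) ∣ G ((W * (K + t i) + b : ℕ) : ℤ))
    (h2 : (p : ℤ) ∣ G ((W * (K + t j) + b : ℕ) : ℤ)) : i = j := by
  obtain ⟨Δ, hΔ⟩ := hG.coll
  have key : ∀ a c : ℕ, a < c → c ≤ N → (p : ℤ) ∣ G ((W * (K + a) + b : ℕ) : ℤ) →
      (p : ℤ) ∣ G ((W * (K + c) + b : ℕ) : ℤ) → False := by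
    intro a c hac hc h3 h4
    have e1 : ((W * (K + c) + b : ℕ) : ℤ) = ((W * (K + a) + b : ℕ) : ℤ) + ((W * (c - a) : ℕ) : ℤ) := by
      have : W * (K + c) + b = W * (K + a) + b + W * (c - a) := by
        obtain ⟨d, rfl⟩ := Nat.exists_eq_add_of_lt hac
        have : a + d + 1 - a = d + 1 := by omega
        rw [this]
        ring
      rw [this]
      push_cast
      ring
    rw [e1] at h4
    have hge : g ≤ W * (c - a) := hgW.trans (Nat.le_mul_of_pos_right _ (by omega))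
    obtain ⟨h5, h6, h7⟩ := hΔ (W * (c - a)) hge
    have h8 := Nat.le_of_dvd h5 (h7 p hp _ h3 h4)
    have h9 : (W * (c - a)) ^ g ≤ (W * N) ^ g :=
      Nat.pow_le_pow_left (Nat.mul_le_mul_left _ (by omega)) _
    omega
  by_contra hij
  have hne : t i ≠ t j := fun h => hij (hinj h)
  rcases lt_or_gt_of_ne hne with h | h
  · exact key _ _ h (ht j) h1 h2
  · exact key _ _ h (ht i) h2 h1

theorem Vp_low (g m : ℕ) : ∃ c : ℝ, 0 < c ∧ ∀ (F : ℤ → ℤ), Sys g F → ∀ (W b J z : ℕ)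
    (t : Fin m → ℕ), (∀ p : ℕ, p.Prime → p ≤ g * m + 1 → p ∣ W) → z < 2 ^ 2 ^ J →
    c * (1 / 2 ^ J) ^ (2 * (g * m)) ≤ Vp F W b z t := by
  obtain ⟨c, hc, H⟩ := V_low (g * m)
  refine ⟨c, hc, fun F hF W b J z t hW hz => ?_⟩
  have hr : ∀ p ∈ PS W z, p.Prime ∧ p ≤ z ∧ ¬ p ∣ W ∧ rhoT F W b t p ≤ g * m ∧ g * m + 1 < p := by
    intro p hp
    unfold PS at hp
    rw [mem_filter, mem_Icc] at hp
    obtain ⟨⟨h1, h2⟩, h3, h4⟩ := hp
    refine ⟨h3, h2, h4, ?_, ?_⟩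
    · have := Pool.Agent.Y833.RSZ.rhoT_le h3 (hF.per p h3) W b t h4
      refine this.trans ?_
      rw [mul_comm g m]
      exact Nat.mul_le_mul_left _ (hF.root p h3).1
    · by_contra hcon
      exact h4 (hW p h3 (not_lt.1 hcon))
  apply H J (PS W z) (fun p => (rhoT F W b t p : ℝ))
  · intro p hp
    obtain ⟨h1, h2, -, -, -⟩ := hr p hp
    exact ⟨h1, by omega⟩
  · intro p hp
    obtain ⟨-, -, -, h4, -⟩ := hr p hp
    exact_mod_cast h4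
  · intro p hp
    obtain ⟨-, -, -, h4, h5⟩ := hr p hp
    have h6 : rhoT F W b t p + 1 ≤ p := by omega
    have h7 : ((rhoT F W b t p : ℕ) : ℝ) + 1 ≤ p := by exact_mod_cast h6
    linarith

theorem Vp_pos {g m : ℕ} {F : ℤ → ℤ} (hF : Sys g F) (W b z : ℕ)
    (t : Fin m → ℕ) (hW : ∀ p : ℕ, p.Prime → p ≤ g * m + 1 → p ∣ W) : 0 < Vp F W b z t := by
  obtain ⟨c, hc, H⟩ := Vp_low g m
  obtain ⟨J, hJ⟩ : ∃ J : ℕ, z < 2 ^ 2 ^ J := by
    refine ⟨z, ?_⟩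
    have h1 : z < 2 ^ z := Nat.lt_two_pow_self
    have h2 : 2 ^ z < 2 ^ 2 ^ z := Nat.lt_two_pow_self
    omega
  exact lt_of_lt_of_le (by positivity) (H F hF W b J z t hW hJ)

theorem DT_rpow (G : ℤ → ℤ) (Y : ℕ) (ε₁ υ : ℝ) (hY : 2 ≤ Y) {m : ℕ}
    (T : Pg G Y ε₁ υ → Option (Fin m)) :
    (DT (fun s : Pg G Y ε₁ υ => (s : ℕ)) T : ℝ) = (Y : ℝ) ^ lt (ls G Y ε₁ υ) T := by
  have hYr : (2 : ℝ) ≤ Y := by exact_mod_cast hY
  have hY0 : (0 : ℝ) < Y := by linarith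
  have hlY : 0 < Real.log Y := Real.log_pos (by linarith)
  have hpos : 0 < DT (fun s : Pg G Y ε₁ υ => (s : ℕ)) T :=
    DT_pos _ (fun s => (Pg_mem G Y ε₁ υ hY s).1) T
  have hposr : (0 : ℝ) < DT (fun s : Pg G Y ε₁ υ => (s : ℕ)) T := by exact_mod_cast hpos
  have h1 : Real.log (DT (fun s : Pg G Y ε₁ υ => (s : ℕ)) T) = lt (ls G Y ε₁ υ) T * Real.log Y := by
    unfold DT lt ls
    push_cast
    rw [Real.log_prod, sum_mul]
    · refine sum_congr rfl fun s _ => ?_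
      split_ifs
      · simp
      · unfold tt
        field_simp
    · intro s _
      split_ifs
      · exact one_ne_zero
      · exact_mod_cast (Pg_mem G Y ε₁ υ hY s).1.ne_zero
  rw [Real.rpow_def_of_pos hY0, mul_comm, ← h1, Real.exp_log hposr]

theorem cnt_of (C b₀ W J z m b M L : ℕ) (F G : ℤ → ℤ) (t : Fin m → ℕ) (Y : ℕ) (hY : 2 ≤ Y)
    (ε₁ υ B : ℝ)
    (hG : ∀ p : ℕ, p.Prime → ∀ n : ℤ, (p : ℤ) ∣ G (n + p) - G n)
    (hW1 : 1 ≤ W) (hW : W ≤ z) (hz : (z : ℝ) < (Y : ℝ) ^ ε₁)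
    (hC : ∀ (D a : ℕ), 1 ≤ D → (∀ p ∈ PS W z, ¬ p ∣ D) →
      ∀ s : Finset ℕ, (∀ K, K ∈ s ↔ (K ∈ Ioc M (M + L) ∧ (K % D = a % D ∧
        ∀ p ∈ PS W z, ∀ i, ¬ (p : ℤ) ∣ F ((W * (K + t i) + b : ℕ) : ℤ)))) →
      |(s.card : ℝ) - (L : ℝ) / D * ∏ p ∈ PS W z, (1 - (rhoT F W b t p : ℝ) / p)| ≤
      (1 / 2 : ℝ) ^ b₀ * ((L : ℝ) / D * ∏ p ∈ PS W z, (1 - (rhoT F W b t p : ℝ) / p)) +
        ((2 : ℝ) ^ 2 ^ J) ^ (C * b₀))
    (hU : ∀ (K : ℕ) (s : Pg G Y ε₁ υ) i j, ((s : ℕ) : ℤ) ∣ G ((W * (K + t i) + b : ℕ) : ℤ) →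
      ((s : ℕ) : ℤ) ∣ G ((W * (K + t j) + b : ℕ) : ℤ) → i = j)
    (hD : (Y : ℝ) ^ B * ((2 : ℝ) ^ 2 ^ J) ^ (C * b₀) ≤ (1 / 2 : ℝ) ^ b₀ * (L * Vp F W b z t)) :
    Cnt (Ioc M (M + L)) (nuI F W b z t) (xi G W b t (fun s : Pg G Y ε₁ υ => (s : ℕ)))
      (fun s _ => 1 / qs G Y ε₁ υ s) (L * Vp F W b z t) (2 * (1 / 2 : ℝ) ^ b₀)
      (fun T => lt (ls G Y ε₁ υ) T ≤ B) := by
  classical
  intro T hT
  have hYr : (2 : ℝ) ≤ Y := by exact_mod_cast hY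
  have hY1 : (1 : ℝ) ≤ Y := by linarith
  have h1 := cnt_T (fun s : Pg G Y ε₁ υ => (s : ℕ)) (fun s => (Pg_mem G Y ε₁ υ hY s).1)
    (Subtype.val_injective) C b₀ W J z m b M L F G t hG hW1 hW (fun s => by
      have h2 := (Pg_mem G Y ε₁ υ hY s).2.1
      have h3 := hz.trans_le h2
      exact_mod_cast h3) (fun D a hD1 hD2 => hC D a hD1 hD2 _ (fun K => by rw [mem_filter]))
    (xi G W b t (fun s : Pg G Y ε₁ υ => (s : ℕ)))
    (fun K s j _ => xi_iff G W b t _ K s (hU K s) j) T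
  have e1 : ∀ s : Pg G Y ε₁ υ, rr (fun _ : Fin m => 1 / qs G Y ε₁ υ s) (T s) =
      rr (fun _ : Fin m => (rt G (s : ℕ) : ℝ) / (s : ℕ)) (T s) := by
    intro s
    rcases T s with _ | j
    · rfl
    · simp only [rr]
      unfold qs
      rw [one_div, inv_div]
  simp_rw [e1]
  refine h1.trans ?_
  have h2 : 0 ≤ ∏ s : Pg G Y ε₁ υ, rr (fun _ : Fin m => (rt G (s : ℕ) : ℝ) / (s : ℕ)) (T s) := by
    apply prod_nonneg
    intro s _
    rcases T s with _ | j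
    · simp [rr]
    · simp only [rr]
      positivity
  apply mul_le_mul_of_nonneg_right _ h2
  have h3 : (DT (fun s : Pg G Y ε₁ υ => (s : ℕ)) T : ℝ) ≤ (Y : ℝ) ^ B := by
    rw [DT_rpow G Y ε₁ υ hY T]
    exact Real.rpow_le_rpow_of_exponent_le hY1 hT
  have h4 : (DT (fun s : Pg G Y ε₁ υ => (s : ℕ)) T : ℝ) * ((2 : ℝ) ^ 2 ^ J) ^ (C * b₀) ≤
      (1 / 2 : ℝ) ^ b₀ * (L * Vp F W b z t) :=
    (mul_le_mul_of_nonneg_right h3 (by positivity)).trans hD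
  linarith

end Pool.Agent.R498.MT
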