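import Pool.Agent.R498.MT.Param2
import Pool.Agent.Y882.VV

set_option autoImplicit false
set_option linter.unusedSectionVars false

/-! Pointwise facts on the weights. -/

namespace Pool.Agent.R498.MT

open Finset
open Pool.Agent.Y882

section slot
variable {S J : Type} [Fintype S] [DecidableEq S] [Fintype J] [DecidableEq J]

/-- a slot without small prime factors does not influence the weight -/
theorem Lam_slot (q μ l : S → ℝ) (R : ℝ) (y : (S → Option J) → ℝ)
    (hy : ∀ σ, y σ ≠ 0 → lt l σ ≤ R) (hl : ∀ t, 0 ≤ l t) (i : J) (x : S → Option J)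
    (hx : ∀ t, x t = some i → R < l t) : Lam none q μ y x = Lam (some i) q μ y x := by
  unfold Lam
  refine sum_congr rfl fun σ _ => ?_
  by_cases h : y σ = 0
  · unfold cw
    rw [h]
    simp
  · congr 1
    refine prod_congr rfl fun t _ => ?_
    have h1 := hy σ h
    rcases hσ : σ t with _ | j
    · simp [hv]
    · have h2 : l t ≤ lt l σ := by
        unfold lt
        have := single_le_sum (f := fun t => if σ t = none then 0 else l t) (fun t _ => by
          show 0 ≤ (if σ t = none then 0 else l t)
          split_ifs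
          · exact le_rfl
          · exact hl t) (mem_univ t)
        simpa [hσ] using this
      have h3 : x t ≠ some i := fun h3 => by
        have := hx t h3
        linarith
      by_cases hij : i = j
      · subst hij
        simp [hv, h3]
      · simp [hv, hij]

/-- a colour does not influence the sum from which it is absent -/
theorem Lam_absent (q μ : S → ℝ) (y : (S → Option J) → ℝ) (i : J) (x x' : S → Option J)
    (h : ∀ t j, j ≠ i → (x t = some j ↔ x' t = some j)) :
    Lam (some i) q μ y x = Lam (some i) q μ y x' := by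
  unfold Lam
  refine sum_congr rfl fun σ _ => ?_
  congr 1
  refine prod_congr rfl fun t _ => ?_
  rcases hσ : σ t with _ | j
  · simp [hv]
  · by_cases hij : i = j
    · subst hij
      simp [hv]
    · have h1 := h t j (fun h => hij h.symm)
      simp only [hv, Option.some.injEq, hij, if_false, h1]

theorem Lam_bd (i : Option J) (q μ : S → ℝ) (hq : ∀ t, 2 ≤ q t) (hμ : ∀ t, 0 ≤ μ t)
    (hμq : ∀ t, μ t * (q t - 1) ≤ 1) (y : (S → Option J) → ℝ) (hy : ∀ σ, |y σ| ≤ 1)
    (x : S → Option J) :
    |Lam i q μ y x| ≤ (∏ t, (1 + (Fintype.card J : ℝ) * μ t)) *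
      2 ^ (univ.filter (fun t => x t ≠ none)).card := by
  have h1 : |Lam i q μ y x| ≤ ∑ σ : S → Option J, ∏ t, (|cf (μ t) (σ t)| * |hv i (q t) (σ t) (x t)|) := by
    unfold Lam
    refine (abs_sum_le_sum_abs _ _).trans (sum_le_sum fun σ _ => ?_)
    unfold cw
    rw [abs_mul, abs_mul, abs_prod, abs_prod, prod_mul_distrib]
    have p1 : 0 ≤ ∏ t, |cf (μ t) (σ t)| := prod_nonneg fun _ _ => abs_nonneg _
    have p2 : 0 ≤ ∏ t, |hv i (q t) (σ t) (x t)| := prod_nonneg fun _ _ => abs_nonneg _
    have p3 := hy σ
    calc (∏ t, |cf (μ t) (σ t)|) * |y σ| * ∏ t, |hv i (q t) (σ t) (x t)| ≤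
        (∏ t, |cf (μ t) (σ t)|) * 1 * ∏ t, |hv i (q t) (σ t) (x t)| := by gcongr
      _ = _ := by ring
  rw [sum_prod (fun t v => |cf (μ t) v| * |hv i (q t) v (x t)|)] at h1
  refine h1.trans ?_
  have h2 : (2 : ℝ) ^ (univ.filter (fun t => x t ≠ none)).card =
      ∏ t, (if x t ≠ none then (2 : ℝ) else 1) := by
    rw [prod_ite]
    simp
  rw [h2, ← prod_mul_distrib]
  apply prod_le_prod
  · intro t _
    exact sum_nonneg fun v _ => mul_nonneg (abs_nonneg _) (abs_nonneg _)
  · intro t _
    have hμt := hμ t
    have hqt := hq t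
    have hcf : ∀ j : J, |cf (μ t) (some j)| = μ t := fun j => by
      simp [cf, abs_of_nonneg hμt]
    rw [Fintype.sum_option]
    have e0 : |cf (μ t) (none : Option J)| * |hv i (q t) none (x t)| = 1 := by simp [cf, hv]
    rw [e0]
    have e1 : ∀ j : J, |cf (μ t) (some j)| * |hv i (q t) (some j) (x t)| ≤
        μ t + (if x t = some j then 1 else 0) := by
      intro j
      rw [hcf j]
      by_cases hij : i = some j
      · rw [hv_i i (q t) j (x t) hij]
        have : (0 : ℝ) ≤ (if x t = some j then 1 else 0) := by split_ifs <;> norm_num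
        simp only [abs_neg, abs_one, mul_one]
        linarith
      · by_cases hx : x t = some j
        · rw [if_pos hx]
          simp only [hv, if_neg hij, if_pos hx]
          rw [abs_of_nonneg (by linarith)]
          linarith [hμq t]
        · rw [if_neg hx]
          simp only [hv, if_neg hij, if_neg hx, abs_neg, abs_one, mul_one, add_zero]
          exact le_rfl
    have e2 : ∑ j : J, |cf (μ t) (some j)| * |hv i (q t) (some j) (x t)| ≤
        (Fintype.card J : ℝ) * μ t + (if x t ≠ none then 1 else 0) := by
      refine (sum_le_sum fun j _ => e1 j).trans ?_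
      rw [sum_add_distrib, sum_const, card_univ, nsmul_eq_mul]
      rcases x t with _ | k
      · simp
      · simp
    have h5 : 0 ≤ (Fintype.card J : ℝ) * μ t := by positivity
    split_ifs with hx
    · rw [if_pos hx] at e2
      nlinarith
    · rw [if_neg hx] at e2
      linarith

open Classical in
/-- restriction of the weights to the primes with a root -/
theorem VV_restrict (P P' : Finset ℕ) (hP : P' ⊆ P) (c : Finset ℕ → ℝ) (h : ℕ → ℝ)
    (h0 : ∀ p ∈ P, p ∉ P' → h p = 0) :
    VV P c h = ∑ T : Finset P', c (T.map (Function.Embedding.subtype _)) * ∏ t ∈ T, h t := by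
  unfold VV
  have h1 : ∑ T ∈ P.powerset, c T * ∏ p ∈ T, h p = ∑ T ∈ P'.powerset, c T * ∏ p ∈ T, h p := by
    symm
    apply sum_subset
    · exact powerset_mono.2 hP
    · intro T hT hT'
      rw [mem_powerset] at hT hT'
      obtain ⟨p, hp, hp'⟩ := not_subset.1 hT'
      rw [prod_eq_zero hp (h0 p (hT hp) hp'), mul_zero]
  rw [h1]
  symm
  apply sum_nbij' (i := fun T : Finset P' => T.map (Function.Embedding.subtype _))
    (j := fun T : Finset ℕ => T.subtype (fun p => p ∈ P'))
  · intro T _
    rw [mem_powerset]
    intro p hp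
    rw [mem_map] at hp
    obtain ⟨t, _, rfl⟩ := hp
    exact t.2
  · intro T _
    exact mem_univ _
  · intro T _
    ext t
    simp
  · intro T hT
    rw [mem_powerset] at hT
    rw [Finset.subtype_map]
    ext p
    rw [mem_filter]
    exact ⟨fun h => h.1, fun h => ⟨h, hT h⟩⟩
  · intro T _
    congr 1
    rw [prod_map]
    rfl

end slot

end Pool.Agent.R498.MT
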